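import Mathlib
import Pool.Agent.TH337.VF.Dens
import Pool.Agent.Q261.QV.Radial

/-!
Stationary varifolds with projections: integrability and test fields.
-/

namespace Pool.Agent.Q261.QS

open MeasureTheory Set Filter Topology Metric
open Pool.Agent.TH337.VF
open Pool.Agent.Q261.QV (p sc rf rv wt2 wt3 hasFDerivAt_rf rf_contDiff rf_zero p_nonneg p_le_one p_zero p_pos
  p_quarter p_cont sc_cont sc_nonneg sc_ge sc_ge' sc_lt sc_quarter wp sc_contDiff)
open scoped RealInnerProductSpace ENNReal

variable {N m : ℕ} {U : Set (E N)} {μ : Measure (E N)} {P : E N → E N →L[ℝ] E N}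

/-- stationary varifold with projections -/
structure Vf (m : ℕ) (U : Set (E N)) (μ : Measure (E N)) (P : E N → E N →L[ℝ] E N) : Prop where
  st : Stat m U μ P
  sym : ∀ x v w, ⟪P x v, w⟫ = ⟪v, P x w⟫
  idem : ∀ x v, P x (P x v) = P x v

lemma fin_restrict (hS : Stat m U μ P) {K : Set (E N)} (hK : IsCompact K) (hKU : K ⊆ U) :
    IsFiniteMeasure (μ.restrict K) := ⟨by simpa using hS.fin _ hKU hK⟩

/-- integrability of continuous functions of the point and the plane -/
lemma int_cont (hS : Stat m U μ P) {K : Set (E N)} (hK : IsCompact K) (hKU : K ⊆ U)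
    {Φ : E N × (E N →L[ℝ] E N) → ℝ} (hΦ : Continuous Φ) :
    IntegrableOn (fun y => Φ (y, P y)) K μ := by
  have := fin_restrict hS hK hKU
  obtain ⟨C, hC⟩ := (hK.prod (isCompact_closedBall (0 : E N →L[ℝ] E N) 1)).exists_bound_of_continuousOn
    hΦ.continuousOn
  refine Integrable.of_bound (C := C) ?_ ?_
  · exact (hΦ.measurable.comp (measurable_id.prodMk hS.meas)).aestronglyMeasurable
  · filter_upwards [ae_restrict_mem hK.measurableSet] with y hy
    apply hC
    refine ⟨hy, ?_⟩
    simpa using hS.nrm y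

lemma int_cont' (hS : Stat m U μ P) {K : Set (E N)} (hK : IsCompact K) (hKU : K ⊆ U)
    {f : E N → ℝ} (hf : Continuous f) : IntegrableOn f K μ :=
  int_cont hS hK hKU (Φ := fun z => f z.1) (hf.comp continuous_fst)

/-- test field -/
lemma test (hS : Stat m U μ P) {a : E N} {R : ℝ} (hR : closedBall a R ⊆ U) {X : E N → E N}
    (hX : ContDiff ℝ 1 X) (h0 : ∀ y ∉ closedBall a R, X y = 0) :
    ∫ y in closedBall a R, trc (P y ∘L fderiv ℝ X y) ∂μ = 0 := by
  have hcs : HasCompactSupport X := HasCompactSupport.intro (isCompact_closedBall a R) h0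
  have hts : tsupport X ⊆ closedBall a R := by
    apply closure_minimal _ isClosed_closedBall
    intro x hx
    by_contra hc
    exact hx (h0 x hc)
  rw [← hS.stat X hX hcs (hts.trans hR)]
  apply setIntegral_eq_integral_of_forall_compl_eq_zero
  intro y hy
  have : fderiv ℝ X y = 0 := by
    by_contra hc
    exact hy (hts (support_fderiv_subset ℝ (by simpa using hc)))
  rw [this, ContinuousLinearMap.comp_zero, trc_zero]

/-- test field of the form `p(s)^2 f(y) (y - a)` -/
lemma test1 (hS : Stat m U μ P) {a : E N} {r R : ℝ} (hr : 0 < r) (hrR : r ≤ R)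
    (hR : closedBall a R ⊆ U) {f : E N → ℝ} {G : E N → E N} (hf : ContDiff ℝ 1 f)
    (hG : ∀ y, HasFDerivAt f (innerSL ℝ (G y)) y) :
    ∫ y in closedBall a R, (m * (p (sc a r y) ^ 2 * f y) -
      4 / r ^ 2 * (p (sc a r y) * ⟪y - a, P y (y - a)⟫ * f y) +
      p (sc a r y) ^ 2 * ⟪G y, P y (y - a)⟫) ∂μ = 0 := by
  have hX : ContDiff ℝ 1 fun y => (rf (fun s => p s ^ 2) a r y * f y) • (y - a) :=
    ((rf_contDiff wt2 a r).mul hf).smul (contDiff_id.sub contDiff_const)
  have h1 := test hS hR hX (fun y hy => by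
    have hy' : y ∉ closedBall a r := fun hc => hy (closedBall_subset_closedBall hrR hc)
    rw [rf_zero wt2 hr hy', zero_mul, zero_smul])
  rw [← h1]
  have htr : ∀ᵐ x ∂(μ.restrict (closedBall a R)), trc (P x) = m :=
    ae_restrict_of_ae_restrict_of_subset hR hS.tr
  apply integral_congr_ae
  filter_upwards [htr] with y hy
  have h2 : HasFDerivAt (fun y => (rf (fun s => p s ^ 2) a r y * f y) • (y - a)) _ y :=
    (((hasFDerivAt_rf wt2 a r y).mul (hG y))).smul ((hasFDerivAt_id y).sub_const a)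
  rw [h2.fderiv, ContinuousLinearMap.comp_add, trc_add, ContinuousLinearMap.comp_smul, trc_smul,
    ContinuousLinearMap.comp_id, hy, trc_rank]
  simp only [rf, Pi.mul_apply, add_apply, smul_apply, innerSL_apply_apply, smul_eq_mul]
  ring

/-- test field of the form `p(s)^3 G(y)` -/
lemma test2 (hV : Vf m U μ P) {a : E N} {r R : ℝ} (hr : 0 < r) (hrR : r ≤ R)
    (hR : closedBall a R ⊆ U) {G : E N → E N} (hG : ContDiff ℝ 1 G) :
    ∫ y in closedBall a R, (p (sc a r y) ^ 3 * trc (P y ∘L fderiv ℝ G y) -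
      6 / r ^ 2 * (p (sc a r y) ^ 2 * ⟪G y, P y (y - a)⟫)) ∂μ = 0 := by
  have hX : ContDiff ℝ 1 fun y => rf (fun s => p s ^ 3) a r y • G y :=
    (rf_contDiff wt3 a r).smul hG
  have h1 := test hV.st hR hX (fun y hy => by
    have hy' : y ∉ closedBall a r := fun hc => hy (closedBall_subset_closedBall hrR hc)
    rw [rf_zero wt3 hr hy', zero_smul])
  rw [← h1]
  apply integral_congr_ae
  filter_upwards with y
  have h2 : HasFDerivAt (fun y => rf (fun s => p s ^ 3) a r y • G y) _ y :=
    (hasFDerivAt_rf wt3 a r y).smul (hG.differentiable one_ne_zero y).hasFDerivAt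
  rw [h2.fderiv, ContinuousLinearMap.comp_add, trc_add, ContinuousLinearMap.comp_smul, trc_smul,
    trc_rank]
  have h3 : ⟪y - a, P y (G y)⟫ = ⟪G y, P y (y - a)⟫ := by
    rw [← hV.sym, real_inner_comm]
  simp only [rf, smul_apply, innerSL_apply_apply, smul_eq_mul]
  rw [h3]
  ring

end Pool.Agent.Q261.QS
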