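import Mathlib
import Pool.Agent.Q261.QS.Base

/-!
Sub-mean value inequality for subharmonic functions on a stationary varifold, and decay at points
where the function is nonzero only on a set of density zero.
-/

namespace Pool.Agent.Q261.QS

open MeasureTheory Set Filter Topology Metric
open Pool.Agent.TH337.VF
open Pool.Agent.Q261.QV (p sc rf rv wt2 wt3 hasFDerivAt_rf rf_contDiff rf_zero p_nonneg p_le_one p_zero p_pos
  p_quarter p_cont sc_cont sc_nonneg sc_ge sc_ge' sc_lt sc_quarter wp sc_contDiff)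
open scoped RealInnerProductSpace ENNReal

variable {N m : ℕ} {U : Set (E N)} {μ : Measure (E N)} {P : E N → E N →L[ℝ] E N}

/-- the measure with density `f` on a closed ball -/
noncomputable def dn (μ : Measure (E N)) (f : E N → ℝ) (a : E N) (R : ℝ) : Measure (E N) :=
  (μ.restrict (closedBall a R)).withDensity (fun x => ENNReal.ofReal (f x))

lemma dn_finite (hS : Stat m U μ P) {f : E N → ℝ} (hf : Continuous f) {a : E N} {R : ℝ}
    (hR : closedBall a R ⊆ U) : IsFiniteMeasure (dn μ f a R) :=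
  isFiniteMeasure_withDensity_ofReal (int_cont' hS (isCompact_closedBall a R) hR hf).2

lemma dn_integral {f : E N → ℝ} (hf : Continuous f) (a : E N) (R : ℝ)
    (f0 : ∀ᵐ x ∂(μ.restrict (closedBall a R)), 0 ≤ f x)
    (F : E N → ℝ) : ∫ x, F x ∂(dn μ f a R) = ∫ x in closedBall a R, F x * f x ∂μ := by
  unfold dn
  rw [integral_withDensity_eq_integral_toReal_smul₀]
  · apply integral_congr_ae
    filter_upwards [f0] with x hx
    rw [ENNReal.toReal_ofReal hx, smul_eq_mul, mul_comm]
  · exact hf.measurable.ennreal_ofReal.aemeasurable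
  · filter_upwards with x
    exact ENNReal.ofReal_lt_top

/-- the weighted integral of `f` -/
noncomputable def J (μ : Measure (E N)) (f : E N → ℝ) (a : E N) (R r : ℝ) : ℝ :=
  I (fun s => p s ^ 2) (dn μ f a R) a r

lemma J_eq {f : E N → ℝ} (hf : Continuous f) (a : E N) (R r : ℝ)
    (f0 : ∀ᵐ x ∂(μ.restrict (closedBall a R)), 0 ≤ f x) :
    J μ f a R r = ∫ x in closedBall a R, p (sc a r x) ^ 2 * f x ∂μ := by
  unfold J I
  rw [dn_integral hf a R f0]
  rfl

/-- monotonicity -/
lemma J_mono (hV : Vf m U μ P) {f : E N → ℝ} {G : E N → E N} (hf : ContDiff ℝ 1 f)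
    (hG : ContDiff ℝ 1 G) (hfG : ∀ y, HasFDerivAt f (innerSL ℝ (G y)) y)
    (hsub : ∀ᵐ x ∂(μ.restrict U), 0 ≤ trc (P x ∘L fderiv ℝ G x)) {a : E N} {R r : ℝ}
    (f0 : ∀ᵐ x ∂(μ.restrict (closedBall a R)), 0 ≤ f x)
    (hR : closedBall a R ⊆ U) (hr : 0 < r) (hrR : r ≤ R) :
    J μ f a R r / r ^ m ≤ J μ f a R R / R ^ m := by
  have hK := isCompact_closedBall a R
  have hfc := hf.continuous
  have hfin := dn_finite hV.st hfc hR
  have hR0 : 0 < R := hr.trans_le hrR
  have hpc : Continuous p := p_cont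
  have hGc := hG.continuous
  have hGd : Continuous (fderiv ℝ G) := hG.continuous_fderiv one_ne_zero
  have key : ∀ x, 0 < x → x ≤ R → m * J μ f a R x ≤ x *
      ∫ y, (-2 * p (‖y - a‖ ^ 2 / x ^ 2)) * (-2 * ‖y - a‖ ^ 2 / x ^ 3) ∂(dn μ f a R) := by
    intro x hx hxR
    have hs := sc_cont a x
    have e1 := test1 hV.st hx hxR hR hf hfG
    have e2 := test2 hV hx hxR hR hG
    have i1 : IntegrableOn (fun y => m * (p (sc a x y) ^ 2 * f y)) (closedBall a R) μ :=
      int_cont' hV.st hK hR (by fun_prop)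
    have i2 : IntegrableOn (fun y => 4 / x ^ 2 * (p (sc a x y) * ⟪y - a, P y (y - a)⟫ * f y))
        (closedBall a R) μ :=
      int_cont hV.st hK hR
        (Φ := fun z => 4 / x ^ 2 * (p (sc a x z.1) * ⟪z.1 - a, z.2 (z.1 - a)⟫ * f z.1))
        (by fun_prop)
    have i3 : IntegrableOn (fun y => p (sc a x y) ^ 2 * ⟪G y, P y (y - a)⟫) (closedBall a R) μ :=
      int_cont hV.st hK hR (Φ := fun z => p (sc a x z.1) ^ 2 * ⟪G z.1, z.2 (z.1 - a)⟫)
        (by fun_prop)
    have i4 : IntegrableOn (fun y => p (sc a x y) ^ 3 * trc (P y ∘L fderiv ℝ G y))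
        (closedBall a R) μ := by
      refine int_cont hV.st hK hR (Φ := fun z => p (sc a x z.1) ^ 3 * trc (z.2 ∘L fderiv ℝ G z.1)) ?_
      have h1 : Continuous fun z : E N × (E N →L[ℝ] E N) => z.2 ∘L fderiv ℝ G z.1 :=
        continuous_snd.clm_comp (hGd.comp continuous_fst)
      have h2 := continuous_trc.comp h1
      have h3 : Continuous fun z : E N × (E N →L[ℝ] E N) => p (sc a x z.1) ^ 3 := by fun_prop
      exact h3.mul h2
    have i5 : IntegrableOn (fun y => 6 / x ^ 2 * (p (sc a x y) ^ 2 * ⟪G y, P y (y - a)⟫))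
        (closedBall a R) μ := i3.const_mul _
    rw [integral_sub i4 i5, integral_const_mul] at e2
    have h4 : 0 ≤ ∫ y in closedBall a R, p (sc a x y) ^ 3 * trc (P y ∘L fderiv ℝ G y) ∂μ := by
      apply integral_nonneg_of_ae
      filter_upwards [ae_restrict_of_ae_restrict_of_subset hR hsub] with y hy
      have := p_nonneg (sc a x y)
      show 0 ≤ p (sc a x y) ^ 3 * trc (P y ∘L fderiv ℝ G y)
      positivity
    have h5 : 0 ≤ ∫ y in closedBall a R, p (sc a x y) ^ 2 * ⟪G y, P y (y - a)⟫ ∂μ := by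
      have h6 : 0 < 6 / x ^ 2 := by positivity
      nlinarith
    have e1' : (∫ y in closedBall a R, m * (p (sc a x y) ^ 2 * f y) ∂μ) -
        (∫ y in closedBall a R, 4 / x ^ 2 * (p (sc a x y) * ⟪y - a, P y (y - a)⟫ * f y) ∂μ) +
        (∫ y in closedBall a R, p (sc a x y) ^ 2 * ⟪G y, P y (y - a)⟫ ∂μ) = 0 := by
      have i12 : IntegrableOn (fun y => m * (p (sc a x y) ^ 2 * f y) -
          4 / x ^ 2 * (p (sc a x y) * ⟪y - a, P y (y - a)⟫ * f y)) (closedBall a R) μ := i1.sub i2
      rw [← integral_sub i1 i2, ← integral_add i12 i3]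
      exact e1
    have h6 : ∫ y in closedBall a R, m * (p (sc a x y) ^ 2 * f y) ∂μ = m * J μ f a R x := by
      rw [integral_const_mul, J_eq hfc a R x f0]
    have h7 : ∫ y in closedBall a R, 4 / x ^ 2 * (p (sc a x y) * ⟪y - a, P y (y - a)⟫ * f y) ∂μ ≤
        x * ∫ y, (-2 * p (‖y - a‖ ^ 2 / x ^ 2)) * (-2 * ‖y - a‖ ^ 2 / x ^ 3) ∂(dn μ f a R) := by
      rw [dn_integral hfc a R f0, ← integral_const_mul]
      apply integral_mono_ae i2
      · exact int_cont' hV.st hK hR (by fun_prop)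
      · filter_upwards [f0] with y h10
        have h8 := inner_le_of_norm (hV.st.nrm y) (y - a)
        have h9 := p_nonneg (sc a x y)
        have h11 : x * (-2 * p (‖y - a‖ ^ 2 / x ^ 2) * (-2 * ‖y - a‖ ^ 2 / x ^ 3) * f y) =
            4 / x ^ 2 * (p (sc a x y) * ‖y - a‖ ^ 2 * f y) := by
          unfold sc
          field_simp
          ring
        show 4 / x ^ 2 * (p (sc a x y) * ⟪y - a, P y (y - a)⟫ * f y) ≤
          x * (-2 * p (‖y - a‖ ^ 2 / x ^ 2) * (-2 * ‖y - a‖ ^ 2 / x ^ 3) * f y)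
        rw [h11]
        gcongr
    linarith
  have hder : ∀ x, 0 < x → HasDerivAt (fun x => J μ f a R x / x ^ m)
      (((∫ y, (-2 * p (‖y - a‖ ^ 2 / x ^ 2)) * (-2 * ‖y - a‖ ^ 2 / x ^ 3) ∂(dn μ f a R)) * x ^ m -
        J μ f a R x * ((m:ℝ) * x ^ (m - 1))) / (x ^ m) ^ 2) x := by
    intro x hx
    exact (hasDerivAt_I wt2 (dn μ f a R) a hx).2.div (hasDerivAt_pow m x) (by positivity)
  have hmono : MonotoneOn (fun x => J μ f a R x / x ^ m) (Icc r R) := by
    apply monotoneOn_of_deriv_nonneg (convex_Icc r R)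
    · intro x hx
      exact (hder x (hr.trans_le hx.1)).continuousAt.continuousWithinAt
    · intro x hx
      rw [interior_Icc] at hx
      exact (hder x (hr.trans hx.1)).differentiableAt.differentiableWithinAt
    · intro x hx
      rw [interior_Icc] at hx
      have hx0 : 0 < x := hr.trans hx.1
      rw [(hder x hx0).deriv]
      apply div_nonneg _ (by positivity)
      have h1 := key x hx0 hx.2.le
      rcases Nat.eq_zero_or_pos m with h0 | h0
      · subst h0
        simp only [Nat.cast_zero, zero_mul] at h1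
        have : 0 ≤ ∫ y, (-2 * p (‖y - a‖ ^ 2 / x ^ 2)) * (-2 * ‖y - a‖ ^ 2 / x ^ 3)
            ∂(dn μ f a R) := by
          by_contra hc
          push Not at hc
          nlinarith
        simpa using this
      · have h2 : x ^ m = x * x ^ (m - 1) := by
          rw [← pow_succ', Nat.sub_add_cancel h0]
        rw [h2]
        have h3 : 0 < x ^ (m - 1) := by positivity
        nlinarith
  exact hmono ⟨le_rfl, hrR⟩ ⟨hrR, le_rfl⟩ hrR

lemma J_le (hV : Vf m U μ P) {f : E N → ℝ} (hf : Continuous f) (f0 : ∀ x, 0 ≤ f x) {a : E N}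
    {R : ℝ} (hR : closedBall a R ⊆ U) : J μ f a R R ≤ ∫ x in closedBall a R, f x ∂μ := by
  have hK := isCompact_closedBall a R
  rw [J_eq hf a R R (Eventually.of_forall f0)]
  apply integral_mono_ae
  · have h1 : Continuous fun x => p (sc a R x) ^ 2 * f x :=
      ((p_cont.comp (sc_cont a R)).pow 2).mul hf
    exact int_cont' hV.st hK hR h1
  · exact int_cont' hV.st hK hR hf
  · filter_upwards with x
    have h1 := p_le_one (sc_nonneg a R x)
    have h2 := p_nonneg (sc a R x)
    have h3 := f0 x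
    have h4 : p (sc a R x) ^ 2 ≤ 1 := pow_le_one₀ h2 h1
    show p (sc a R x) ^ 2 * f x ≤ f x
    nlinarith

/-- lower bound at a point with a lower mass bound -/
lemma J_ge (hV : Vf m U μ P) {f : E N → ℝ} (hf : Continuous f) (f0 : ∀ x, 0 ≤ f x) {a : E N}
    {R r c : ℝ} (hR : closedBall a R ⊆ U) (hr : 0 < r) (hrR : r ≤ R) (hc : 0 ≤ c)
    (hfc : ∀ x ∈ ball a (r / 2), c ≤ f x) :
    9 / 16 * (c * μ.real (ball a (r / 2))) ≤ J μ f a R r := by
  have hK := isCompact_closedBall a R
  have hsub : ball a (r / 2) ⊆ closedBall a R :=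
    ball_subset_closedBall.trans (closedBall_subset_closedBall (by linarith))
  have hfin := fin_restrict hV.st hK hR
  rw [J_eq hf a R r (Eventually.of_forall f0)]
  have h1 : Continuous fun x => p (sc a r x) ^ 2 * f x :=
    ((p_cont.comp (sc_cont a r)).pow 2).mul hf
  have i1 := int_cont' hV.st hK hR h1
  have h2 : ∫ x in ball a (r / 2), p (sc a r x) ^ 2 * f x ∂μ ≤
      ∫ x in closedBall a R, p (sc a r x) ^ 2 * f x ∂μ := by
    apply setIntegral_mono_set i1
    · filter_upwards with x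
      have := f0 x
      show 0 ≤ p (sc a r x) ^ 2 * f x
      positivity
    · exact hsub.eventuallyLE
  refine le_trans ?_ h2
  have hmt : μ (ball a (r / 2)) ≠ ⊤ :=
    ((measure_mono hsub).trans_lt (hV.st.fin _ hR hK)).ne
  have h3 : ∫ _x in ball a (r / 2), (9 / 16 * c) ∂μ = 9 / 16 * (c * μ.real (ball a (r / 2))) := by
    rw [setIntegral_const, smul_eq_mul]
    ring
  rw [← h3]
  apply setIntegral_mono_on (integrableOn_const hmt) (i1.mono_set hsub) measurableSet_ball
  intro x hx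
  have h4 := p_quarter (sc_quarter hr (ball_subset_closedBall hx))
  have h5 := hfc x hx
  have h6 : 9 / 16 ≤ p (sc a r x) ^ 2 := by nlinarith
  exact mul_le_mul h6 h5 hc (by positivity)

/-- sub-mean value inequality -/
lemma submean (hV : Vf m U μ P) {f : E N → ℝ} {G : E N → E N} (hf : ContDiff ℝ 1 f)
    (f0 : ∀ x, 0 ≤ f x) (hG : ContDiff ℝ 1 G) (hfG : ∀ y, HasFDerivAt f (innerSL ℝ (G y)) y)
    (hsub : ∀ᵐ x ∂(μ.restrict U), 0 ≤ trc (P x ∘L fderiv ℝ G x)) {θ : ℝ} (hθ : 0 ≤ θ)
    {a : E N} {R : ℝ} (hR0 : 0 < R) (hR : closedBall a R ⊆ U)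
    (ha : ∀ r, 0 < r → r ≤ R → θ * r ^ m ≤ μ.real (ball a r)) :
    9 / 16 * (θ / 2 ^ m) * f a * R ^ m ≤ ∫ x in closedBall a R, f x ∂μ := by
  have h1 := J_le hV hf.continuous f0 hR
  have hRm : 0 < R ^ m := by positivity
  suffices h : ∀ ε : ℝ, 0 < ε → 9 / 16 * (θ / 2 ^ m) * (f a - ε) * R ^ m ≤ J μ f a R R by
    have h2 : 9 / 16 * (θ / 2 ^ m) * f a * R ^ m ≤ J μ f a R R := by
      have h3 : Tendsto (fun ε : ℝ => 9 / 16 * (θ / 2 ^ m) * (f a - ε) * R ^ m) (𝓝[>] 0)
          (𝓝 (9 / 16 * (θ / 2 ^ m) * (f a - 0) * R ^ m)) := by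
        apply tendsto_nhdsWithin_of_tendsto_nhds
        have : Continuous fun ε : ℝ => 9 / 16 * (θ / 2 ^ m) * (f a - ε) * R ^ m := by fun_prop
        exact this.tendsto 0
      rw [sub_zero] at h3
      apply le_of_tendsto h3
      filter_upwards [self_mem_nhdsWithin] with ε hε
      exact h ε hε
    exact h2.trans h1
  intro ε hε
  rcases le_or_gt (f a - ε) 0 with hneg | hpos
  · have hJ0 : 0 ≤ J μ f a R R := by
      rw [J_eq hf.continuous a R R (Eventually.of_forall f0)]
      apply integral_nonneg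
      intro x
      have := f0 x
      show 0 ≤ p (sc a R x) ^ 2 * f x
      positivity
    have h2 : 9 / 16 * (θ / 2 ^ m) * (f a - ε) * R ^ m ≤ 0 := by
      have h3 : 0 ≤ 9 / 16 * (θ / 2 ^ m) := by positivity
      have h4 : 9 / 16 * (θ / 2 ^ m) * (f a - ε) ≤ 0 := mul_nonpos_of_nonneg_of_nonpos h3 hneg
      exact mul_nonpos_of_nonpos_of_nonneg h4 hRm.le
    linarith
  · obtain ⟨δ, hδ, hδf⟩ := Metric.continuous_iff.1 hf.continuous a ε hε
    set r := min R δ with hr
    have hr0 : 0 < r := lt_min hR0 hδ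
    have hrR : r ≤ R := min_le_left _ _
    have hfc : ∀ x ∈ ball a (r / 2), f a - ε ≤ f x := by
      intro x hx
      have h2 : dist x a < δ := by
        have h3 : dist x a < r / 2 := hx
        have h4 : r ≤ δ := min_le_right _ _
        linarith
      have h3 := hδf x h2
      rw [Real.dist_eq, abs_lt] at h3
      linarith [h3.1]
    have h2 := J_ge hV hf.continuous f0 hR hr0 hrR hpos.le hfc
    have h3 := ha (r / 2) (by linarith) (by linarith)
    have h4 := J_mono hV hf hG hfG hsub (Eventually.of_forall f0) hR hr0 hrR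
    have hrm : 0 < r ^ m := by positivity
    rw [div_le_div_iff₀ hrm hRm] at h4
    have h5 : 9 / 16 * ((f a - ε) * (θ * (r / 2) ^ m)) ≤ J μ f a R r := by
      refine le_trans ?_ h2
      gcongr
    have h6 : 9 / 16 * ((f a - ε) * (θ * (r / 2) ^ m)) =
        (9 / 16 * (θ / 2 ^ m) * (f a - ε)) * r ^ m := by
      rw [div_pow]
      ring
    rw [h6] at h5
    have h7 : (9 / 16 * (θ / 2 ^ m) * (f a - ε)) * r ^ m * R ^ m ≤ J μ f a R R * r ^ m :=
      (mul_le_mul_of_nonneg_right h5 hRm.le).trans h4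
    have h8 : (9 / 16 * (θ / 2 ^ m) * (f a - ε) * R ^ m) * r ^ m ≤ J μ f a R R * r ^ m := by
      calc (9 / 16 * (θ / 2 ^ m) * (f a - ε) * R ^ m) * r ^ m
          = (9 / 16 * (θ / 2 ^ m) * (f a - ε)) * r ^ m * R ^ m := by ring
        _ ≤ _ := h7
    exact le_of_mul_le_mul_right h8 hrm

/-- decay at a point where `f` is nonzero only on a set of density zero -/
theorem decay (hV : Vf m U μ P) (hU : IsOpen U) {f : E N → ℝ} {G : E N → E N}
    (hf : ContDiff ℝ 1 f)
    (f0 : ∀ x, 0 ≤ f x) (hG : ContDiff ℝ 1 G) (hfG : ∀ y, HasFDerivAt f (innerSL ℝ (G y)) y)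
    (hsub : ∀ᵐ x ∂(μ.restrict U), 0 ≤ trc (P x ∘L fderiv ℝ G x)) {θ : ℝ} (hθ : 0 < θ)
    (hΘ : ∀ᵐ a ∂(μ.restrict U), ∀ r, 0 < r → closedBall a r ⊆ U → θ * r ^ m ≤ μ.real (ball a r))
    {x₀ : E N} (hx₀ : x₀ ∈ U)
    (hd : ∀ ε : ℝ, 0 < ε → ∀ᶠ r in 𝓝[>] (0:ℝ), μ.real (ball x₀ r ∩ {x | f x ≠ 0}) ≤ ε * r ^ m)
    (k : ℕ) : ∀ᶠ r in 𝓝[>] (0:ℝ), ∀ᵐ x ∂(μ.restrict (ball x₀ r)), f x ≤ r ^ k := by
  obtain ⟨R, hR0, hR⟩ := Metric.nhds_basis_closedBall.mem_iff.1 (hU.mem_nhds hx₀)
  set c : ℝ := 9 / 16 * (θ / 2 ^ m) with hc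
  have hc0 : 0 < c := by positivity
  set ε : ℝ := c / (2 ^ m * 2 ^ (k + 1)) with hε
  have hε0 : 0 < ε := by positivity
  have hev := hd ε hε0
  rw [eventually_nhdsWithin_iff, Metric.eventually_nhds_iff] at hev
  obtain ⟨δ, hδ, hδe⟩ := hev
  have hδ' : ∀ r, 0 < r → r < δ → μ.real (ball x₀ r ∩ {x | f x ≠ 0}) ≤ ε * r ^ m := by
    intro r hr hrδ
    apply hδe _ hr
    rw [Real.dist_eq, sub_zero, abs_of_pos hr]
    exact hrδ
  set ρ := min R (δ / 2) with hρ
  have hρ0 : 0 < ρ := lt_min hR0 (by linarith)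
  have hρU : closedBall x₀ ρ ⊆ U := (closedBall_subset_closedBall (min_le_left _ _)).trans hR
  obtain ⟨A, hA⟩ := (isCompact_closedBall x₀ ρ).exists_bound_of_continuousOn
    hf.continuous.continuousOn
  have hA0 : 0 ≤ A := (norm_nonneg _).trans (hA x₀ (mem_closedBall_self hρ0.le))
  have hmain : ∀ j : ℕ, ∀ r, 0 < r → 2 ^ j * r ≤ ρ →
      ∀ᵐ x ∂(μ.restrict (ball x₀ r)), f x ≤ A * (1 / 2 ^ (k + 1)) ^ j := by
    intro j
    induction j with
    | zero =>
      intro r hr hrρ
      filter_upwards [ae_restrict_mem measurableSet_ball] with x hx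
      have h1 : x ∈ closedBall x₀ ρ := by
        have h2 : dist x x₀ < r := hx
        have h3 : r ≤ ρ := by simpa using hrρ
        exact (h2.le.trans h3)
      have h2 := hA x h1
      rw [Real.norm_eq_abs] at h2
      have := le_abs_self (f x)
      simp
      linarith
    | succ j ih =>
      intro r hr hrρ
      have h2r : 0 < 2 * r := by linarith
      have h2rρ : 2 ^ j * (2 * r) ≤ ρ := by
        calc (2:ℝ) ^ j * (2 * r) = 2 ^ (j + 1) * r := by ring
          _ ≤ ρ := hrρ
      have hB := ih (2 * r) h2r h2rρ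
      have h1j : (1:ℝ) ≤ 2 ^ j := one_le_pow₀ (by norm_num)
      have h2ρ : 2 * r ≤ ρ := by nlinarith
      have hballU : ball x₀ (2 * r) ⊆ U :=
        (ball_subset_closedBall.trans (closedBall_subset_closedBall h2ρ)).trans hρU
      have hballr : ball x₀ r ⊆ U := (ball_subset_ball (by linarith)).trans hballU
      have hmass := hδ' (2 * r) h2r (by
        have : ρ ≤ δ / 2 := min_le_right _ _
        linarith)
      set B := A * (1 / 2 ^ (k + 1)) ^ j with hBdef
      have hB0 : 0 ≤ B := by positivity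
      filter_upwards [ae_restrict_of_ae_restrict_of_subset hballr hΘ,
        ae_restrict_mem measurableSet_ball] with a ha1 ha2
      have hsub2 : closedBall a r ⊆ ball x₀ (2 * r) := by
        apply closedBall_subset_ball'
        have : dist a x₀ < r := ha2
        linarith
      have haU : closedBall a r ⊆ U := hsub2.trans hballU
      have h3 := submean hV hf f0 hG hfG hsub hθ.le hr haU (fun s hs hsr =>
        ha1 s hs ((closedBall_subset_closedBall hsr).trans haU))
      have hfin := fin_restrict hV.st (isCompact_closedBall a r) haU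
      have hmt : μ (closedBall a r) ≠ ⊤ := (hV.st.fin _ haU (isCompact_closedBall a r)).ne
      have hfin2 : μ (ball x₀ (2 * r) ∩ {x | f x ≠ 0}) ≠ ⊤ :=
        ((measure_mono (inter_subset_left.trans
          (ball_subset_closedBall.trans (closedBall_subset_closedBall h2ρ)))).trans_lt
          (hV.st.fin _ hρU (isCompact_closedBall x₀ ρ))).ne
      have h4 : ∫ x in closedBall a r, f x ∂μ ≤ B * (ε * (2 * r) ^ m) := by
        have h5 : ∀ᵐ x ∂(μ.restrict (closedBall a r)), f x ≤ B :=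
          ae_restrict_of_ae_restrict_of_subset hsub2 hB
        have hmeas : MeasurableSet {x | f x ≠ 0} :=
          (hf.continuous.measurable (measurableSet_singleton 0)).compl
        calc ∫ x in closedBall a r, f x ∂μ
            ≤ ∫ x in closedBall a r, {x | f x ≠ 0}.indicator (fun _ => B) x ∂μ := by
              apply integral_mono_ae
              · exact int_cont' hV.st (isCompact_closedBall a r) haU hf.continuous
              · exact (integrable_const B).indicator hmeas
              · filter_upwards [h5] with x hx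
                by_cases h0 : f x = 0
                · rw [h0]
                  exact indicator_nonneg (fun _ _ => hB0) _
                · rw [indicator_of_mem (show x ∈ {x | f x ≠ 0} from h0)]
                  exact hx
          _ = B * μ.real (closedBall a r ∩ {x | f x ≠ 0}) := by
              rw [integral_indicator hmeas, Measure.restrict_restrict hmeas, setIntegral_const,
                smul_eq_mul, mul_comm, inter_comm]
          _ ≤ B * μ.real (ball x₀ (2 * r) ∩ {x | f x ≠ 0}) := by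
              apply mul_le_mul_of_nonneg_left _ hB0
              exact measureReal_mono (inter_subset_inter_left _ hsub2) hfin2
          _ ≤ B * (ε * (2 * r) ^ m) := mul_le_mul_of_nonneg_left hmass hB0
      have h5 : c * f a * r ^ m ≤ B * (ε * (2 * r) ^ m) := h3.trans h4
      have h6 : B * (ε * (2 * r) ^ m) = c * (B * (1 / 2 ^ (k + 1))) * r ^ m := by
        rw [hε, mul_pow]
        field_simp
      rw [h6] at h5
      have hrm : 0 < r ^ m := by positivity
      have h7 : c * f a ≤ c * (B * (1 / 2 ^ (k + 1))) := le_of_mul_le_mul_right h5 hrm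
      have h8 : f a ≤ B * (1 / 2 ^ (k + 1)) := le_of_mul_le_mul_left h7 hc0
      calc f a ≤ B * (1 / 2 ^ (k + 1)) := h8
        _ = A * (1 / 2 ^ (k + 1)) ^ (j + 1) := by
          rw [hBdef, pow_succ]
          ring
  have hsmall : ∀ᶠ r in 𝓝[>] (0:ℝ), A * (2 / ρ) ^ (k + 1) * r ≤ 1 := by
    have h1 : Tendsto (fun r : ℝ => A * (2 / ρ) ^ (k + 1) * r) (𝓝[>] 0)
        (𝓝 (A * (2 / ρ) ^ (k + 1) * 0)) := by
      apply tendsto_nhdsWithin_of_tendsto_nhds
      exact (continuous_const.mul continuous_id).tendsto 0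
    rw [mul_zero] at h1
    filter_upwards [h1.eventually (gt_mem_nhds (show (0:ℝ) < 1 by norm_num))] with r hr
    exact hr.le
  filter_upwards [hsmall, Ioo_mem_nhdsGT hρ0] with r hr1 hr2
  have hr0 : 0 < r := hr2.1
  obtain ⟨j, hj1, hj2⟩ := exists_nat_pow_near (show (1:ℝ) ≤ ρ / r by
    rw [one_le_div hr0]
    exact hr2.2.le) (show (1:ℝ) < 2 by norm_num)
  have h1 : 2 ^ j * r ≤ ρ := by rwa [le_div_iff₀ hr0] at hj1
  filter_upwards [hmain j r hr0 h1] with x hx
  refine hx.trans ?_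
  have h2 : (1 / 2 : ℝ) ^ j ≤ 2 / ρ * r := by
    rw [div_lt_iff₀ hr0] at hj2
    rw [one_div, inv_pow, inv_le_iff_one_le_mul₀ (by positivity)]
    have h3 : ρ < 2 ^ j * (2 * r) := by
      calc ρ < 2 ^ (j + 1) * r := hj2
        _ = 2 ^ j * (2 * r) := by ring
    have h4 : 2 / ρ * r * 2 ^ j = (2 ^ j * (2 * r)) / ρ := by ring
    rw [h4, one_le_div hρ0]
    exact h3.le
  have h3 : (1 / 2 ^ (k + 1) : ℝ) ^ j = ((1 / 2 : ℝ) ^ j) ^ (k + 1) := by
    rw [← pow_mul, ← one_div_pow, ← pow_mul, mul_comm]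
  rw [h3]
  calc A * ((1 / 2 : ℝ) ^ j) ^ (k + 1) ≤ A * (2 / ρ * r) ^ (k + 1) := by gcongr
    _ = (A * (2 / ρ) ^ (k + 1) * r) * r ^ k := by
      rw [mul_pow, pow_succ r]
      ring
    _ ≤ 1 * r ^ k := by gcongr
    _ = r ^ k := one_mul _

end Pool.Agent.Q261.QS
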