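import Mathlib
import Pool.Agent.Q261.QS.Height
import Pool.Agent.TH337.VF.Local

/-!
Pinching of the mass ratio near a point of the same density.
-/

namespace Pool.Agent.Q261.QS

open MeasureTheory Set Filter Topology Metric
open Pool.Agent.TH337.VF
open Pool.Agent.Q261.QV (p sc rf rv wt2 wt3 hasFDerivAt_rf rf_contDiff rf_zero p_nonneg p_le_one p_zero p_pos
  p_quarter p_cont sc_cont sc_nonneg sc_ge sc_ge' sc_lt sc_quarter wp sc_contDiff)
open scoped RealInnerProductSpace ENNReal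

variable {N m : ℕ} {U : Set (E N)} {μ : Measure (E N)} {P : E N → E N →L[ℝ] E N}

/-- the radii of the superlevel sets of the weight -/
noncomputable def st (t : ℝ) : ℝ := √(1 - √t)

lemma st_cont : Continuous st := by
  unfold st
  fun_prop

lemma st_pos {t : ℝ} (ht : t ∈ Ioo (0:ℝ) 1) : 0 < st t := by
  unfold st
  apply Real.sqrt_pos.2
  have : √t < 1 := by
    rw [Real.sqrt_lt' one_pos]
    simpa using ht.2
  linarith

lemma st_le {t : ℝ} : st t ≤ 1 := by
  unfold st
  have := Real.sqrt_nonneg t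
  calc √(1 - √t) ≤ √1 := Real.sqrt_le_sqrt (by linarith)
    _ = 1 := Real.sqrt_one

lemma st_zero {t : ℝ} (ht : 1 ≤ t) : st t = 0 := by
  unfold st
  apply Real.sqrt_eq_zero_of_nonpos
  have : 1 ≤ √t := Real.one_le_sqrt.2 ht
  linarith

/-- the constant of the weight -/
noncomputable def κ (m : ℕ) : ℝ≥0∞ := ∫⁻ t in Ioo (0:ℝ) 1, ENNReal.ofReal (st t) ^ m

lemma κ_ne : κ m ≠ ⊤ := by
  have h1 : κ m ≤ ∫⁻ _t in Ioo (0:ℝ) 1, 1 := by
    apply lintegral_mono
    intro t
    apply pow_le_one₀ zero_le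
    rw [← ENNReal.ofReal_one]
    exact ENNReal.ofReal_le_ofReal st_le
  refine (h1.trans_lt ?_).ne
  simp

/-- the weighted mass -/
noncomputable def W (μ : Measure (E N)) (a : E N) (r : ℝ) : ℝ≥0∞ :=
  ∫⁻ y, ENNReal.ofReal (p (sc a r y) ^ 2) ∂μ

lemma lvl {a : E N} {r t : ℝ} (hr : 0 < r) (ht : 0 < t) :
    {y | t < p (sc a r y) ^ 2} = ball a (r * st t) := by
  ext y
  simp only [mem_ofPred_eq, mem_ball, dist_eq_norm]
  have hst := Real.sqrt_nonneg t
  have hpn := p_nonneg (sc a r y)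
  have h1 : ‖y - a‖ < r * st t ↔ sc a r y < 1 - √t := by
    have h2 : ‖y - a‖ < r * st t ↔ ‖y - a‖ / r < st t := by
      rw [div_lt_iff₀ hr, mul_comm]
    rw [h2]
    unfold st sc
    rw [Real.lt_sqrt (by positivity), div_pow]
  rw [h1]
  constructor
  · intro h
    have h2 : √t < p (sc a r y) := by
      have h3 : 0 < p (sc a r y) := by
        rcases hpn.lt_or_eq with h4 | h4
        · exact h4
        · rw [← h4] at h
          norm_num at h
          linarith
      rwa [Real.sqrt_lt' h3]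
    unfold p at h2
    rcases lt_max_iff.1 h2 with h3 | h3
    · linarith
    · linarith
  · intro h
    have h2 : √t < p (sc a r y) := by
      unfold p
      apply lt_max_of_lt_right
      linarith
    rwa [Real.sqrt_lt' (hst.trans_lt h2)] at h2

lemma W_eq {a : E N} {r : ℝ} (hr : 0 < r) :
    W μ a r = ∫⁻ t in Ioo (0:ℝ) 1, μ (ball a (r * st t)) := by
  unfold W
  have hc : Continuous fun y => p (sc a r y) ^ 2 := (wp a r).pow 2
  rw [lintegral_eq_lintegral_meas_lt μ (Eventually.of_forall fun y => by positivity)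
    hc.measurable.aemeasurable]
  rw [← lintegral_indicator measurableSet_Ioi, ← lintegral_indicator measurableSet_Ioo]
  congr 1
  funext t
  by_cases h1 : t ∈ Ioo (0:ℝ) 1
  · rw [indicator_of_mem h1, indicator_of_mem (show t ∈ Ioi (0:ℝ) from h1.1), lvl hr h1.1]
  · rw [indicator_of_notMem h1]
    by_cases h2 : t ∈ Ioi (0:ℝ)
    · have h3 : 1 ≤ t := by
        by_contra hc
        exact h1 ⟨h2, not_le.1 hc⟩
      rw [indicator_of_mem h2, lvl hr h2, st_zero h3, mul_zero, ball_zero, measure_empty]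
    · rw [indicator_of_notMem h2]

lemma W_ge (hS : Stat m U μ P) {a : E N} {R : ℝ} (hR : closedBall a R ⊆ U) (hR0 : 0 < R) :
    density m μ a * (volume (ball (0 : EuclideanSpace ℝ (Fin m)) 1) * ENNReal.ofReal R ^ m) * κ m ≤
      W μ a R := by
  rw [W_eq hR0]
  unfold κ
  rw [← lintegral_const_mul _ (by
    have := st_cont
    fun_prop)]
  apply setLIntegral_mono' measurableSet_Ioo
  intro t ht
  have h1 := st_pos ht
  have h2 := st_le (t := t)
  have h3 : closedBall a (R * st t) ⊆ U :=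
    (closedBall_subset_closedBall (by nlinarith)).trans hR
  refine le_trans (le_of_eq ?_) (density_le hS h3 (by positivity))
  rw [ENNReal.ofReal_mul hR0.le, mul_pow]
  ring

lemma W_le {a : E N} {q : ℝ≥0∞} {R : ℝ} (hR0 : 0 < R)
    (h : ∀ s, 0 < s → s ≤ R → μ (ball a s) ≤
      q * (volume (ball (0 : EuclideanSpace ℝ (Fin m)) 1) * ENNReal.ofReal s ^ m)) :
    W μ a R ≤ q * (volume (ball (0 : EuclideanSpace ℝ (Fin m)) 1) * ENNReal.ofReal R ^ m) * κ m := by
  rw [W_eq hR0]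
  unfold κ
  rw [← lintegral_const_mul _ (by
    have := st_cont
    fun_prop)]
  apply setLIntegral_mono' measurableSet_Ioo
  intro t ht
  have h1 := st_pos ht
  have h2 := st_le (t := t)
  refine (h (R * st t) (by positivity) (by nlinarith)).trans (le_of_eq ?_)
  rw [ENNReal.ofReal_mul hR0.le, mul_pow]
  ring

lemma w_eq {K : Set (E N)} (hK : MeasurableSet K) {a : E N} {r : ℝ} (hr : 0 < r)
    (hsub : ball a r ⊆ K) : ∫ y in K, p (sc a r y) ^ 2 ∂μ = (W μ a r).toReal := by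
  have hc : Continuous fun y => p (sc a r y) ^ 2 := (wp a r).pow 2
  rw [integral_eq_lintegral_of_nonneg_ae (Eventually.of_forall fun y => by positivity)
    hc.aestronglyMeasurable]
  unfold W
  congr 1
  rw [← lintegral_indicator hK]
  congr 1
  funext y
  by_cases h1 : y ∈ K
  · rw [indicator_of_mem h1]
  · rw [indicator_of_notMem h1]
    have h2 : y ∉ ball a r := fun h => h1 (hsub h)
    rw [p_zero (sc_ge' hr h2)]
    simp

lemma I_eq_W {a : E N} {r R : ℝ} (hr : 0 < r) (hrR : r ≤ R) :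
    I (fun s => p s ^ 2) (μ.restrict (closedBall a R)) a r = (W μ a r).toReal :=
  w_eq measurableSet_closedBall hr
    (ball_subset_closedBall.trans (closedBall_subset_closedBall hrR))

lemma W_ne (hS : Stat m U μ P) {a : E N} {r : ℝ} (hr : 0 < r) (hU : closedBall a r ⊆ U) :
    W μ a r ≠ ⊤ := by
  have h1 : W μ a r = ∫⁻ y in closedBall a r, ENNReal.ofReal (p (sc a r y) ^ 2) ∂μ := by
    unfold W
    rw [← lintegral_indicator measurableSet_closedBall]
    congr 1
    funext y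
    by_cases h1 : y ∈ closedBall a r
    · rw [indicator_of_mem h1]
    · rw [indicator_of_notMem h1, p_zero (sc_ge hr h1)]
      simp
  rw [h1]
  have h2 : ∫⁻ y in closedBall a r, ENNReal.ofReal (p (sc a r y) ^ 2) ∂μ ≤
      ∫⁻ _y in closedBall a r, 1 ∂μ := by
    apply lintegral_mono
    intro y
    rw [← ENNReal.ofReal_one]
    apply ENNReal.ofReal_le_ofReal
    exact pow_le_one₀ (p_nonneg _) (p_le_one (sc_nonneg a r y))
  refine (h2.trans_lt ?_).ne
  rw [lintegral_one, Measure.restrict_apply_univ]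
  exact hS.fin _ hU (isCompact_closedBall a r)

/-- the perpendicular part -/
noncomputable def A (μ : Measure (E N)) (P : E N → E N →L[ℝ] E N) (x : E N) (h : ℝ) : ℝ :=
  ∫ z in ball x h, (‖z - x‖ ^ 2 - ⟪z - x, P z (z - x)⟫) ∂μ

lemma perp (hS : Stat m U μ P) {a : E N} {h : ℝ} (h0 : 0 < h) (hU : closedBall a (4 * h) ⊆ U) :
    6 * h / (4 * h) ^ (m + 3) * A μ P a h ≤
      (W μ a (4 * h)).toReal / (4 * h) ^ m - (W μ a (2 * h)).toReal / (2 * h) ^ m := by
  set R := 4 * h with hRdef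
  have hR0 : 0 < R := by positivity
  have hK := isCompact_closedBall a R
  have hfin := fin_restrict hS hK hU
  set ν := μ.restrict (closedBall a R) with hν
  have hpc : Continuous p := p_cont
  have key : ∀ x, 0 < x → x ≤ R → m * I (fun s => p s ^ 2) ν a x =
      ∫ y, 4 / x ^ 2 * (p (sc a x y) * ⟪y - a, P y (y - a)⟫) ∂ν := by
    intro x hx hxR
    have hs := sc_cont a x
    have e1 := test1 hS hx hxR hU (f := fun _ => 1) (G := fun _ => 0) contDiff_const (fun y => by
      simpa using hasFDerivAt_const (1:ℝ) y)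
    simp only [mul_one, inner_zero_left, mul_zero, add_zero] at e1
    have i1 : Integrable (fun y => m * (p (sc a x y) ^ 2)) ν :=
      int_cont' hS hK hU (by fun_prop)
    have i2 : Integrable (fun y => 4 / x ^ 2 * (p (sc a x y) * ⟪y - a, P y (y - a)⟫)) ν :=
      int_cont hS hK hU
        (Φ := fun z => 4 / x ^ 2 * (p (sc a x z.1) * ⟪z.1 - a, z.2 (z.1 - a)⟫)) (by fun_prop)
    rw [integral_sub i1 i2, integral_const_mul] at e1
    have e2 : I (fun s => p s ^ 2) ν a x = ∫ y in closedBall a R, p (sc a x y) ^ 2 ∂μ := rfl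
    rw [e2]
    linarith
  set D : ℝ → ℝ := fun x => ∫ y, (-2 * p (‖y - a‖ ^ 2 / x ^ 2)) * (-2 * ‖y - a‖ ^ 2 / x ^ 3) ∂ν
    with hD
  have hder : ∀ x, 0 < x → HasDerivAt (fun x => I (fun s => p s ^ 2) ν a x / x ^ m)
      ((D x * x ^ m - I (fun s => p s ^ 2) ν a x * ((m:ℝ) * x ^ (m - 1))) / (x ^ m) ^ 2) x := by
    intro x hx
    exact (hasDerivAt_I wt2 ν a hx).2.div (hasDerivAt_pow m x) (by positivity)
  have hAn : 0 ≤ A μ P a h := by
    unfold A
    apply integral_nonneg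
    intro z
    have := inner_le_of_norm (hS.nrm z) (z - a)
    show 0 ≤ ‖z - a‖ ^ 2 - ⟪z - a, P z (z - a)⟫
    linarith
  have hlow : ∀ x ∈ Ioo (2 * h) R, 3 / R ^ (m + 3) * A μ P a h ≤
      (D x * x ^ m - I (fun s => p s ^ 2) ν a x * ((m:ℝ) * x ^ (m - 1))) / (x ^ m) ^ 2 := by
    intro x hx
    have hx0 : 0 < x := by
      have := hx.1
      linarith
    have hxR : x ≤ R := hx.2.le
    have hs := sc_cont a x
    have h1 := key x hx0 hxR
    have h2 : (m:ℝ) * x ^ (m - 1) = m * x ^ m / x := by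
      rcases Nat.eq_zero_or_pos m with h3 | h3
      · subst h3
        simp
      · have h4 : x ^ m = x ^ (m - 1) * x := by
          rw [← pow_succ, Nat.sub_add_cancel h3]
        rw [h4]
        field_simp
    have h3 : (D x * x ^ m - I (fun s => p s ^ 2) ν a x * ((m:ℝ) * x ^ (m - 1))) / (x ^ m) ^ 2 =
        (D x - (m * I (fun s => p s ^ 2) ν a x) / x) / x ^ m := by
      rw [h2]
      field_simp
    rw [h3, h1]
    have i2 : Integrable (fun y => 4 / x ^ 2 * (p (sc a x y) * ⟪y - a, P y (y - a)⟫)) ν :=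
      int_cont hS hK hU
        (Φ := fun z => 4 / x ^ 2 * (p (sc a x z.1) * ⟪z.1 - a, z.2 (z.1 - a)⟫)) (by fun_prop)
    have i3 : Integrable (fun y => (-2 * p (‖y - a‖ ^ 2 / x ^ 2)) * (-2 * ‖y - a‖ ^ 2 / x ^ 3)) ν :=
      (hasDerivAt_I wt2 ν a hx0).1
    have i4 : Integrable (fun z => (‖z - a‖ ^ 2 - ⟪z - a, P z (z - a)⟫)) ν :=
      int_cont hS hK hU (Φ := fun z => (‖z.1 - a‖ ^ 2 - ⟪z.1 - a, z.2 (z.1 - a)⟫)) (by fun_prop)
    have hsub : ball a h ⊆ closedBall a R :=
      ball_subset_closedBall.trans (closedBall_subset_closedBall (by linarith))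
    have h4 : D x - (∫ y, 4 / x ^ 2 * (p (sc a x y) * ⟪y - a, P y (y - a)⟫) ∂ν) / x =
        ∫ y, 4 / x ^ 3 * (p (sc a x y) * (‖y - a‖ ^ 2 - ⟪y - a, P y (y - a)⟫)) ∂ν := by
      rw [hD, ← integral_div, ← integral_sub i3 (i2.div_const _)]
      congr 1
      funext y
      unfold sc
      field_simp
      ring
    rw [h4]
    have i5 : Integrable (fun y => 4 / x ^ 3 * (p (sc a x y) * (‖y - a‖ ^ 2 -
        ⟪y - a, P y (y - a)⟫))) ν :=
      int_cont hS hK hU (Φ := fun z => 4 / x ^ 3 * (p (sc a x z.1) * (‖z.1 - a‖ ^ 2 -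
        ⟪z.1 - a, z.2 (z.1 - a)⟫))) (by fun_prop)
    have h5 : 3 / x ^ 3 * A μ P a h ≤
        ∫ y, 4 / x ^ 3 * (p (sc a x y) * (‖y - a‖ ^ 2 - ⟪y - a, P y (y - a)⟫)) ∂ν := by
      have h6 : 3 / x ^ 3 * A μ P a h =
          ∫ z in ball a h, 3 / x ^ 3 * (‖z - a‖ ^ 2 - ⟪z - a, P z (z - a)⟫) ∂μ := by
        unfold A
        rw [integral_const_mul]
      rw [h6]
      calc ∫ z in ball a h, 3 / x ^ 3 * (‖z - a‖ ^ 2 - ⟪z - a, P z (z - a)⟫) ∂μ
          ≤ ∫ y in ball a h, 4 / x ^ 3 * (p (sc a x y) * (‖y - a‖ ^ 2 -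
              ⟪y - a, P y (y - a)⟫)) ∂μ := by
            apply setIntegral_mono_on _ _ measurableSet_ball
            · intro z hz
              have h7 := inner_le_of_norm (hS.nrm z) (z - a)
              have h8 : z ∈ closedBall a (x / 2) :=
                closedBall_subset_closedBall (by linarith [hx.1]) (ball_subset_closedBall hz)
              have h9 := p_quarter (sc_quarter hx0 h8)
              have h10 : 0 ≤ ‖z - a‖ ^ 2 - ⟪z - a, P z (z - a)⟫ := by linarith
              have h11 : 3 / x ^ 3 * (‖z - a‖ ^ 2 - ⟪z - a, P z (z - a)⟫) =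
                  4 / x ^ 3 * (3 / 4 * (‖z - a‖ ^ 2 - ⟪z - a, P z (z - a)⟫)) := by ring
              rw [h11]
              gcongr
            · exact ((show IntegrableOn _ (closedBall a R) μ from i4).mono_set hsub).const_mul _
            · exact (show IntegrableOn _ (closedBall a R) μ from i5).mono_set hsub
        _ ≤ _ := by
            apply setIntegral_mono_set (show IntegrableOn _ (closedBall a R) μ from i5)
            · filter_upwards with z
              have h7 := inner_le_of_norm (hS.nrm z) (z - a)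
              have h8 := p_nonneg (sc a x z)
              have h10 : 0 ≤ ‖z - a‖ ^ 2 - ⟪z - a, P z (z - a)⟫ := by linarith
              show 0 ≤ 4 / x ^ 3 * (p (sc a x z) * (‖z - a‖ ^ 2 - ⟪z - a, P z (z - a)⟫))
              positivity
            · exact hsub.eventuallyLE
    calc 3 / R ^ (m + 3) * A μ P a h ≤ 3 / x ^ (m + 3) * A μ P a h := by gcongr
      _ = (3 / x ^ 3 * A μ P a h) / x ^ m := by
        rw [pow_add]
        field_simp
      _ ≤ _ := by gcongr
  have hlt : 2 * h < R := by linarith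
  obtain ⟨c, hc, hc'⟩ := exists_hasDerivAt_eq_slope (fun x => I (fun s => p s ^ 2) ν a x / x ^ m)
    (fun x => (D x * x ^ m - I (fun s => p s ^ 2) ν a x * ((m:ℝ) * x ^ (m - 1))) / (x ^ m) ^ 2) hlt
    (fun x hx => (hder x (by linarith [hx.1])).continuousAt.continuousWithinAt)
    (fun x hx => hder x (by linarith [hx.1]))
  have h5 := hlow c hc
  rw [hc', le_div_iff₀ (by linarith)] at h5
  rw [I_eq_W (by linarith) le_rfl, I_eq_W (by linarith) hlt.le] at h5
  have h6 : 3 / R ^ (m + 3) * A μ P a h * (R - 2 * h) = 6 * h / R ^ (m + 3) * A μ P a h := by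
    rw [hRdef]
    ring
  rw [h6] at h5
  exact h5

lemma w_cont (hS : Stat m U μ P) {x₀ : E N} {ρ : ℝ} (hρ : 0 < ρ)
    (hU : closedBall x₀ (2 * ρ) ⊆ U) {ε : ℝ} (hε : 0 < ε) :
    ∃ δ : ℝ, 0 < δ ∧ δ ≤ ρ ∧ ∀ x ∈ ball x₀ δ, (W μ x ρ).toReal ≤ (W μ x₀ ρ).toReal + ε := by
  have hfin := fin_restrict hS (isCompact_closedBall x₀ (2 * ρ)) hU
  have hc : Continuous fun x => ∫ y in closedBall x₀ (2 * ρ), p (sc x ρ y) ^ 2 ∂μ := by
    apply continuous_of_dominated (bound := fun _ => 1)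
    · intro x
      exact ((wp x ρ).pow 2).aestronglyMeasurable
    · intro x
      filter_upwards with y
      have h1 := p_nonneg (sc x ρ y)
      rw [Real.norm_eq_abs, abs_of_nonneg (by positivity)]
      exact pow_le_one₀ h1 (p_le_one (sc_nonneg x ρ y))
    · exact integrable_const _
    · filter_upwards with y
      have hpc : Continuous p := p_cont
      unfold sc
      fun_prop
  obtain ⟨δ, hδ, h⟩ := Metric.continuous_iff.1 hc x₀ ε hε
  refine ⟨min δ ρ, lt_min hδ hρ, min_le_right _ _, ?_⟩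
  intro x hx
  have hx1 : dist x x₀ < δ := lt_of_lt_of_le hx (min_le_left _ _)
  have hx2 : dist x x₀ < ρ := lt_of_lt_of_le hx (min_le_right _ _)
  have h1 := h x hx1
  rw [w_eq measurableSet_closedBall hρ, w_eq measurableSet_closedBall hρ, Real.dist_eq,
    abs_lt] at h1
  · linarith [h1.2]
  · exact ball_subset_closedBall.trans (closedBall_subset_closedBall (by linarith))
  · apply (ball_subset_ball' _).trans ball_subset_closedBall
    linarith

/-- pinching -/
lemma pinch (hS : Stat m U μ P) (hU : IsOpen U) {x₀ : E N} (hx₀ : x₀ ∈ U) {δ : ℝ} (hδ : 0 < δ) :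
    ∃ r₀ : ℝ, 0 < r₀ ∧ closedBall x₀ (5 * r₀) ⊆ U ∧
      ∀ x ∈ ball x₀ r₀, density m μ x = density m μ x₀ → ∀ h, 0 < h → h ≤ r₀ →
        A μ P x h ≤ δ * h ^ (m + 2) := by
  set Q := density m μ x₀ with hQ
  have hQt : Q ≠ ⊤ := density_lt_top hS hU hx₀
  set ω := volume (ball (0 : EuclideanSpace ℝ (Fin m)) 1) with hω
  have hω0 : ω ≠ 0 := omega_pos m
  have hω1 : ω ≠ ⊤ := omega_lt m
  set c₀ : ℝ := 6 / 4 ^ (m + 3) with hc₀
  have hc₀0 : 0 < c₀ := by positivity
  set ε : ℝ := c₀ * δ / (2 * (ω.toReal * (κ m).toReal + 1)) with hε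
  have hε0 : 0 < ε := by positivity
  obtain ⟨R₀, hR₀, hRU⟩ := Metric.isOpen_iff.1 hU x₀ hx₀
  have h1 : Q < Q + ENNReal.ofReal ε :=
    ENNReal.lt_add_right hQt (ENNReal.ofReal_pos.2 hε0).ne'
  have h2 : ∀ᶠ r : ℝ in 𝓝[>] 0, μ (ball x₀ r) / (ω * ENNReal.ofReal r ^ m) < Q + ENNReal.ofReal ε :=
    eventually_lt_of_limsup_lt h1
  rw [eventually_nhdsWithin_iff, Metric.eventually_nhds_iff] at h2
  obtain ⟨ρ₁, hρ₁, h2⟩ := h2
  set ρ := min (ρ₁ / 2) (R₀ / 3) with hρdef
  have hρ : 0 < ρ := lt_min (by linarith) (by linarith)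
  have hρ2 : ρ ≤ ρ₁ / 2 := min_le_left _ _
  have hρ3 : ρ ≤ R₀ / 3 := min_le_right _ _
  have hρU : closedBall x₀ (2 * ρ) ⊆ U := (closedBall_subset_ball (by linarith)).trans hRU
  have h3 : ∀ s, 0 < s → s ≤ ρ → μ (ball x₀ s) ≤
      (Q + ENNReal.ofReal ε) * (ω * ENNReal.ofReal s ^ m) := by
    intro s hs hsρ
    have h4 := h2 (y := s) (by
      rw [Real.dist_eq, sub_zero, abs_of_pos hs]
      linarith) hs
    have hs' : ENNReal.ofReal s ≠ 0 := (ENNReal.ofReal_pos.2 hs).ne'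
    exact ((ENNReal.div_lt_iff (Or.inl (mul_ne_zero hω0 (pow_ne_zero _ hs')))
      (Or.inl (ENNReal.mul_ne_top hω1 (ENNReal.pow_ne_top ENNReal.ofReal_ne_top)))).1 h4).le
  have h4 := W_le hρ h3
  have h5 : (W μ x₀ ρ).toReal ≤ (Q.toReal + ε) * (ω.toReal * ρ ^ m) * (κ m).toReal := by
    have h6 := ENNReal.toReal_mono (ENNReal.mul_ne_top (ENNReal.mul_ne_top
      (ENNReal.add_ne_top.2 ⟨hQt, ENNReal.ofReal_ne_top⟩)
      (ENNReal.mul_ne_top hω1 (ENNReal.pow_ne_top ENNReal.ofReal_ne_top))) κ_ne) h4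
    rw [ENNReal.toReal_mul, ENNReal.toReal_mul, ENNReal.toReal_mul, ENNReal.toReal_pow,
      ENNReal.toReal_add hQt ENNReal.ofReal_ne_top, ENNReal.toReal_ofReal hε0.le,
      ENNReal.toReal_ofReal hρ.le] at h6
    exact h6
  have hρm : 0 < ρ ^ m := by positivity
  obtain ⟨δ₁, hδ₁, hδρ, h6⟩ := w_cont hS hρ hρU (ε := c₀ * δ / 2 * ρ ^ m) (by positivity)
  set r₀ := min δ₁ (ρ / 4) with hr₀
  have hr₀0 : 0 < r₀ := lt_min hδ₁ (by linarith)
  have hr₀1 : r₀ ≤ δ₁ := min_le_left _ _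
  have hr₀2 : r₀ ≤ ρ / 4 := min_le_right _ _
  refine ⟨r₀, hr₀0, (closedBall_subset_closedBall (by linarith)).trans hρU, ?_⟩
  intro x hx hxQ h hh hhr
  have hxρ : closedBall x ρ ⊆ U := by
    refine Subset.trans ?_ hρU
    apply closedBall_subset_closedBall'
    have : dist x x₀ < r₀ := hx
    linarith
  have h7 := h6 x (ball_subset_ball hr₀1 hx)
  have h4h : 4 * h ≤ ρ := by linarith
  have h8 := perp hS hh ((closedBall_subset_closedBall h4h).trans hxρ)
  have h9 : (W μ x (4 * h)).toReal / (4 * h) ^ m ≤ (W μ x ρ).toReal / ρ ^ m := by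
    have := mono_I hS wt2 hxρ (show 0 < 4 * h by linarith) h4h
    rwa [I_eq_W (by linarith) h4h, I_eq_W hρ le_rfl] at this
  have h10 : Q.toReal * ω.toReal * (κ m).toReal ≤ (W μ x (2 * h)).toReal / (2 * h) ^ m := by
    have h2U : closedBall x (2 * h) ⊆ U := (closedBall_subset_closedBall (by linarith)).trans hxρ
    have h11 := W_ge hS h2U (by linarith)
    rw [hxQ] at h11
    have h12 := ENNReal.toReal_mono (W_ne hS (by linarith) h2U) h11
    rw [ENNReal.toReal_mul, ENNReal.toReal_mul, ENNReal.toReal_mul, ENNReal.toReal_pow,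
      ENNReal.toReal_ofReal (by linarith : (0:ℝ) ≤ 2 * h)] at h12
    rw [le_div_iff₀ (by positivity)]
    calc Q.toReal * ω.toReal * (κ m).toReal * (2 * h) ^ m
        = Q.toReal * (ω.toReal * (2 * h) ^ m) * (κ m).toReal := by ring
      _ ≤ _ := h12
  have h11 : (W μ x ρ).toReal / ρ ^ m ≤ (Q.toReal + ε) * ω.toReal * (κ m).toReal + c₀ * δ / 2 := by
    rw [div_le_iff₀ hρm]
    calc (W μ x ρ).toReal ≤ (W μ x₀ ρ).toReal + c₀ * δ / 2 * ρ ^ m := h7
      _ ≤ (Q.toReal + ε) * (ω.toReal * ρ ^ m) * (κ m).toReal + c₀ * δ / 2 * ρ ^ m := by linarith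
      _ = _ := by ring
  have h12 : ε * ω.toReal * (κ m).toReal ≤ c₀ * δ / 2 := by
    have h13 : 0 ≤ ω.toReal * (κ m).toReal := by positivity
    have h14 : ε * (2 * (ω.toReal * (κ m).toReal + 1)) = c₀ * δ := by
      rw [hε]
      field_simp
    nlinarith
  have h13 : 6 * h / (4 * h) ^ (m + 3) * A μ P x h ≤ c₀ * δ := by
    have h14 : (Q.toReal + ε) * ω.toReal * (κ m).toReal =
        Q.toReal * ω.toReal * (κ m).toReal + ε * ω.toReal * (κ m).toReal := by ring
    linarith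
  have h14 : 6 * h / (4 * h) ^ (m + 3) = c₀ / h ^ (m + 2) := by
    rw [hc₀, mul_pow, show m + 3 = (m + 2) + 1 from rfl, pow_succ h]
    field_simp
  rw [h14, div_mul_eq_mul_div, div_le_iff₀ (by positivity), mul_assoc] at h13
  exact le_of_mul_le_mul_left h13 hc₀0

end Pool.Agent.Q261.QS
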