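import Mathlib
import Pool.Agent.Q261.QS.Pinch

/-!
Points with a partner in the normal direction: the set off the plane has density zero.
-/

namespace Pool.Agent.Q261.QS

open MeasureTheory Set Filter Topology Metric
open Pool.Agent.TH337.VF
open Pool.Agent.Q261.QV (p sc rf rv wt2 wt3 hasFDerivAt_rf rf_contDiff rf_zero p_nonneg p_le_one p_zero p_pos
  p_quarter p_cont sc_cont sc_nonneg sc_ge sc_ge' sc_lt sc_quarter wp sc_contDiff)
open scoped RealInnerProductSpace ENNReal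

variable {N m : ℕ} {U : Set (E N)} {μ : Measure (E N)} {P : E N → E N →L[ℝ] E N}

lemma trc_comm (A B : E N →L[ℝ] E N) : trc (A ∘L B) = trc (B ∘L A) :=
  LinearMap.trace_comp_comm' (B : E N →ₗ[ℝ] E N) (A : E N →ₗ[ℝ] E N)

/-- the trace of the product of two projections is nonnegative -/
lemma trc_proj_nonneg {P M : E N →L[ℝ] E N} (Ps : ∀ v w, ⟪P v, w⟫ = ⟪v, P w⟫)
    (Pi : ∀ v, P (P v) = P v) (Ms : ∀ v w, ⟪M v, w⟫ = ⟪v, M w⟫) (Mi : ∀ v, M (M v) = M v) :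
    0 ≤ trc (P ∘L M) := by
  have h1 : P ∘L M = (P ∘L M) ∘L M := by
    ext1 v
    simp [Mi]
  rw [h1, trc_comm, trc_eq]
  apply Finset.sum_nonneg
  intro i _
  set e := EuclideanSpace.basisFun (Fin N) ℝ i
  have h2 : ⟪e, (M ∘L (P ∘L M)) e⟫ = ‖P (M e)‖ ^ 2 := by
    calc ⟪e, (M ∘L (P ∘L M)) e⟫ = ⟪M e, P (M e)⟫ := (Ms e (P (M e))).symm
      _ = ⟪M e, P (P (M e))⟫ := by rw [Pi]
      _ = ⟪P (M e), P (M e)⟫ := (Ps _ _).symm
      _ = ‖P (M e)‖ ^ 2 := real_inner_self_eq_norm_sq _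
  rw [h2]
  positivity

lemma inner_le_trc {P L : E N →L[ℝ] E N} (Ps : ∀ v w, ⟪P v, w⟫ = ⟪v, P w⟫)
    (Pi : ∀ v, P (P v) = P v) (Ls : ∀ v w, ⟪L v, w⟫ = ⟪v, L w⟫) (Li : ∀ v, L (L v) = L v)
    {w : E N} (hw : L w = w) : ⟪w, P w⟫ ≤ ‖w‖ ^ 2 * trc (P ∘L L) := by
  by_cases h0 : w = 0
  · simp [h0]
  have hn : 0 < ‖w‖ := norm_pos_iff.2 h0
  set c : ℝ := (‖w‖ ^ 2)⁻¹ with hcdef
  have hc : c * ‖w‖ ^ 2 = 1 := inv_mul_cancel₀ (by positivity)
  set M : E N →L[ℝ] E N := L + (-c) • (innerSL ℝ w).smulRight w with hMdef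
  have hM : ∀ v, M v = L v - (c * ⟪w, v⟫) • w := by
    intro v
    simp only [hMdef, add_apply, smul_apply, ContinuousLinearMap.smulRight_apply,
      innerSL_apply_apply]
    rw [neg_smul, smul_smul, sub_eq_add_neg]
  have Ms : ∀ v u, ⟪M v, u⟫ = ⟪v, M u⟫ := by
    intro v u
    rw [hM, hM, inner_sub_left, inner_sub_right, inner_smul_left, inner_smul_right, Ls,
      real_inner_comm w v]
    simp only [conj_trivial]
    ring
  have Mi : ∀ v, M (M v) = M v := by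
    intro v
    have h1 : ⟪w, L v⟫ = ⟪w, v⟫ := by rw [← Ls, hw]
    rw [hM (M v), hM v, map_sub, map_smul, Li, hw, inner_sub_right, inner_smul_right, h1,
      real_inner_self_eq_norm_sq]
    have h2 : c * (⟪w, v⟫ - c * ⟪w, v⟫ * ‖w‖ ^ 2) = 0 := by
      have : c * (⟪w, v⟫ - c * ⟪w, v⟫ * ‖w‖ ^ 2) = c * ⟪w, v⟫ * (1 - c * ‖w‖ ^ 2) := by ring
      rw [this, hc]
      ring
    rw [h2, zero_smul, sub_zero]
  have h1 := trc_proj_nonneg Ps Pi Ms Mi
  have h2 : trc (P ∘L M) = trc (P ∘L L) - c * ⟪w, P w⟫ := by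
    rw [hMdef, ContinuousLinearMap.comp_add, trc_add, ContinuousLinearMap.comp_smul, trc_smul,
      trc_rank]
    simp only [innerSL_apply_apply]
    ring
  rw [h2] at h1
  have h3 : 0 ≤ ‖w‖ ^ 2 * (trc (P ∘L L) - c * ⟪w, P w⟫) := by positivity
  have h4 : ‖w‖ ^ 2 * (trc (P ∘L L) - c * ⟪w, P w⟫) =
      ‖w‖ ^ 2 * trc (P ∘L L) - (c * ‖w‖ ^ 2) * ⟪w, P w⟫ := by ring
  rw [h4, hc] at h3
  linarith

lemma q_eq {P : E N →L[ℝ] E N} (Ps : ∀ v w, ⟪P v, w⟫ = ⟪v, P w⟫)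
    (Pi : ∀ v, P (P v) = P v) (v : E N) : ‖v‖ ^ 2 - ⟪v, P v⟫ = ‖v - P v‖ ^ 2 := by
  have h1 : ‖P v‖ ^ 2 = ⟪v, P v⟫ := by
    rw [← real_inner_self_eq_norm_sq, Ps, Pi]
  rw [norm_sub_sq_real, h1]
  ring

lemma q_sub {P : E N →L[ℝ] E N} (Ps : ∀ v w, ⟪P v, w⟫ = ⟪v, P w⟫)
    (Pi : ∀ v, P (P v) = P v) (a b : E N) :
    ‖a - b‖ ^ 2 - ⟪a - b, P (a - b)⟫ ≤
      2 * (‖a‖ ^ 2 - ⟪a, P a⟫) + 2 * (‖b‖ ^ 2 - ⟪b, P b⟫) := by
  rw [q_eq Ps Pi, q_eq Ps Pi, q_eq Ps Pi, map_sub]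
  have h1 : a - b - (P a - P b) = (a - P a) - (b - P b) := by abel
  rw [h1, norm_sub_sq_real]
  have h2 := norm_add_sq_real (a - P a) (b - P b)
  have h3 := sq_nonneg ‖(a - P a) + (b - P b)‖
  linarith

lemma proj_norm_le {L : E N →L[ℝ] E N} (Ls : ∀ v w, ⟪L v, w⟫ = ⟪v, L w⟫)
    (Li : ∀ v, L (L v) = L v) (v : E N) : ‖L v‖ ≤ ‖v‖ := by
  have h1 : ‖L v‖ ^ 2 = ⟪v, L v⟫ := by
    rw [← real_inner_self_eq_norm_sq, Ls, Li]
  have h2 := real_inner_le_norm v (L v)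
  have h3 := norm_nonneg v
  have h4 := norm_nonneg (L v)
  by_contra hc
  push Not at hc
  nlinarith

/-- a vector which is almost tangent and not almost in the plane makes the tilt large -/
lemma steep {P L : E N →L[ℝ] E N} (Ps : ∀ v w, ⟪P v, w⟫ = ⟪v, P w⟫)
    (Pi : ∀ v, P (P v) = P v) (Ls : ∀ v w, ⟪L v, w⟫ = ⟪v, L w⟫) (Li : ∀ v, L (L v) = L v)
    (w : E N) : ‖L w‖ ^ 2 ≤ 2 * (‖w‖ ^ 2 * trc (P ∘L L)) + 2 * (‖w‖ ^ 2 - ⟪w, P w⟫) := by
  have h1 := inner_le_trc Ls Li Ps Pi (Pi w)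
  have h2 : ⟪P w, L (P w)⟫ = ‖L (P w)‖ ^ 2 := by
    rw [← real_inner_self_eq_norm_sq, Ls, Li]
  have h3 := proj_norm_le Ps Pi w
  have h4 := trc_proj_nonneg Ps Pi Ls Li
  rw [h2, trc_comm] at h1
  have h5 : ‖P w‖ ^ 2 * trc (P ∘L L) ≤ ‖w‖ ^ 2 * trc (P ∘L L) := by gcongr
  rw [q_eq Ps Pi]
  have h6 := proj_norm_le Ls Li (w - P w)
  have h7 : L w = L (P w) + L (w - P w) := by
    rw [← map_add]
    congr 1
    abel
  have h8 : ‖L w‖ ≤ ‖L (P w)‖ + ‖w - P w‖ := by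
    calc ‖L w‖ = ‖L (P w) + L (w - P w)‖ := by rw [← h7]
      _ ≤ ‖L (P w)‖ + ‖L (w - P w)‖ := norm_add_le _ _
      _ ≤ _ := by linarith
  have h9 : ‖L w‖ ^ 2 ≤ (‖L (P w)‖ + ‖w - P w‖) ^ 2 := by gcongr
  have h10 := sq_nonneg (‖L (P w)‖ - ‖w - P w‖)
  nlinarith

/-- the tilt is large near a point with a steep partner -/
lemma tilt (hV : Vf m U μ P) {L : E N →L[ℝ] E N} (Ls : ∀ v w, ⟪L v, w⟫ = ⟪v, L w⟫)
    (Li : ∀ v, L (L v) = L v) {x x' : E N} {h C c δ ω : ℝ} (hh : 0 < h) (hC : 0 < C)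
    (hc : 0 < c) (h1 : c * h ≤ ‖L (x - x')‖) (h2 : ‖x - x'‖ ≤ C * h)
    (hU : closedBall x' ((1 + C) * h) ⊆ U)
    (hA : A μ P x h ≤ δ * h ^ (m + 2))
    (hA' : A μ P x' ((1 + C) * h) ≤ δ * ((1 + C) * h) ^ (m + 2))
    (hω : ω * h ^ m ≤ μ.real (ball x h)) (hδ : 4 * δ * (1 + (1 + C) ^ (m + 2)) ≤ c ^ 2 * ω / 2) :
    c ^ 2 * ω / (4 * C ^ 2) * h ^ m ≤ ∫ z in ball x h, trc (P z ∘L L) ∂μ := by
  set w := x - x' with hw
  have hK := isCompact_closedBall x' ((1 + C) * h)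
  have hsub : ball x h ⊆ ball x' ((1 + C) * h) := by
    apply ball_subset_ball'
    rw [dist_eq_norm]
    linarith
  have hsub' : ball x h ⊆ closedBall x' ((1 + C) * h) := hsub.trans ball_subset_closedBall
  have i1 : IntegrableOn (fun z => trc (P z ∘L L)) (closedBall x' ((1 + C) * h)) μ := by
    refine int_cont hV.st hK hU (Φ := fun z => trc (z.2 ∘L L)) ?_
    exact continuous_trc.comp (continuous_snd.clm_comp continuous_const)
  have i2 : ∀ a : E N, IntegrableOn (fun z => ‖z - a‖ ^ 2 - ⟪z - a, P z (z - a)⟫)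
      (closedBall x' ((1 + C) * h)) μ := by
    intro a
    exact int_cont hV.st hK hU (Φ := fun z => (‖z.1 - a‖ ^ 2 - ⟪z.1 - a, z.2 (z.1 - a)⟫))
      (by fun_prop)
  have hmt : μ (ball x h) ≠ ⊤ := ((measure_mono hsub').trans_lt (hV.st.fin _ hU hK)).ne
  have hwC : ‖w‖ ^ 2 ≤ C ^ 2 * h ^ 2 := by
    rw [← mul_pow]
    gcongr
  have hLw : c ^ 2 * h ^ 2 ≤ ‖L w‖ ^ 2 := by
    rw [← mul_pow]
    gcongr
  have h3 : ∫ _z in ball x h, c ^ 2 * h ^ 2 ∂μ ≤ ∫ z in ball x h,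
      (2 * (C ^ 2 * h ^ 2) * trc (P z ∘L L) +
      4 * (‖z - x'‖ ^ 2 - ⟪z - x', P z (z - x')⟫) + 4 * (‖z - x‖ ^ 2 - ⟪z - x, P z (z - x)⟫)) ∂μ := by
    apply setIntegral_mono_on (integrableOn_const hmt) _ measurableSet_ball
    · intro z _
      have h4 := steep (hV.sym z) (hV.idem z) Ls Li w
      have h5 := q_sub (hV.sym z) (hV.idem z) (z - x') (z - x)
      have h6 : z - x' - (z - x) = w := by
        rw [hw]
        abel
      rw [h6] at h5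
      have h7 := trc_proj_nonneg (hV.sym z) (hV.idem z) Ls Li
      have h8 : ‖w‖ ^ 2 * trc (P z ∘L L) ≤ C ^ 2 * h ^ 2 * trc (P z ∘L L) := by gcongr
      linarith
    · exact (((i1.mono_set hsub').const_mul _).add (((i2 x').mono_set hsub').const_mul _)).add
        (((i2 x).mono_set hsub').const_mul _)
  have j1 := (i1.mono_set hsub').const_mul (2 * (C ^ 2 * h ^ 2))
  have j2 := ((i2 x').mono_set hsub').const_mul 4
  have j3 := ((i2 x).mono_set hsub').const_mul 4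
  have h4 : ∫ z in ball x h, (2 * (C ^ 2 * h ^ 2) * trc (P z ∘L L) +
      4 * (‖z - x'‖ ^ 2 - ⟪z - x', P z (z - x')⟫) + 4 * (‖z - x‖ ^ 2 - ⟪z - x, P z (z - x)⟫)) ∂μ =
      2 * (C ^ 2 * h ^ 2) * (∫ z in ball x h, trc (P z ∘L L) ∂μ) +
      4 * (∫ z in ball x h, (‖z - x'‖ ^ 2 - ⟪z - x', P z (z - x')⟫) ∂μ) + 4 * A μ P x h := by
    have j12 : Integrable (fun z => 2 * (C ^ 2 * h ^ 2) * trc (P z ∘L L) +
        4 * (‖z - x'‖ ^ 2 - ⟪z - x', P z (z - x')⟫)) (μ.restrict (ball x h)) := j1.add j2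
    rw [integral_add j12 j3, integral_add j1 j2, integral_const_mul, integral_const_mul,
      integral_const_mul]
    rfl
  have h5 : ∫ z in ball x h, (‖z - x'‖ ^ 2 - ⟪z - x', P z (z - x')⟫) ∂μ ≤
      A μ P x' ((1 + C) * h) := by
    unfold A
    apply setIntegral_mono_set ((i2 x').mono_set ball_subset_closedBall)
    · filter_upwards with z
      have h7 := inner_le_of_norm (hV.st.nrm z) (z - x')
      show 0 ≤ ‖z - x'‖ ^ 2 - ⟪z - x', P z (z - x')⟫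
      linarith
    · exact hsub.eventuallyLE
  rw [h4, setIntegral_const, smul_eq_mul] at h3
  set T := ∫ z in ball x h, trc (P z ∘L L) ∂μ with hT
  have h6 : c ^ 2 * h ^ 2 * (ω * h ^ m) ≤ 2 * (C ^ 2 * h ^ 2) * T +
      4 * (δ * ((1 + C) * h) ^ (m + 2)) + 4 * (δ * h ^ (m + 2)) := by
    have h7 : c ^ 2 * h ^ 2 * (ω * h ^ m) ≤ μ.real (ball x h) * (c ^ 2 * h ^ 2) := by
      rw [mul_comm]
      exact mul_le_mul_of_nonneg_right hω (by positivity)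
    linarith
  have h7 : 4 * (δ * ((1 + C) * h) ^ (m + 2)) + 4 * (δ * h ^ (m + 2)) =
      (4 * δ * (1 + (1 + C) ^ (m + 2))) * h ^ (m + 2) := by
    rw [mul_pow]
    ring
  have h8 : (4 * δ * (1 + (1 + C) ^ (m + 2))) * h ^ (m + 2) ≤
      c ^ 2 * ω / 2 * h ^ (m + 2) := mul_le_mul_of_nonneg_right hδ (by positivity)
  have h9 : c ^ 2 * ω / 2 * h ^ m * h ^ 2 ≤ 2 * C ^ 2 * T * h ^ 2 := by
    have h10 : c ^ 2 * h ^ 2 * (ω * h ^ m) = c ^ 2 * ω * h ^ (m + 2) := by ring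
    have h11 : c ^ 2 * ω / 2 * h ^ m * h ^ 2 = c ^ 2 * ω / 2 * h ^ (m + 2) := by ring
    have h12 : 2 * C ^ 2 * T * h ^ 2 = 2 * (C ^ 2 * h ^ 2) * T := by ring
    rw [h11, h12]
    linarith
  have h10 : c ^ 2 * ω / 2 * h ^ m ≤ 2 * C ^ 2 * T := le_of_mul_le_mul_right h9 (by positivity)
  have h11 : c ^ 2 * ω / (4 * C ^ 2) * h ^ m = (c ^ 2 * ω / 2 * h ^ m) / (2 * C ^ 2) := by
    field_simp
    ring
  rw [h11, div_le_iff₀ (by positivity)]
  linarith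

/-- Vitali covering -/
lemma vit {F : E N → ℝ} {x₀ : E N} {r c₁ C₁ : ℝ} (hc₁ : 0 < c₁) (hC₁ : 0 ≤ C₁)
    {S : Set (E N)} {h : E N → ℝ} (hS : S ⊆ ball x₀ r) (h0 : ∀ x ∈ S, 0 < h x)
    (h1 : ∀ x ∈ S, h x ≤ r) (hF : IntegrableOn F (closedBall x₀ (2 * r)) μ) (F0 : ∀ x, 0 ≤ F x)
    (hlow : ∀ x ∈ S, c₁ * h x ^ m ≤ ∫ z in ball x (h x), F z ∂μ)
    (hup : ∀ x ∈ S, μ (closedBall x (5 * h x)) ≤ ENNReal.ofReal (C₁ * h x ^ m)) :
    μ S ≤ ENNReal.ofReal (C₁ / c₁ * ∫ z in closedBall x₀ (2 * r), F z ∂μ) := by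
  obtain ⟨u, huS, hu1, hu2⟩ := Vitali.exists_disjoint_subfamily_covering_enlargement_closedBall S
    (fun x => x) h r h1 5 (by norm_num)
  have hu3 : u.PairwiseDisjoint fun a => ball a (h a) := hu1.mono fun a => ball_subset_closedBall
  have hcount : u.Countable := hu3.countable_of_isOpen (fun _ _ => isOpen_ball)
    (fun a ha => nonempty_ball.2 (h0 a (huS ha)))
  have hcov : S ⊆ ⋃ b ∈ u, closedBall b (5 * h b) := by
    intro a ha
    obtain ⟨b, hb, hab⟩ := hu2 a ha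
    exact mem_biUnion hb (hab (mem_closedBall_self (h0 a ha).le))
  have hsub : ∀ b ∈ u, ball b (h b) ⊆ closedBall x₀ (2 * r) := by
    intro b hb
    apply (ball_subset_ball' _).trans ball_subset_closedBall
    have h2 := h1 b (huS hb)
    have h3 : dist b x₀ < r := hS (huS hb)
    linarith
  have hkey : ∀ b ∈ u, μ (closedBall b (5 * h b)) ≤
      ENNReal.ofReal (C₁ / c₁) * ∫⁻ z in ball b (h b), ENNReal.ofReal (F z) ∂μ := by
    intro b hb
    refine (hup b (huS hb)).trans ?_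
    rw [← ofReal_integral_eq_lintegral_ofReal (hF.mono_set (hsub b hb))
      (Eventually.of_forall F0), ← ENNReal.ofReal_mul (by positivity)]
    apply ENNReal.ofReal_le_ofReal
    have h2 := hlow b (huS hb)
    calc C₁ * h b ^ m = C₁ / c₁ * (c₁ * h b ^ m) := by field_simp
      _ ≤ _ := mul_le_mul_of_nonneg_left h2 (by positivity)
  calc μ S ≤ μ (⋃ b ∈ u, closedBall b (5 * h b)) := measure_mono hcov
    _ ≤ ∑' b : u, μ (closedBall (b : E N) (5 * h b)) := measure_biUnion_le μ hcount _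
    _ ≤ ∑' b : u, ENNReal.ofReal (C₁ / c₁) * ∫⁻ z in ball (b : E N) (h b),
        ENNReal.ofReal (F z) ∂μ := ENNReal.tsum_le_tsum fun b => hkey b b.2
    _ = ENNReal.ofReal (C₁ / c₁) * ∫⁻ z in ⋃ b ∈ u, ball b (h b), ENNReal.ofReal (F z) ∂μ := by
        rw [ENNReal.tsum_mul_left, lintegral_biUnion hcount (fun _ _ => measurableSet_ball) hu3]
    _ ≤ ENNReal.ofReal (C₁ / c₁) * ∫⁻ z in closedBall x₀ (2 * r), ENNReal.ofReal (F z) ∂μ := by
        apply mul_le_mul_right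
        exact lintegral_mono_set (iUnion₂_subset hsub)
    _ = _ := by
        rw [← ofReal_integral_eq_lintegral_ofReal hF (Eventually.of_forall F0),
          ← ENNReal.ofReal_mul (by positivity)]

/-- Caccioppoli inequality -/
lemma cacc (hV : Vf m U μ P) {L : E N →L[ℝ] E N} (Ls : ∀ v w, ⟪L v, w⟫ = ⟪v, L w⟫)
    (Li : ∀ v, L (L v) = L v) {x₀ : E N} {r : ℝ} (hr : 0 < r) (hU : closedBall x₀ r ⊆ U) :
    ∫ z in closedBall x₀ (r / 2), trc (P z ∘L L) ∂μ ≤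
      128 / 9 / r * ∫ z in closedBall x₀ r, ‖L (z - x₀)‖ ∂μ := by
  have hK := isCompact_closedBall x₀ r
  have hpc : Continuous p := p_cont
  have hs := sc_cont x₀ r
  have hG : ContDiff ℝ 1 fun z => L (z - x₀) := L.contDiff.comp (contDiff_id.sub contDiff_const)
  have hfd : ∀ z, fderiv ℝ (fun z => L (z - x₀)) z = L := by
    intro z
    exact (L.hasFDerivAt.comp z ((hasFDerivAt_id z).sub_const x₀)).fderiv
  have e2 := test2 hV hr le_rfl hU hG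
  simp only [hfd] at e2
  have hct : Continuous fun z : E N × (E N →L[ℝ] E N) => trc (z.2 ∘L L) :=
    continuous_trc.comp (continuous_snd.clm_comp continuous_const)
  have i0 : IntegrableOn (fun z => trc (P z ∘L L)) (closedBall x₀ r) μ :=
    int_cont hV.st hK hU (Φ := fun z => trc (z.2 ∘L L)) hct
  have i1 : IntegrableOn (fun z => p (sc x₀ r z) ^ 3 * trc (P z ∘L L)) (closedBall x₀ r) μ :=
    int_cont hV.st hK hU (Φ := fun z => p (sc x₀ r z.1) ^ 3 * trc (z.2 ∘L L)) (by fun_prop)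
  have i2 : IntegrableOn (fun z => 6 / r ^ 2 * (p (sc x₀ r z) ^ 2 *
      ⟪L (z - x₀), P z (z - x₀)⟫)) (closedBall x₀ r) μ :=
    int_cont hV.st hK hU (Φ := fun z => 6 / r ^ 2 * (p (sc x₀ r z.1) ^ 2 *
      ⟪L (z.1 - x₀), z.2 (z.1 - x₀)⟫)) (by fun_prop)
  have i3 : IntegrableOn (fun z => ‖L (z - x₀)‖) (closedBall x₀ r) μ :=
    int_cont' hV.st hK hU (by fun_prop)
  rw [integral_sub i1 i2] at e2
  have h1 : ∫ z in closedBall x₀ r, 6 / r ^ 2 * (p (sc x₀ r z) ^ 2 *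
      ⟪L (z - x₀), P z (z - x₀)⟫) ∂μ ≤ 6 / r * ∫ z in closedBall x₀ r, ‖L (z - x₀)‖ ∂μ := by
    rw [← integral_const_mul]
    apply setIntegral_mono_on i2 (i3.const_mul _) measurableSet_closedBall
    intro z hz
    have h2 : ‖z - x₀‖ ≤ r := by rwa [mem_closedBall, dist_eq_norm] at hz
    have h3 := p_le_one (sc_nonneg x₀ r z)
    have h4 := p_nonneg (sc x₀ r z)
    have h5 : p (sc x₀ r z) ^ 2 ≤ 1 := pow_le_one₀ h4 h3
    have h6 : ⟪L (z - x₀), P z (z - x₀)⟫ ≤ ‖L (z - x₀)‖ * r := by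
      refine (real_inner_le_norm _ _).trans ?_
      apply mul_le_mul_of_nonneg_left _ (norm_nonneg _)
      have h7 := (P z).le_opNorm (z - x₀)
      have h8 := hV.st.nrm z
      have h9 := norm_nonneg (z - x₀)
      nlinarith
    have h7 : p (sc x₀ r z) ^ 2 * ⟪L (z - x₀), P z (z - x₀)⟫ ≤ ‖L (z - x₀)‖ * r := by
      have h8 : p (sc x₀ r z) ^ 2 * ⟪L (z - x₀), P z (z - x₀)⟫ ≤
          p (sc x₀ r z) ^ 2 * (‖L (z - x₀)‖ * r) :=
        mul_le_mul_of_nonneg_left h6 (by positivity)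
      have h9 : p (sc x₀ r z) ^ 2 * (‖L (z - x₀)‖ * r) ≤ 1 * (‖L (z - x₀)‖ * r) :=
        mul_le_mul_of_nonneg_right h5 (by positivity)
      linarith
    calc 6 / r ^ 2 * (p (sc x₀ r z) ^ 2 * ⟪L (z - x₀), P z (z - x₀)⟫)
        ≤ 6 / r ^ 2 * (‖L (z - x₀)‖ * r) := mul_le_mul_of_nonneg_left h7 (by positivity)
      _ = 6 / r * ‖L (z - x₀)‖ := by
        field_simp
  have hsub : closedBall x₀ (r / 2) ⊆ closedBall x₀ r := closedBall_subset_closedBall (by linarith)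
  have h2 : ∫ z in closedBall x₀ (r / 2), 27 / 64 * trc (P z ∘L L) ∂μ ≤
      ∫ z in closedBall x₀ r, p (sc x₀ r z) ^ 3 * trc (P z ∘L L) ∂μ := by
    calc ∫ z in closedBall x₀ (r / 2), 27 / 64 * trc (P z ∘L L) ∂μ
        ≤ ∫ z in closedBall x₀ (r / 2), p (sc x₀ r z) ^ 3 * trc (P z ∘L L) ∂μ := by
          apply setIntegral_mono_on ((i0.mono_set hsub).const_mul _) (i1.mono_set hsub)
            measurableSet_closedBall
          intro z hz
          have h3 := p_quarter (sc_quarter hr hz)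
          have h4 := trc_proj_nonneg (hV.sym z) (hV.idem z) Ls Li
          have h5 : (27 / 64 : ℝ) ≤ p (sc x₀ r z) ^ 3 := by
            calc (27 / 64 : ℝ) = (3 / 4) ^ 3 := by norm_num
              _ ≤ _ := by gcongr
          exact mul_le_mul_of_nonneg_right h5 h4
      _ ≤ _ := by
          apply setIntegral_mono_set i1
          · filter_upwards with z
            have h3 := p_nonneg (sc x₀ r z)
            have h4 := trc_proj_nonneg (hV.sym z) (hV.idem z) Ls Li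
            show 0 ≤ p (sc x₀ r z) ^ 3 * trc (P z ∘L L)
            positivity
          · exact hsub.eventuallyLE
  rw [integral_const_mul] at h2
  have h3 : 27 / 64 * ∫ z in closedBall x₀ (r / 2), trc (P z ∘L L) ∂μ ≤
      6 / r * ∫ z in closedBall x₀ r, ‖L (z - x₀)‖ ∂μ := by linarith
  have h4 : 128 / 9 / r * ∫ z in closedBall x₀ r, ‖L (z - x₀)‖ ∂μ =
      64 / 27 * (6 / r * ∫ z in closedBall x₀ r, ‖L (z - x₀)‖ ∂μ) := by
    field_simp
    ring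
  rw [h4]
  linarith

/-- upper mass bound -/
lemma upper (hS : Stat m U μ P) {x₀ : E N} {R : ℝ} (hR : 0 < R) (hU : closedBall x₀ (2 * R) ⊆ U) :
    ∃ C₁ : ℝ, 0 ≤ C₁ ∧ ∀ x ∈ ball x₀ R, ∀ h, 0 < h → 10 * h ≤ R →
      μ (closedBall x (5 * h)) ≤ ENNReal.ofReal (C₁ * h ^ m) := by
  set M := (μ (closedBall x₀ (2 * R))).toReal with hM
  have hMt : μ (closedBall x₀ (2 * R)) ≠ ⊤ := (hS.fin _ hU (isCompact_closedBall _ _)).ne
  refine ⟨(10 / R) ^ m * M, by positivity, ?_⟩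
  intro x hx h hh hhR
  have hxd : dist x x₀ < R := hx
  have h1 : closedBall x R ⊆ closedBall x₀ (2 * R) := by
    apply closedBall_subset_closedBall'
    linarith
  have h2 := mono' hS (h1.trans hU) (show 0 < 10 * h by linarith) hhR
  calc μ (closedBall x (5 * h)) ≤ μ (ball x (10 * h)) :=
        measure_mono (closedBall_subset_ball (by linarith))
    _ ≤ ENNReal.ofReal ((10 * h / R) ^ m) * μ (ball x R) := h2
    _ ≤ ENNReal.ofReal ((10 * h / R) ^ m) * μ (closedBall x₀ (2 * R)) :=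
        mul_le_mul_right (measure_mono (ball_subset_closedBall.trans h1)) _
    _ = ENNReal.ofReal ((10 / R) ^ m * M * h ^ m) := by
        rw [← ENNReal.ofReal_toReal hMt, ← ENNReal.ofReal_mul (by positivity)]
        congr 1
        rw [div_pow, mul_pow, div_pow]
        ring

end Pool.Agent.Q261.QS
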