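import Mathlib
import Pool.Agent.Q261.QS.Flat

/-!
Infinite order of contact at points with steep partners.
-/

namespace Pool.Agent.Q261.QS

open MeasureTheory Set Filter Topology Metric
open Pool.Agent.TH337.VF
open scoped RealInnerProductSpace ENNReal

variable {N m : ℕ} {U : Set (E N)} {μ : Measure (E N)} {P : E N → E N →L[ℝ] E N}

lemma ev {p : ℝ → Prop} (h : ∀ᶠ r in 𝓝[>] (0:ℝ), p r) :
    ∃ δ : ℝ, 0 < δ ∧ ∀ r, 0 < r → r < δ → p r := by
  rw [eventually_nhdsWithin_iff, Metric.eventually_nhds_iff] at h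
  obtain ⟨δ, hδ, h⟩ := h
  refine ⟨δ, hδ, fun r hr hrδ => h ?_ hr⟩
  rw [Real.dist_eq, sub_zero, abs_of_pos hr]
  exact hrδ

lemma lowmass (hS : Stat m U μ P) {a : E N} (ha : 1 ≤ density m μ a) {r : ℝ} (hr : 0 < r)
    (hU : closedBall a r ⊆ U) :
    (volume (ball (0 : EuclideanSpace ℝ (Fin m)) 1)).toReal * r ^ m ≤ μ.real (ball a r) := by
  have h1 := density_le hS hU hr
  have h2 : volume (ball (0 : EuclideanSpace ℝ (Fin m)) 1) * ENNReal.ofReal r ^ m ≤
      μ (ball a r) := by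
    refine le_trans ?_ h1
    calc volume (ball (0 : EuclideanSpace ℝ (Fin m)) 1) * ENNReal.ofReal r ^ m
        = 1 * (volume (ball (0 : EuclideanSpace ℝ (Fin m)) 1) * ENNReal.ofReal r ^ m) := by
          rw [one_mul]
      _ ≤ _ := mul_le_mul_left ha _
  have hmt : μ (ball a r) ≠ ⊤ :=
    ((measure_mono ball_subset_closedBall).trans_lt (hS.fin _ hU (isCompact_closedBall a r))).ne
  have h3 := ENNReal.toReal_mono hmt h2
  rwa [ENNReal.toReal_mul, ENNReal.toReal_pow, ENNReal.toReal_ofReal hr.le] at h3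

lemma omega_real_pos (m : ℕ) : 0 < (volume (ball (0 : EuclideanSpace ℝ (Fin m)) 1)).toReal :=
  ENNReal.toReal_pos (omega_pos m) (omega_lt m)

theorem offplane (hV : Vf m U μ P) (hU : IsOpen U)
    (h1 : ∀ᵐ x ∂(μ.restrict U), 1 ≤ density m μ x) {x₀ : E N} (hx₀ : x₀ ∈ U)
    {L : E N →L[ℝ] E N} (Ls : ∀ v w, ⟪L v, w⟫ = ⟪v, L w⟫) (Li : ∀ v, L (L v) = L v)
    (hflat : ∀ ε : ℝ, 0 < ε → ∀ᶠ r in 𝓝[>] (0:ℝ),
      ∫ z in closedBall x₀ r, ‖L (z - x₀)‖ ∂μ ≤ ε * r ^ (m + 1))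
    (hdens : ∀ ε : ℝ, 0 < ε → ∀ᶠ r in 𝓝[>] (0:ℝ),
      μ (ball x₀ r ∩ {x | density m μ x ≠ density m μ x₀}) ≤ ENNReal.ofReal (ε * r ^ m))
    {c C R : ℝ} (hc : 0 < c) (hC : 0 < C) (hR : 0 < R)
    (hpart : ∀ᵐ x ∂(μ.restrict (ball x₀ R)), density m μ x = density m μ x₀ → L (x - x₀) ≠ 0 →
      ∃ x', density m μ x' = density m μ x₀ ∧ ‖x - x'‖ ≤ C * ‖L (x - x₀)‖ ∧
        c * ‖L (x - x₀)‖ ≤ ‖L (x - x')‖) :
    ∀ ε : ℝ, 0 < ε → ∀ᶠ r in 𝓝[>] (0:ℝ),
      μ (ball x₀ r ∩ {x | L (x - x₀) ≠ 0}) ≤ ENNReal.ofReal (ε * r ^ m) := by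
  intro ε hε
  set ω := (volume (ball (0 : EuclideanSpace ℝ (Fin m)) 1)).toReal with hω
  have hω0 : 0 < ω := omega_real_pos m
  set D : ℝ := 1 + (1 + C) ^ (m + 2) with hD
  have hD0 : 0 < D := by positivity
  set δ : ℝ := c ^ 2 * ω / (8 * D) with hδ
  have hδ0 : 0 < δ := by positivity
  have hδD : 4 * δ * D ≤ c ^ 2 * ω / 2 := by
    rw [hδ]
    apply le_of_eq
    field_simp
    ring
  obtain ⟨r₀, hr₀, hr₀U, hpinch⟩ := pinch hV.st hU hx₀ hδ0
  have h5U : closedBall x₀ (2 * (5 * r₀ / 2)) ⊆ U := by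
    rw [show 2 * (5 * r₀ / 2) = 5 * r₀ by ring]
    exact hr₀U
  obtain ⟨C₁, hC₁, hupper⟩ := upper hV.st (show 0 < 5 * r₀ / 2 by positivity) h5U
  set c₁ : ℝ := c ^ 2 * ω / (4 * C ^ 2) with hc₁
  have hc₁0 : 0 < c₁ := by positivity
  set K : ℝ := C₁ / c₁ * (128 / 9) * 4 ^ m with hK
  have hK0 : 0 ≤ K := by positivity
  set ε' : ℝ := ε / (2 * (K + 1)) with hε'
  have hε'0 : 0 < ε' := by positivity
  have hKε : K * ε' ≤ ε / 2 := by
    have h2 : ε' * (2 * (K + 1)) = ε := by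
      rw [hε']
      field_simp
    nlinarith
  obtain ⟨δ₁, hδ₁, hf⟩ := ev (hflat ε' hε'0)
  obtain ⟨δ₂, hδ₂, hd⟩ := ev (hdens (ε / 2) (by positivity))
  set r₁ : ℝ := min (min R (r₀ / (1 + C))) (min (r₀ / 4) (min (δ₁ / 4) δ₂)) with hr₁
  have hr₁0 : 0 < r₁ := by
    refine lt_min (lt_min hR (by positivity)) (lt_min (by positivity)
      (lt_min (by positivity) hδ₂))
  filter_upwards [Ioo_mem_nhdsGT hr₁0] with r hr
  have hr0 : 0 < r := hr.1
  have hrR : r < R := hr.2.trans_le ((min_le_left _ _).trans (min_le_left _ _))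
  have hrC : (1 + C) * r ≤ r₀ := by
    have h2 : r ≤ r₀ / (1 + C) := (hr.2.trans_le ((min_le_left _ _).trans (min_le_right _ _))).le
    rw [le_div_iff₀ (by positivity)] at h2
    linarith
  have hr4 : r ≤ r₀ / 4 := (hr.2.trans_le ((min_le_right _ _).trans (min_le_left _ _))).le
  have hrδ₁ : r < δ₁ / 4 := hr.2.trans_le ((min_le_right _ _).trans
    ((min_le_right _ _).trans (min_le_left _ _)))
  have hrδ₂ : r < δ₂ := hr.2.trans_le ((min_le_right _ _).trans
    ((min_le_right _ _).trans (min_le_right _ _)))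
  have h2 := hd r hr0 hrδ₂
  have h3 := hf (4 * r) (by positivity) (by linarith)
  have hrU : closedBall x₀ (4 * r) ⊆ U := (closedBall_subset_closedBall (by linarith)).trans hr₀U
  set S : Set (E N) := {x | x ∈ ball x₀ r ∧ density m μ x = density m μ x₀ ∧ 1 ≤ density m μ x ∧
    L (x - x₀) ≠ 0 ∧ ∃ x', density m μ x' = density m μ x₀ ∧ ‖x - x'‖ ≤ C * ‖L (x - x₀)‖ ∧
        c * ‖L (x - x₀)‖ ≤ ‖L (x - x')‖} with hS
  set F : E N → ℝ := fun z => trc (P z ∘L L) with hF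
  have F0 : ∀ z, 0 ≤ F z := fun z => trc_proj_nonneg (hV.sym z) (hV.idem z) Ls Li
  have iF : ∀ s, closedBall x₀ s ⊆ U → IntegrableOn F (closedBall x₀ s) μ := by
    intro s hs
    refine int_cont hV.st (isCompact_closedBall x₀ s) hs (Φ := fun z => trc (z.2 ∘L L)) ?_
    exact continuous_trc.comp (continuous_snd.clm_comp continuous_const)
  have hSμ : μ S ≤ ENNReal.ofReal (C₁ / c₁ * ∫ z in closedBall x₀ (2 * r), F z ∂μ) := by
    apply vit (m := m) (h := fun x => ‖L (x - x₀)‖) hc₁0 hC₁ (fun x hx => hx.1)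
    · intro x hx
      exact norm_pos_iff.2 hx.2.2.2.1
    · intro x hx
      have h4 := proj_norm_le Ls Li (x - x₀)
      have h5 : ‖x - x₀‖ < r := by
        have := hx.1
        rwa [mem_ball, dist_eq_norm] at this
      linarith
    · exact iF _ ((closedBall_subset_closedBall (by linarith)).trans hrU)
    · exact F0
    · intro x hx
      obtain ⟨hx1, hx2, hx3, hx4, x', hx'1, hx'2, hx'3⟩ := hx
      set h := ‖L (x - x₀)‖ with hh
      have hh0 : 0 < h := norm_pos_iff.2 hx4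
      have hxn : ‖x - x₀‖ < r := by rwa [mem_ball, dist_eq_norm] at hx1
      have hhr : h < r := (proj_norm_le Ls Li (x - x₀)).trans_lt hxn
      have hx'n : dist x' x₀ < (1 + C) * r := by
        have h4 : dist x' x₀ ≤ dist x' x + dist x x₀ := dist_triangle _ _ _
        have h5 : dist x' x ≤ C * h := by
          rw [dist_comm, dist_eq_norm]
          exact hx'2
        have h6 : dist x x₀ < r := hx1
        have h7 : C * h ≤ C * r := mul_le_mul_of_nonneg_left hhr.le hC.le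
        linarith
      have hx'b : x' ∈ ball x₀ r₀ := lt_of_lt_of_le hx'n hrC
      have hxb : x ∈ ball x₀ r₀ := by
        have h6 : dist x x₀ < r := hx1
        rw [mem_ball]
        linarith
      have hCh : (1 + C) * h ≤ r₀ := by
        have h7 : (1 + C) * h ≤ (1 + C) * r := mul_le_mul_of_nonneg_left hhr.le (by positivity)
        linarith
      apply tilt hV Ls Li hh0 hC hc hx'3 hx'2 (δ := δ) (ω := ω)
      · refine Subset.trans ?_ hr₀U
        apply closedBall_subset_closedBall'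
        have : dist x' x₀ < r₀ := hx'b
        linarith
      · exact hpinch x hxb hx2 h hh0 (by linarith)
      · exact hpinch x' hx'b hx'1 _ (by positivity) hCh
      · apply lowmass hV.st hx3 hh0
        refine Subset.trans ?_ hr₀U
        apply closedBall_subset_closedBall'
        have : dist x x₀ < r₀ := hxb
        linarith
      · exact hδD
    · intro x hx
      have hh0 : 0 < ‖L (x - x₀)‖ := norm_pos_iff.2 hx.2.2.2.1
      have hxn : ‖x - x₀‖ < r := by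
        have := hx.1
        rwa [mem_ball, dist_eq_norm] at this
      have hhr : ‖L (x - x₀)‖ < r := (proj_norm_le Ls Li (x - x₀)).trans_lt hxn
      apply hupper x _ _ hh0 (by linarith)
      exact ball_subset_ball (by linarith) hx.1
  have hcacc : ∫ z in closedBall x₀ (2 * r), F z ∂μ ≤ 128 / 9 * ε' * (4 * r) ^ m := by
    have h4 := cacc hV Ls Li (show 0 < 4 * r by positivity) hrU
    rw [show 4 * r / 2 = 2 * r by ring] at h4
    refine h4.trans ?_
    calc 128 / 9 / (4 * r) * ∫ z in closedBall x₀ (4 * r), ‖L (z - x₀)‖ ∂μ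
        ≤ 128 / 9 / (4 * r) * (ε' * (4 * r) ^ (m + 1)) :=
          mul_le_mul_of_nonneg_left h3 (by positivity)
      _ = 128 / 9 * ε' * (4 * r) ^ m := by
        rw [pow_succ]
        field_simp
  have hSμ' : μ S ≤ ENNReal.ofReal (ε / 2 * r ^ m) := by
    refine hSμ.trans (ENNReal.ofReal_le_ofReal ?_)
    calc C₁ / c₁ * ∫ z in closedBall x₀ (2 * r), F z ∂μ
        ≤ C₁ / c₁ * (128 / 9 * ε' * (4 * r) ^ m) := mul_le_mul_of_nonneg_left hcacc (by positivity)
      _ = (K * ε') * r ^ m := by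
        rw [hK, mul_pow]
        ring
      _ ≤ _ := mul_le_mul_of_nonneg_right hKε (by positivity)
  have hballU : ball x₀ r ⊆ U :=
    (ball_subset_closedBall.trans (closedBall_subset_closedBall (by linarith))).trans hrU
  set Z : Set (E N) := ball x₀ r ∩ {x | ¬ (1 ≤ density m μ x)} with hZ
  have hZ0 : μ Z = 0 := by
    have h4 := ae_restrict_of_ae_restrict_of_subset hballU h1
    rw [ae_iff, Measure.restrict_apply' measurableSet_ball, inter_comm] at h4
    exact h4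
  set Z' : Set (E N) := ball x₀ r ∩ {x | ¬ (density m μ x = density m μ x₀ → L (x - x₀) ≠ 0 →
      ∃ x', density m μ x' = density m μ x₀ ∧ ‖x - x'‖ ≤ C * ‖L (x - x₀)‖ ∧
        c * ‖L (x - x₀)‖ ≤ ‖L (x - x')‖)} with hZ'
  have hZ'0 : μ Z' = 0 := by
    have h4 := ae_restrict_of_ae_restrict_of_subset (ball_subset_ball hrR.le) hpart
    rw [ae_iff, Measure.restrict_apply' measurableSet_ball, inter_comm] at h4
    exact h4
  have hsub : ball x₀ r ∩ {x | L (x - x₀) ≠ 0} ⊆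
      ((ball x₀ r ∩ {x | density m μ x ≠ density m μ x₀}) ∪ S) ∪ (Z ∪ Z') := by
    intro x hx
    by_cases a1 : density m μ x = density m μ x₀
    · by_cases a2 : 1 ≤ density m μ x
      · by_cases a3 : density m μ x = density m μ x₀ → L (x - x₀) ≠ 0 →
          ∃ x', density m μ x' = density m μ x₀ ∧ ‖x - x'‖ ≤ C * ‖L (x - x₀)‖ ∧
          c * ‖L (x - x₀)‖ ≤ ‖L (x - x')‖
        · exact Or.inl (Or.inr ⟨hx.1, a1, a2, hx.2, a3 a1 hx.2⟩)
        · exact Or.inr (Or.inr ⟨hx.1, a3⟩)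
      · exact Or.inr (Or.inl ⟨hx.1, a2⟩)
    · exact Or.inl (Or.inl ⟨hx.1, a1⟩)
  calc μ (ball x₀ r ∩ {x | L (x - x₀) ≠ 0}) ≤ _ := measure_mono hsub
    _ ≤ μ ((ball x₀ r ∩ {x | density m μ x ≠ density m μ x₀}) ∪ S) + μ (Z ∪ Z') :=
        measure_union_le _ _
    _ ≤ (μ (ball x₀ r ∩ {x | density m μ x ≠ density m μ x₀}) + μ S) + (μ Z + μ Z') := by
        gcongr <;> exact measure_union_le _ _
    _ ≤ (ENNReal.ofReal (ε / 2 * r ^ m) + ENNReal.ofReal (ε / 2 * r ^ m)) + (0 + 0) := by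
        rw [hZ0, hZ'0]
        gcongr
    _ = ENNReal.ofReal (ε * r ^ m) := by
        rw [add_zero, add_zero, ← ENNReal.ofReal_add (by positivity) (by positivity)]
        congr 1
        ring

/-- the square of the height and its gradient -/
lemma height_deriv {L : E N →L[ℝ] E N} (Ls : ∀ v w, ⟪L v, w⟫ = ⟪v, L w⟫)
    (Li : ∀ v, L (L v) = L v) (x₀ y : E N) :
    HasFDerivAt (fun z => ‖L (z - x₀)‖ ^ 2) (innerSL ℝ ((2:ℝ) • L (y - x₀))) y := by
  have h1 : HasFDerivAt (fun z => L (z - x₀)) (L ∘L ContinuousLinearMap.id ℝ (E N)) y :=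
    L.hasFDerivAt.comp y ((hasFDerivAt_id y).sub_const x₀)
  have h2 := h1.norm_sq
  refine h2.congr_fderiv ?_
  ext v
  simp only [ContinuousLinearMap.comp_id, smul_apply, ContinuousLinearMap.coe_comp,
    Function.comp_apply, innerSL_apply_apply, inner_smul_left, conj_trivial,
    nsmul_eq_mul, Nat.cast_ofNat]
  rw [← Ls, Li]

theorem contact (hV : Vf m U μ P) (hU : IsOpen U)
    (h1 : ∀ᵐ x ∂(μ.restrict U), 1 ≤ density m μ x) {x₀ : E N} (hx₀ : x₀ ∈ U)
    {L : E N →L[ℝ] E N} (Ls : ∀ v w, ⟪L v, w⟫ = ⟪v, L w⟫) (Li : ∀ v, L (L v) = L v)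
    (hoff : ∀ ε : ℝ, 0 < ε → ∀ᶠ r in 𝓝[>] (0:ℝ),
      μ (ball x₀ r ∩ {x | L (x - x₀) ≠ 0}) ≤ ENNReal.ofReal (ε * r ^ m)) (k : ℕ) :
    ∀ᶠ r in 𝓝[>] (0:ℝ), ∀ᵐ x ∂(μ.restrict (ball x₀ r)), ‖L (x - x₀)‖ ≤ r ^ k := by
  have hf : ContDiff ℝ 1 fun z : E N => ‖L (z - x₀)‖ ^ 2 :=
    (L.contDiff.comp (contDiff_id.sub contDiff_const)).norm_sq ℝ
  have hG0 : ContDiff ℝ 1 fun z : E N => L (z - x₀) :=
    L.contDiff.comp (contDiff_id.sub contDiff_const)
  have hG : ContDiff ℝ 1 fun z : E N => (2:ℝ) • L (z - x₀) := hG0.const_smul (2:ℝ)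
  have hGd : ∀ z, fderiv ℝ (fun z : E N => (2:ℝ) • L (z - x₀)) z = (2:ℝ) • L := by
    intro z
    have h2 : HasFDerivAt (fun z => L (z - x₀)) (L ∘L ContinuousLinearMap.id ℝ (E N)) z :=
      L.hasFDerivAt.comp z ((hasFDerivAt_id z).sub_const x₀)
    exact (h2.const_smul (2:ℝ)).fderiv
  have h2 := decay hV hU hf (fun x => by positivity) hG (fun y => height_deriv Ls Li x₀ y) (by
    filter_upwards with z
    rw [hGd, ContinuousLinearMap.comp_smul, trc_smul]
    have := trc_proj_nonneg (hV.sym z) (hV.idem z) Ls Li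
    positivity) (omega_real_pos m) (by
    filter_upwards [h1] with a ha r hr haU
    exact lowmass hV.st ha hr haU) hx₀ (by
    intro ε hε
    filter_upwards [hoff ε hε, self_mem_nhdsWithin] with r hr hr0
    have hr0' : 0 < r := hr0
    have h3 : {x : E N | ‖L (x - x₀)‖ ^ 2 ≠ 0} = {x | L (x - x₀) ≠ 0} := by
      ext x
      simp
    rw [h3]
    exact ENNReal.toReal_le_of_le_ofReal (by positivity) hr) (2 * k)
  filter_upwards [h2, self_mem_nhdsWithin] with r hr hr0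
  have hr0' : 0 < r := hr0
  filter_upwards [hr] with x hx
  have h3 : ‖L (x - x₀)‖ ^ 2 ≤ (r ^ k) ^ 2 := by
    rw [← pow_mul, mul_comm k 2]
    exact hx
  exact (pow_le_pow_iff_left₀ (norm_nonneg _) (by positivity) two_ne_zero).1 h3

theorem tilt_decay (hV : Vf m U μ P) (hU : IsOpen U) {x₀ : E N} (hx₀ : x₀ ∈ U)
    {L : E N →L[ℝ] E N} (Ls : ∀ v w, ⟪L v, w⟫ = ⟪v, L w⟫) (Li : ∀ v, L (L v) = L v)
    (h : ∀ k : ℕ, ∀ᶠ r in 𝓝[>] (0:ℝ), ∀ᵐ x ∂(μ.restrict (ball x₀ r)), ‖L (x - x₀)‖ ≤ r ^ k)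
    (k : ℕ) : ∀ᶠ r in 𝓝[>] (0:ℝ), ∫ z in closedBall x₀ r, trc (P z ∘L L) ∂μ ≤ r ^ k := by
  obtain ⟨R, hR0, hR⟩ := Metric.nhds_basis_closedBall.mem_iff.1 (hU.mem_nhds hx₀)
  obtain ⟨δ, hδ, hd⟩ := ev (h (k + 2))
  set M := μ.real (closedBall x₀ R) with hM
  have hMt : μ (closedBall x₀ R) ≠ ⊤ := (hV.st.fin _ hR (isCompact_closedBall _ _)).ne
  have hlim : Tendsto (fun r : ℝ => 64 / 9 * 3 ^ (k + 2) * M * r) (𝓝[>] 0)
      (𝓝 (64 / 9 * 3 ^ (k + 2) * M * 0)) := by
    apply tendsto_nhdsWithin_of_tendsto_nhds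
    exact (continuous_const.mul continuous_id).tendsto 0
  rw [mul_zero] at hlim
  filter_upwards [hlim.eventually (gt_mem_nhds (show (0:ℝ) < 1 by norm_num)),
    Ioo_mem_nhdsGT (show 0 < min (δ / 3) (R / 2) by
      exact lt_min (by positivity) (by positivity))] with r hr1 hr2
  have hr0 : 0 < r := hr2.1
  have hrδ : r < δ / 3 := hr2.2.trans_le (min_le_left _ _)
  have hrR : r < R / 2 := hr2.2.trans_le (min_le_right _ _)
  have h2U : closedBall x₀ (2 * r) ⊆ closedBall x₀ R := closedBall_subset_closedBall (by linarith)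
  have h3 := cacc hV Ls Li (show 0 < 2 * r by positivity) (h2U.trans hR)
  rw [show 2 * r / 2 = r by ring] at h3
  have h4 := hd (3 * r) (by positivity) (by linarith)
  have hfin := fin_restrict hV.st (isCompact_closedBall x₀ (2 * r)) (h2U.trans hR)
  have h5 : ∫ z in closedBall x₀ (2 * r), ‖L (z - x₀)‖ ∂μ ≤ (3 * r) ^ (k + 2) * M := by
    calc ∫ z in closedBall x₀ (2 * r), ‖L (z - x₀)‖ ∂μ
        ≤ ∫ _z in closedBall x₀ (2 * r), (3 * r) ^ (k + 2) ∂μ := by
          apply integral_mono_ae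
          · exact int_cont' hV.st (isCompact_closedBall x₀ (2 * r)) (h2U.trans hR) (by fun_prop)
          · exact integrable_const _
          · exact ae_restrict_of_ae_restrict_of_subset (closedBall_subset_ball (by linarith)) h4
      _ = μ.real (closedBall x₀ (2 * r)) * (3 * r) ^ (k + 2) := by
          rw [setIntegral_const, smul_eq_mul]
      _ ≤ M * (3 * r) ^ (k + 2) := by
          apply mul_le_mul_of_nonneg_right _ (by positivity)
          exact measureReal_mono h2U hMt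
      _ = _ := by ring
  calc ∫ z in closedBall x₀ r, trc (P z ∘L L) ∂μ
      ≤ 128 / 9 / (2 * r) * ∫ z in closedBall x₀ (2 * r), ‖L (z - x₀)‖ ∂μ := h3
    _ ≤ 128 / 9 / (2 * r) * ((3 * r) ^ (k + 2) * M) := mul_le_mul_of_nonneg_left h5 (by positivity)
    _ = (64 / 9 * 3 ^ (k + 2) * M * r) * r ^ k := by
        rw [mul_pow]
        field_simp
        ring
    _ ≤ 1 * r ^ k := mul_le_mul_of_nonneg_right hr1.le (by positivity)
    _ = r ^ k := one_mul _

end Pool.Agent.Q261.QS
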