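import Mathlib
import Pool.Agent.Q261.QS.Pinch
import Pool.Agent.Q261.QS.Contact

/-!
Stationary varifolds almost on one side of a hyperplane.
-/

namespace Pool.Agent.Q261.QS

open MeasureTheory Set Filter Topology Metric
open Pool.Agent.TH337.VF
open Pool.Agent.Q261.QV (p sc rf rv wt2 wt3 hasFDerivAt_rf rf_contDiff rf_zero p_nonneg p_le_one p_zero p_pos
  p_quarter p_cont sc_cont sc_nonneg sc_ge sc_ge' sc_lt sc_quarter wp sc_contDiff)
open scoped RealInnerProductSpace ENNReal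

variable {N m : ℕ} {U : Set (E N)} {μ : Measure (E N)} {P : E N → E N →L[ℝ] E N}

/-- the limit of the weighted mass ratios -/
noncomputable def w0 (m : ℕ) (μ : Measure (E N)) (x₀ : E N) : ℝ :=
  (density m μ x₀).toReal * (volume (ball (0 : EuclideanSpace ℝ (Fin m)) 1)).toReal * (κ m).toReal

lemma w0_nonneg (x₀ : E N) : 0 ≤ w0 m μ x₀ := by
  unfold w0
  positivity

/-- the mass ratio tends to its limit -/
lemma ratio_small (hS : Stat m U μ P) (hU : IsOpen U) {x₀ : E N} (hx₀ : x₀ ∈ U) {ε : ℝ}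
    (hε : 0 < ε) :
    ∃ ρ : ℝ, 0 < ρ ∧ closedBall x₀ ρ ⊆ U ∧ ∀ s, 0 < s → s ≤ ρ →
      (W μ x₀ s).toReal ≤ (w0 m μ x₀ + ε) * s ^ m := by
  unfold w0
  set Q := density m μ x₀ with hQ
  have hQt : Q ≠ ⊤ := density_lt_top hS hU hx₀
  set ω := volume (ball (0 : EuclideanSpace ℝ (Fin m)) 1) with hω
  have hω0 : ω ≠ 0 := omega_pos m
  have hω1 : ω ≠ ⊤ := omega_lt m
  set η : ℝ := ε / (ω.toReal * (κ m).toReal + 1) with hη
  have hη0 : 0 < η := by positivity
  obtain ⟨R₀, hR₀, hRU⟩ := Metric.isOpen_iff.1 hU x₀ hx₀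
  have h1 : Q < Q + ENNReal.ofReal η :=
    ENNReal.lt_add_right hQt (ENNReal.ofReal_pos.2 hη0).ne'
  have h2 : ∀ᶠ r : ℝ in 𝓝[>] 0, μ (ball x₀ r) / (ω * ENNReal.ofReal r ^ m) < Q + ENNReal.ofReal η :=
    eventually_lt_of_limsup_lt h1
  rw [eventually_nhdsWithin_iff, Metric.eventually_nhds_iff] at h2
  obtain ⟨ρ₁, hρ₁, h2⟩ := h2
  refine ⟨min (ρ₁ / 2) (R₀ / 2), lt_min (by linarith) (by linarith), ?_, ?_⟩
  · refine (closedBall_subset_ball ?_).trans hRU
    have := min_le_right (ρ₁ / 2) (R₀ / 2)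
    linarith
  intro R hR hRρ
  have h3 : ∀ s, 0 < s → s ≤ R → μ (ball x₀ s) ≤
      (Q + ENNReal.ofReal η) * (ω * ENNReal.ofReal s ^ m) := by
    intro s hs hsρ
    have h4 := h2 (y := s) (by
      rw [Real.dist_eq, sub_zero, abs_of_pos hs]
      have := min_le_left (ρ₁ / 2) (R₀ / 2)
      linarith) hs
    have hs' : ENNReal.ofReal s ≠ 0 := (ENNReal.ofReal_pos.2 hs).ne'
    exact ((ENNReal.div_lt_iff (Or.inl (mul_ne_zero hω0 (pow_ne_zero _ hs')))
      (Or.inl (ENNReal.mul_ne_top hω1 (ENNReal.pow_ne_top ENNReal.ofReal_ne_top)))).1 h4).le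
  have h4 := W_le hR h3
  have h6 := ENNReal.toReal_mono (ENNReal.mul_ne_top (ENNReal.mul_ne_top
    (ENNReal.add_ne_top.2 ⟨hQt, ENNReal.ofReal_ne_top⟩)
    (ENNReal.mul_ne_top hω1 (ENNReal.pow_ne_top ENNReal.ofReal_ne_top))) κ_ne) h4
  rw [ENNReal.toReal_mul, ENNReal.toReal_mul, ENNReal.toReal_mul, ENNReal.toReal_pow,
    ENNReal.toReal_add hQt ENNReal.ofReal_ne_top, ENNReal.toReal_ofReal hη0.le,
    ENNReal.toReal_ofReal hR.le] at h6
  have h7 : η * ω.toReal * (κ m).toReal ≤ ε := by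
    have h8 : η * (ω.toReal * (κ m).toReal + 1) = ε := by
      rw [hη]
      field_simp
    nlinarith
  have hRm : 0 < R ^ m := by positivity
  calc (W μ x₀ R).toReal ≤ (Q.toReal + η) * (ω.toReal * R ^ m) * (κ m).toReal := h6
    _ = (Q.toReal * ω.toReal * (κ m).toReal + η * ω.toReal * (κ m).toReal) * R ^ m := by ring
    _ ≤ _ := by gcongr

lemma W_ge_real (hS : Stat m U μ P) {a : E N} {R : ℝ} (hR : closedBall a R ⊆ U) (hR0 : 0 < R) :
    w0 m μ a * R ^ m ≤ (W μ a R).toReal := by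
  have h11 := W_ge hS hR hR0
  have h12 := ENNReal.toReal_mono (W_ne hS hR0 hR) h11
  rw [ENNReal.toReal_mul, ENNReal.toReal_mul, ENNReal.toReal_mul, ENNReal.toReal_pow,
    ENNReal.toReal_ofReal hR0.le] at h12
  unfold w0
  calc _ = (density m μ a).toReal * ((volume (ball (0 : EuclideanSpace ℝ (Fin m)) 1)).toReal *
        R ^ m) * (κ m).toReal := by ring
    _ ≤ _ := h12

/-- the approximate mean value property -/
lemma mean_low (hV : Vf m U μ P) {x₀ v : E N} {R g : ℝ} (hR : 0 < R)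
    (hU : closedBall x₀ R ⊆ U)
    (hℓ : ∀ᵐ x ∂(μ.restrict (closedBall x₀ R)), -g ≤ ⟪v, x - x₀⟫) :
    g * w0 m μ x₀ * R ^ m ≤ g * (W μ x₀ R).toReal +
      ∫ x in closedBall x₀ R, p (sc x₀ R x) ^ 2 * ⟪v, x - x₀⟫ ∂μ := by
  set f : E N → ℝ := fun x => g + ⟪v, x - x₀⟫ with hf
  have hfc : ContDiff ℝ 1 f :=
    contDiff_const.add ((innerSL ℝ v).contDiff.comp (contDiff_id.sub contDiff_const))
  have hpc : Continuous p := p_cont
  have f0 : ∀ᵐ x ∂(μ.restrict (closedBall x₀ R)), 0 ≤ f x := by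
    filter_upwards [hℓ] with x hx
    show 0 ≤ g + ⟪v, x - x₀⟫
    linarith
  have hfG : ∀ y, HasFDerivAt f (innerSL ℝ ((fun _ : E N => v) y)) y := by
    intro y
    have h1 : HasFDerivAt (fun x => (innerSL ℝ v) (x - x₀))
        ((innerSL ℝ v) ∘L ContinuousLinearMap.id ℝ (E N)) y :=
      (innerSL ℝ v).hasFDerivAt.comp y ((hasFDerivAt_id y).sub_const x₀)
    exact h1.const_add g
  have hK := isCompact_closedBall x₀ R
  have hfin := fin_restrict hV.st hK hU
  have hint : ∀ r, IntegrableOn (fun x => p (sc x₀ r x) ^ 2) (closedBall x₀ R) μ := by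
    intro r
    have := sc_cont x₀ r
    exact int_cont' hV.st hK hU (by fun_prop)
  have hint2 : ∀ r, IntegrableOn (fun x => p (sc x₀ r x) ^ 2 * ⟪v, x - x₀⟫) (closedBall x₀ R) μ := by
    intro r
    have := sc_cont x₀ r
    exact int_cont' hV.st hK hU (by fun_prop)
  have hint3 : ∀ r, IntegrableOn (fun x => p (sc x₀ r x) ^ 2 * f x) (closedBall x₀ R) μ := by
    intro r
    have := sc_cont x₀ r
    have := hfc.continuous
    exact int_cont' hV.st hK hU (by fun_prop)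
  have hmono : ∀ r, 0 < r → r ≤ R → (g - ‖v‖ * r) * w0 m μ x₀ ≤ J μ f x₀ R R / R ^ m := by
    intro r hr hrR
    have h1 := J_mono hV hfc (G := fun _ => v) contDiff_const hfG (by
      filter_upwards with x
      simp [trc_zero]) f0 hU hr hrR
    refine le_trans ?_ h1
    have hJ0 : 0 ≤ J μ f x₀ R r := by
      rw [J_eq hfc.continuous x₀ R r f0]
      apply integral_nonneg_of_ae
      filter_upwards [f0] with x hx
      show 0 ≤ p (sc x₀ r x) ^ 2 * f x
      positivity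
    rcases le_or_gt (g - ‖v‖ * r) 0 with h2 | h2
    · have h3 := w0_nonneg (m := m) (μ := μ) x₀
      have h4 : (g - ‖v‖ * r) * w0 m μ x₀ ≤ 0 := mul_nonpos_of_nonpos_of_nonneg h2 h3
      exact h4.trans (by positivity)
    · have hrU : closedBall x₀ r ⊆ U := (closedBall_subset_closedBall hrR).trans hU
      have h3 := W_ge_real hV.st hrU hr
      have h4 : (g - ‖v‖ * r) * (W μ x₀ r).toReal ≤ J μ f x₀ R r := by
        rw [J_eq hfc.continuous x₀ R r f0, ← w_eq measurableSet_closedBall hr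
          (ball_subset_closedBall.trans (closedBall_subset_closedBall hrR)), ← integral_const_mul]
        apply integral_mono_ae ((hint r).const_mul _) (hint3 r)
        filter_upwards with x
        by_cases hx : x ∈ ball x₀ r
        · have h5 : -(‖v‖ * r) ≤ ⟪v, x - x₀⟫ := by
            have h6 := abs_real_inner_le_norm v (x - x₀)
            have h7 : ‖x - x₀‖ < r := by rwa [mem_ball, dist_eq_norm] at hx
            have h8 : ‖v‖ * ‖x - x₀‖ ≤ ‖v‖ * r := mul_le_mul_of_nonneg_left h7.le (norm_nonneg _)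
            have h9 := neg_abs_le ⟪v, x - x₀⟫
            linarith
          show (g - ‖v‖ * r) * p (sc x₀ r x) ^ 2 ≤ p (sc x₀ r x) ^ 2 * (g + ⟪v, x - x₀⟫)
          rw [mul_comm]
          apply mul_le_mul_of_nonneg_left _ (by positivity)
          linarith
        · show (g - ‖v‖ * r) * p (sc x₀ r x) ^ 2 ≤ p (sc x₀ r x) ^ 2 * (g + ⟪v, x - x₀⟫)
          rw [p_zero (sc_ge' hr hx)]
          simp
      rw [le_div_iff₀ (by positivity)]
      calc (g - ‖v‖ * r) * w0 m μ x₀ * r ^ m = (g - ‖v‖ * r) * (w0 m μ x₀ * r ^ m) := by ring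
        _ ≤ (g - ‖v‖ * r) * (W μ x₀ r).toReal := mul_le_mul_of_nonneg_left h3 h2.le
        _ ≤ _ := h4
  have hlim : g * w0 m μ x₀ ≤ J μ f x₀ R R / R ^ m := by
    have h3 : Tendsto (fun r : ℝ => (g - ‖v‖ * r) * w0 m μ x₀) (𝓝[>] 0)
        (𝓝 ((g - ‖v‖ * 0) * w0 m μ x₀)) := by
      apply tendsto_nhdsWithin_of_tendsto_nhds
      have : Continuous fun r : ℝ => (g - ‖v‖ * r) * w0 m μ x₀ := by fun_prop
      exact this.tendsto 0
    rw [mul_zero, sub_zero] at h3
    apply le_of_tendsto h3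
    filter_upwards [Ioc_mem_nhdsGT hR] with r hr
    exact hmono r hr.1 hr.2
  rw [le_div_iff₀ (by positivity)] at hlim
  refine hlim.trans (le_of_eq ?_)
  rw [J_eq hfc.continuous x₀ R R f0, ← w_eq measurableSet_closedBall hR ball_subset_closedBall,
    ← integral_const_mul, ← integral_add ((hint R).const_mul g) (hint2 R)]
  congr 1
  funext x
  simp only [hf]
  ring

/-- the square of a linear function and its gradient -/
lemma lin_sq_deriv (v x₀ y : E N) :
    HasFDerivAt (fun x => ⟪v, x - x₀⟫ ^ 2) (innerSL ℝ ((2 * ⟪v, y - x₀⟫) • v)) y := by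
  have h1 : HasFDerivAt (fun x => (innerSL ℝ v) (x - x₀))
      ((innerSL ℝ v) ∘L ContinuousLinearMap.id ℝ (E N)) y :=
    (innerSL ℝ v).hasFDerivAt.comp y ((hasFDerivAt_id y).sub_const x₀)
  have h2 := h1.pow 2
  refine h2.congr_fderiv ?_
  ext w
  simp

lemma lin_grad_deriv (v x₀ y : E N) :
    HasFDerivAt (fun x => (2 * ⟪v, x - x₀⟫) • v) ((2:ℝ) • (innerSL ℝ v).smulRight v) y := by
  have h1 : HasFDerivAt (fun x => (innerSL ℝ v) (x - x₀))
      ((innerSL ℝ v) ∘L ContinuousLinearMap.id ℝ (E N)) y :=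
    (innerSL ℝ v).hasFDerivAt.comp y ((hasFDerivAt_id y).sub_const x₀)
  have h2 := (h1.const_mul 2).smul_const v
  refine h2.congr_fderiv ?_
  ext w
  simp [smul_smul, mul_assoc]

/-- one scale -/
lemma step (hV : Vf m U μ P) {θ : ℝ} (hθ : 0 < θ)
    (hΘ : ∀ᵐ a ∂(μ.restrict U), ∀ r, 0 < r → closedBall a r ⊆ U → θ * r ^ m ≤ μ.real (ball a r))
    {x₀ v : E N} {R g s e : ℝ} (hR : 0 < R) (hU : closedBall x₀ R ⊆ U) (hg : 0 ≤ g) (hs : 0 ≤ s)
    (hg' : ∀ᵐ x ∂(μ.restrict (closedBall x₀ R)), |⟪v, x - x₀⟫| ≤ g)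
    (hs' : ∀ᵐ x ∂(μ.restrict (closedBall x₀ R)), ⟪v, x - x₀⟫ ≤ s)
    (hW : (W μ x₀ R).toReal ≤ (w0 m μ x₀ + e) * R ^ m) :
    ∀ᵐ a ∂(μ.restrict (ball x₀ (R / 4))),
      9 / 16 * (θ / 2 ^ m) * ⟪v, a - x₀⟫ ^ 2 * (R / 4) ^ m ≤
        g * (16 / 9 * ((2 * s * (w0 m μ x₀ + e) + g * e) * R ^ m)) := by
  have hK := isCompact_closedBall x₀ R
  have hfin := fin_restrict hV.st hK hU
  have hpc : Continuous p := p_cont
  have hsc := sc_cont x₀ R
  have i1 : IntegrableOn (fun x => p (sc x₀ R x) ^ 2) (closedBall x₀ R) μ :=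
    int_cont' hV.st hK hU (by fun_prop)
  have i2 : IntegrableOn (fun x => p (sc x₀ R x) ^ 2 * ⟪v, x - x₀⟫) (closedBall x₀ R) μ :=
    int_cont' hV.st hK hU (by fun_prop)
  have i3 : IntegrableOn (fun x => p (sc x₀ R x) ^ 2 * |⟪v, x - x₀⟫|) (closedBall x₀ R) μ :=
    int_cont' hV.st hK hU (by fun_prop)
  have i4 : IntegrableOn (fun x => |⟪v, x - x₀⟫|) (closedBall x₀ R) μ :=
    int_cont' hV.st hK hU (by fun_prop)
  have i5 : IntegrableOn (fun x => ⟪v, x - x₀⟫ ^ 2) (closedBall x₀ R) μ :=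
    int_cont' hV.st hK hU (by fun_prop)
  have h1 := mean_low hV (v := v) (g := g) hR hU (by
    filter_upwards [hg'] with x hx
    have := neg_abs_le ⟪v, x - x₀⟫
    linarith)
  have hT : ∫ x in closedBall x₀ R, p (sc x₀ R x) ^ 2 * |⟪v, x - x₀⟫| ∂μ ≤
      (2 * s * (w0 m μ x₀ + e) + g * e) * R ^ m := by
    have h2 : ∫ x in closedBall x₀ R, p (sc x₀ R x) ^ 2 * |⟪v, x - x₀⟫| ∂μ ≤
        ∫ x in closedBall x₀ R, (2 * s * p (sc x₀ R x) ^ 2 - p (sc x₀ R x) ^ 2 * ⟪v, x - x₀⟫) ∂μ := by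
      apply integral_mono_ae i3 ((i1.const_mul _).sub i2)
      filter_upwards [hs'] with x hx
      have h3 : |⟪v, x - x₀⟫| ≤ 2 * s - ⟪v, x - x₀⟫ := by
        rw [abs_le]
        constructor <;> linarith
      have h4 : 2 * s * p (sc x₀ R x) ^ 2 - p (sc x₀ R x) ^ 2 * ⟪v, x - x₀⟫ =
          p (sc x₀ R x) ^ 2 * (2 * s - ⟪v, x - x₀⟫) := by ring
      show p (sc x₀ R x) ^ 2 * |⟪v, x - x₀⟫| ≤
        2 * s * p (sc x₀ R x) ^ 2 - p (sc x₀ R x) ^ 2 * ⟪v, x - x₀⟫
      rw [h4]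
      exact mul_le_mul_of_nonneg_left h3 (by positivity)
    rw [integral_sub (i1.const_mul _) i2, integral_const_mul,
      w_eq measurableSet_closedBall hR ball_subset_closedBall] at h2
    have h3 : 2 * s * (W μ x₀ R).toReal ≤ 2 * s * ((w0 m μ x₀ + e) * R ^ m) :=
      mul_le_mul_of_nonneg_left hW (by positivity)
    have h4 : g * (W μ x₀ R).toReal ≤ g * ((w0 m μ x₀ + e) * R ^ m) :=
      mul_le_mul_of_nonneg_left hW hg
    nlinarith
  have hsub2 : closedBall x₀ (R / 2) ⊆ closedBall x₀ R := closedBall_subset_closedBall (by linarith)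
  have hB : ∫ x in closedBall x₀ (R / 2), |⟪v, x - x₀⟫| ∂μ ≤
      16 / 9 * ((2 * s * (w0 m μ x₀ + e) + g * e) * R ^ m) := by
    have h2 : ∫ x in closedBall x₀ (R / 2), 9 / 16 * |⟪v, x - x₀⟫| ∂μ ≤
        ∫ x in closedBall x₀ R, p (sc x₀ R x) ^ 2 * |⟪v, x - x₀⟫| ∂μ := by
      calc ∫ x in closedBall x₀ (R / 2), 9 / 16 * |⟪v, x - x₀⟫| ∂μ
          ≤ ∫ x in closedBall x₀ (R / 2), p (sc x₀ R x) ^ 2 * |⟪v, x - x₀⟫| ∂μ := by
            apply setIntegral_mono_on ((i4.mono_set hsub2).const_mul _) (i3.mono_set hsub2)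
              measurableSet_closedBall
            intro x hx
            have h4 := p_quarter (sc_quarter hR hx)
            have h6 : 9 / 16 ≤ p (sc x₀ R x) ^ 2 := by nlinarith
            exact mul_le_mul_of_nonneg_right h6 (abs_nonneg _)
        _ ≤ _ := by
            apply setIntegral_mono_set i3
            · filter_upwards with x
              show 0 ≤ p (sc x₀ R x) ^ 2 * |⟪v, x - x₀⟫|
              positivity
            · exact hsub2.eventuallyLE
    rw [integral_const_mul] at h2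
    linarith
  have hballU : ball x₀ (R / 4) ⊆ U :=
    (ball_subset_closedBall.trans (closedBall_subset_closedBall (by linarith))).trans hU
  filter_upwards [ae_restrict_of_ae_restrict_of_subset hballU hΘ,
    ae_restrict_mem measurableSet_ball] with a ha1 ha2
  have hsub : closedBall a (R / 4) ⊆ closedBall x₀ (R / 2) := by
    apply closedBall_subset_closedBall'
    have : dist a x₀ < R / 4 := ha2
    linarith
  have haU : closedBall a (R / 4) ⊆ U := (hsub.trans hsub2).trans hU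
  have h3 := submean hV (f := fun x => ⟪v, x - x₀⟫ ^ 2) (G := fun x => (2 * ⟪v, x - x₀⟫) • v)
    (((innerSL ℝ v).contDiff.comp (contDiff_id.sub contDiff_const)).pow 2)
    (fun x => by positivity)
    ((contDiff_const.mul ((innerSL ℝ v).contDiff.comp
      (contDiff_id.sub contDiff_const))).smul contDiff_const)
    (fun y => lin_sq_deriv v x₀ y) (by
      filter_upwards with z
      rw [(lin_grad_deriv v x₀ z).fderiv, ContinuousLinearMap.comp_smul, trc_smul, trc_rank,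
        innerSL_apply_apply]
      have h4 : ⟪v, P z v⟫ = ‖P z v‖ ^ 2 := by
        rw [← real_inner_self_eq_norm_sq, hV.sym, hV.idem]
      rw [h4]
      positivity) hθ.le (show 0 < R / 4 by linarith) haU (fun r hr hrR =>
        ha1 r hr ((closedBall_subset_closedBall hrR).trans haU))
  refine h3.trans ?_
  calc ∫ x in closedBall a (R / 4), ⟪v, x - x₀⟫ ^ 2 ∂μ
      ≤ ∫ x in closedBall x₀ (R / 2), ⟪v, x - x₀⟫ ^ 2 ∂μ := by
        apply setIntegral_mono_set (i5.mono_set hsub2)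
        · filter_upwards with x
          show 0 ≤ ⟪v, x - x₀⟫ ^ 2
          positivity
        · exact hsub.eventuallyLE
    _ ≤ ∫ x in closedBall x₀ (R / 2), g * |⟪v, x - x₀⟫| ∂μ := by
        apply integral_mono_ae (i5.mono_set hsub2) ((i4.mono_set hsub2).const_mul _)
        filter_upwards [ae_restrict_of_ae_restrict_of_subset hsub2 hg'] with x hx
        show ⟪v, x - x₀⟫ ^ 2 ≤ g * |⟪v, x - x₀⟫|
        rw [← sq_abs, sq]
        exact mul_le_mul_of_nonneg_right hx (abs_nonneg _)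
    _ = g * ∫ x in closedBall x₀ (R / 2), |⟪v, x - x₀⟫| ∂μ := by rw [integral_const_mul]
    _ ≤ _ := mul_le_mul_of_nonneg_left hB hg

lemma pos_deriv (v x₀ y : E N) :
    HasFDerivAt (fun x => p (1 - ⟪v, x - x₀⟫) ^ 3)
      (innerSL ℝ ((3 * p (1 - ⟪v, y - x₀⟫) ^ 2) • v)) y := by
  have h1 : HasFDerivAt (fun x => 1 - (innerSL ℝ v) (x - x₀))
      (-((innerSL ℝ v) ∘L ContinuousLinearMap.id ℝ (E N))) y :=
    ((innerSL ℝ v).hasFDerivAt.comp y ((hasFDerivAt_id y).sub_const x₀)).const_sub 1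
  have h2 := (wt3.der (1 - ⟪v, y - x₀⟫)).comp_hasFDerivAt y h1
  refine h2.congr_fderiv ?_
  ext w
  simp

lemma pos_grad_deriv (v x₀ y : E N) :
    HasFDerivAt (fun x => (3 * p (1 - ⟪v, x - x₀⟫) ^ 2) • v)
      ((6 * p (1 - ⟪v, y - x₀⟫)) • (innerSL ℝ v).smulRight v) y := by
  have h1 : HasFDerivAt (fun x => 1 - (innerSL ℝ v) (x - x₀))
      (-((innerSL ℝ v) ∘L ContinuousLinearMap.id ℝ (E N))) y :=
    ((innerSL ℝ v).hasFDerivAt.comp y ((hasFDerivAt_id y).sub_const x₀)).const_sub 1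
  have h2 := (wt2.der (1 - ⟪v, y - x₀⟫)).comp_hasFDerivAt y h1
  have h3 := (h2.const_mul 3).smul_const v
  refine h3.congr_fderiv ?_
  ext w
  simp
  ring

/-- the positive part decays -/
lemma pos_decay (hV : Vf m U μ P) (hU : IsOpen U) {θ : ℝ} (hθ : 0 < θ)
    (hΘ : ∀ᵐ a ∂(μ.restrict U), ∀ r, 0 < r → closedBall a r ⊆ U → θ * r ^ m ≤ μ.real (ball a r))
    {x₀ : E N} (hx₀ : x₀ ∈ U) {v : E N}
    (hd : ∀ ε : ℝ, 0 < ε → ∀ᶠ r in 𝓝[>] (0:ℝ),
      μ (ball x₀ r ∩ {x | 0 < ⟪v, x - x₀⟫}) ≤ ENNReal.ofReal (ε * r ^ m)) (k : ℕ) :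
    ∀ᶠ r in 𝓝[>] (0:ℝ), ∀ᵐ x ∂(μ.restrict (ball x₀ r)), ⟪v, x - x₀⟫ ≤ r ^ k := by
  have hlin : ContDiff ℝ 1 fun x : E N => 1 - ⟪v, x - x₀⟫ :=
    contDiff_const.sub ((innerSL ℝ v).contDiff.comp (contDiff_id.sub contDiff_const))
  have hf : ContDiff ℝ 1 fun x : E N => p (1 - ⟪v, x - x₀⟫) ^ 3 := wt3.contDiff.comp hlin
  have hG : ContDiff ℝ 1 fun x : E N => (3 * p (1 - ⟪v, x - x₀⟫) ^ 2) • v :=
    (contDiff_const.mul (wt2.contDiff.comp hlin)).smul contDiff_const
  have h2 := decay hV hU hf (fun x => by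
    have := p_nonneg (1 - ⟪v, x - x₀⟫)
    positivity) hG (fun y => pos_deriv v x₀ y) (by
    filter_upwards with z
    rw [(pos_grad_deriv v x₀ z).fderiv, ContinuousLinearMap.comp_smul, trc_smul, trc_rank,
      innerSL_apply_apply]
    have h4 : ⟪v, P z v⟫ = ‖P z v‖ ^ 2 := by
      rw [← real_inner_self_eq_norm_sq, hV.sym, hV.idem]
    rw [h4]
    have := p_nonneg (1 - ⟪v, z - x₀⟫)
    positivity) hθ hΘ hx₀ (by
    intro ε hε
    filter_upwards [hd ε hε, self_mem_nhdsWithin] with r hr hr0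
    have hr0' : 0 < r := hr0
    have h3 : {x : E N | p (1 - ⟪v, x - x₀⟫) ^ 3 ≠ 0} = {x | 0 < ⟪v, x - x₀⟫} := by
      ext x
      simp only [ne_eq, mem_ofPred_eq]
      constructor
      · intro h
        by_contra hc
        push Not at hc
        apply h
        rw [p_zero (by linarith)]
        norm_num
      · intro h
        have := p_pos (show 1 - ⟪v, x - x₀⟫ < 1 by linarith)
        positivity
    rw [h3]
    exact ENNReal.toReal_le_of_le_ofReal (by positivity) hr) (3 * k)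
  filter_upwards [h2, self_mem_nhdsWithin] with r hr hr0
  have hr0' : 0 < r := hr0
  filter_upwards [hr] with x hx
  have h3 : p (1 - ⟪v, x - x₀⟫) ^ 3 ≤ (r ^ k) ^ 3 := by
    rw [← pow_mul, mul_comm k 3]
    exact hx
  have h4 := (pow_le_pow_iff_left₀ (p_nonneg _) (by positivity) three_ne_zero).1 h3
  refine le_trans ?_ h4
  unfold p
  refine le_trans (le_of_eq ?_) (le_max_right _ _)
  ring

/-- A stationary varifold which lies, up to a set of density zero at `x₀`, on one side of a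
hyperplane through `x₀` has contact of infinite order with the hyperplane at `x₀`. -/
theorem onesided (hV : Vf m U μ P) (hU : IsOpen U)
    (hΘ1 : ∀ᵐ x ∂(μ.restrict U), 1 ≤ density m μ x) {x₀ : E N} (hx₀ : x₀ ∈ U) {v : E N}
    (hd : ∀ ε : ℝ, 0 < ε → ∀ᶠ r in 𝓝[>] (0:ℝ),
      μ (ball x₀ r ∩ {x | 0 < ⟪v, x - x₀⟫}) ≤ ENNReal.ofReal (ε * r ^ m)) (k : ℕ) :
    ∀ᶠ r in 𝓝[>] (0:ℝ), ∀ᵐ x ∂(μ.restrict (ball x₀ r)), |⟪v, x - x₀⟫| ≤ r ^ k := by
  set θ := (volume (ball (0 : EuclideanSpace ℝ (Fin m)) 1)).toReal with hθdef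
  have hθ : 0 < θ := omega_real_pos m
  have hΘ : ∀ᵐ a ∂(μ.restrict U), ∀ r, 0 < r → closedBall a r ⊆ U →
      θ * r ^ m ≤ μ.real (ball a r) := by
    filter_upwards [hΘ1] with a ha r hr haU
    exact lowmass hV.st ha hr haU
  set q : ℝ := 1 / 8 ^ (k + 1) with hq
  have hq0 : 0 < q := by positivity
  set Ca : ℝ := 16 / 9 / (9 / 16 * (θ / 2 ^ m) / 4 ^ m) with hCa
  have hCa0 : 0 < Ca := by positivity
  set e : ℝ := q ^ 2 / (2 * Ca) with he
  have he0 : 0 < e := by positivity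
  have hCe : Ca * e = q ^ 2 / 2 := by
    rw [he]
    field_simp
  obtain ⟨ρ₀, hρ₀, hρ₀U, hratio⟩ := ratio_small hV.st hU hx₀ he0
  obtain ⟨δ, hδ, hpos⟩ := ev (pos_decay hV hU hθ hΘ hx₀ hd (k + 1))
  set M : ℝ := w0 m μ x₀ + e with hM
  have hM0 : 0 < M := by
    have := w0_nonneg (m := m) (μ := μ) x₀
    linarith
  set ρ : ℝ := min ρ₀ (δ / 2) with hρ
  have hρ0 : 0 < ρ := lt_min hρ₀ (by linarith)
  have hρρ₀ : ρ ≤ ρ₀ := min_le_left _ _
  have hρδ : ρ ≤ δ / 2 := min_le_right _ _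
  set A : ℝ := max (‖v‖ * ρ) (4 * M * Ca * ρ ^ (k + 1) / q ^ 2) with hA
  have hA1 : ‖v‖ * ρ ≤ A := le_max_left _ _
  have hA2 : 4 * M * Ca * ρ ^ (k + 1) / q ^ 2 ≤ A := le_max_right _ _
  have hA0 : 0 ≤ A := le_trans (by positivity) hA1
  rw [div_le_iff₀ (by positivity)] at hA2
  have hmain : ∀ j : ℕ, ∀ r, 0 < r → 8 ^ j * r ≤ ρ →
      ∀ᵐ x ∂(μ.restrict (ball x₀ r)), |⟪v, x - x₀⟫| ≤ A * q ^ j := by
    intro j
    induction j with
    | zero =>
      intro r hr hrρ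
      filter_upwards [ae_restrict_mem measurableSet_ball] with x hx
      have h1 : ‖x - x₀‖ < r := by rwa [mem_ball, dist_eq_norm] at hx
      have h3 : r ≤ ρ := by simpa using hrρ
      rw [pow_zero, mul_one]
      refine (abs_real_inner_le_norm v (x - x₀)).trans (le_trans ?_ hA1)
      exact mul_le_mul_of_nonneg_left (by linarith) (norm_nonneg _)
    | succ j ih =>
      intro r hr hrρ
      have h8r : 0 < 8 * r := by linarith
      have h8rρ : 8 ^ j * (8 * r) ≤ ρ := by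
        calc (8:ℝ) ^ j * (8 * r) = 8 ^ (j + 1) * r := by ring
          _ ≤ ρ := hrρ
      have hB := ih (8 * r) h8r h8rρ
      have h1j : (1:ℝ) ≤ 8 ^ j := one_le_pow₀ (by norm_num)
      have h8ρ : 8 * r ≤ ρ := by nlinarith
      have hsub : closedBall x₀ (4 * r) ⊆ ball x₀ (8 * r) := closedBall_subset_ball (by linarith)
      have hU4 : closedBall x₀ (4 * r) ⊆ U :=
        (closedBall_subset_closedBall (by linarith)).trans hρ₀U
      have hp := hpos (8 * r) h8r (by linarith)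
      have hs1 : (8 * r) ^ (k + 1) ≤ ρ ^ (k + 1) * q ^ j := by
        have h1 : 8 * r ≤ ρ / 8 ^ j := by
          rw [le_div_iff₀ (by positivity)]
          linarith
        calc (8 * r) ^ (k + 1) ≤ (ρ / 8 ^ j) ^ (k + 1) := by gcongr
          _ = ρ ^ (k + 1) * q ^ j := by
            rw [hq, div_pow, ← pow_mul, one_div_pow, ← pow_mul, mul_comm (k + 1) j]
            ring
      have hstep := step hV hθ hΘ (v := v) (R := 4 * r) (g := A * q ^ j)
        (s := ρ ^ (k + 1) * q ^ j) (e := e) (by positivity) hU4 (by positivity) (by positivity)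
        (ae_restrict_of_ae_restrict_of_subset hsub hB)
        (by
          filter_upwards [ae_restrict_of_ae_restrict_of_subset hsub hp] with x hx
          exact hx.trans hs1)
        (hratio (4 * r) (by positivity) (by linarith))
      rw [show 4 * r / 4 = r by ring] at hstep
      filter_upwards [hstep] with a ha
      have hrm : 0 < r ^ m := by positivity
      have h2 : 9 / 16 * (θ / 2 ^ m) * ⟪v, a - x₀⟫ ^ 2 * r ^ m =
          (9 / 16 * (θ / 2 ^ m) / 4 ^ m * ⟪v, a - x₀⟫ ^ 2) * (4 * r) ^ m := by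
        rw [mul_pow]
        field_simp
      rw [h2] at ha
      have h3 : A * q ^ j * (16 / 9 * ((2 * (ρ ^ (k + 1) * q ^ j) * (w0 m μ x₀ + e) +
          A * q ^ j * e) * (4 * r) ^ m)) = (A * q ^ j * (16 / 9 * (2 * (ρ ^ (k + 1) * q ^ j) * M +
          A * q ^ j * e))) * (4 * r) ^ m := by ring
      rw [h3] at ha
      have h4 := le_of_mul_le_mul_right ha (by positivity)
      have h5 : ⟪v, a - x₀⟫ ^ 2 ≤ (A * q ^ (j + 1)) ^ 2 := by
        have h6 : ⟪v, a - x₀⟫ ^ 2 ≤ Ca * (A * q ^ j * (2 * (ρ ^ (k + 1) * q ^ j) * M +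
            A * q ^ j * e)) := by
          have h7 : Ca * (A * q ^ j * (2 * (ρ ^ (k + 1) * q ^ j) * M + A * q ^ j * e)) =
              (A * q ^ j * (16 / 9 * (2 * (ρ ^ (k + 1) * q ^ j) * M + A * q ^ j * e))) /
              (9 / 16 * (θ / 2 ^ m) / 4 ^ m) := by
            rw [hCa]
            ring
          rw [h7, le_div_iff₀ (by positivity)]
          linarith
        refine h6.trans ?_
        have h8 : Ca * (A * q ^ j * (2 * (ρ ^ (k + 1) * q ^ j) * M + A * q ^ j * e)) =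
            A * (q ^ j) ^ 2 * (2 * M * Ca * ρ ^ (k + 1) + (Ca * e) * A) := by ring
        have h9 : (A * q ^ (j + 1)) ^ 2 = A * (q ^ j) ^ 2 * (A * q ^ 2) := by
          rw [pow_succ]
          ring
        rw [h8, h9, hCe]
        apply mul_le_mul_of_nonneg_left _ (by positivity)
        nlinarith
      rw [← sq_abs] at h5
      exact (pow_le_pow_iff_left₀ (abs_nonneg _) (by positivity) two_ne_zero).1 h5
  have hsmall : ∀ᶠ r in 𝓝[>] (0:ℝ), A * (8 / ρ) ^ (k + 1) * r ≤ 1 := by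
    have h1 : Tendsto (fun r : ℝ => A * (8 / ρ) ^ (k + 1) * r) (𝓝[>] 0)
        (𝓝 (A * (8 / ρ) ^ (k + 1) * 0)) := by
      apply tendsto_nhdsWithin_of_tendsto_nhds
      exact (continuous_const.mul continuous_id).tendsto 0
    rw [mul_zero] at h1
    filter_upwards [h1.eventually (gt_mem_nhds (show (0:ℝ) < 1 by norm_num))] with r hr
    exact hr.le
  filter_upwards [hsmall, Ioo_mem_nhdsGT hρ0] with r hr1 hr2
  have hr0 : 0 < r := hr2.1
  obtain ⟨j, hj1, hj2⟩ := exists_nat_pow_near (show (1:ℝ) ≤ ρ / r by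
    rw [one_le_div hr0]
    exact hr2.2.le) (show (1:ℝ) < 8 by norm_num)
  have h1 : 8 ^ j * r ≤ ρ := by rwa [le_div_iff₀ hr0] at hj1
  filter_upwards [hmain j r hr0 h1] with x hx
  refine hx.trans ?_
  have h2 : (1 / 8 : ℝ) ^ j ≤ 8 / ρ * r := by
    rw [div_lt_iff₀ hr0] at hj2
    rw [one_div, inv_pow, inv_le_iff_one_le_mul₀ (by positivity)]
    have h3 : ρ < 8 ^ j * (8 * r) := by
      calc ρ < 8 ^ (j + 1) * r := hj2
        _ = 8 ^ j * (8 * r) := by ring
    have h4 : 8 / ρ * r * 8 ^ j = (8 ^ j * (8 * r)) / ρ := by ring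
    rw [h4, one_le_div hρ0]
    exact h3.le
  have h3 : q ^ j = ((1 / 8 : ℝ) ^ j) ^ (k + 1) := by
    rw [hq, ← pow_mul, ← one_div_pow, ← pow_mul, mul_comm]
  rw [h3]
  calc A * ((1 / 8 : ℝ) ^ j) ^ (k + 1) ≤ A * (8 / ρ * r) ^ (k + 1) := by gcongr
    _ = (A * (8 / ρ) ^ (k + 1) * r) * r ^ k := by
      rw [mul_pow, pow_succ r]
      ring
    _ ≤ 1 * r ^ k := mul_le_mul_of_nonneg_right hr1 (by positivity)
    _ = r ^ k := one_mul _

end Pool.Agent.Q261.QS
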