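import Mathlib
import Pool.Agent.Q261.QS.OneSided

/-!
The approximate mean value property at the points of equal density and its consequences.
-/

namespace Pool.Agent.Q261.QS

open MeasureTheory Set Filter Topology Metric
open Pool.Agent.TH337.VF
open Pool.Agent.Q261.QV (p sc rf rv wt2 wt3 hasFDerivAt_rf rf_contDiff rf_zero p_nonneg p_le_one p_zero p_pos
  p_quarter p_cont sc_cont sc_nonneg sc_ge sc_ge' sc_lt sc_quarter wp sc_contDiff)
open scoped RealInnerProductSpace ENNReal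

variable {N m : ℕ} {U : Set (E N)} {μ : Measure (E N)} {P : E N → E N →L[ℝ] E N}

lemma p_lip0 {a b : ℝ} (ha : 0 ≤ a) (hab : a ≤ b) :
    0 ≤ p (a ^ 2) - p (b ^ 2) ∧ p (a ^ 2) - p (b ^ 2) ≤ 2 * (b - a) := by
  have hb : 0 ≤ b := ha.trans hab
  rcases le_total 1 a with h1 | h1
  · rw [p_zero (by nlinarith), p_zero (show 1 ≤ b ^ 2 by nlinarith)]
    constructor <;> linarith
  · have e1 : p (a ^ 2) = 1 - a ^ 2 := max_eq_right (by nlinarith)
    rcases le_total 1 b with h2 | h2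
    · rw [p_zero (show 1 ≤ b ^ 2 by nlinarith), e1]
      constructor <;> nlinarith
    · have e2 : p (b ^ 2) = 1 - b ^ 2 := max_eq_right (by nlinarith)
      rw [e1, e2]
      constructor <;> nlinarith

lemma p_lip1 {a b : ℝ} (ha : 0 ≤ a) (hb : 0 ≤ b) : |p (a ^ 2) - p (b ^ 2)| ≤ 2 * |a - b| := by
  rcases le_total a b with h | h
  · have h1 := p_lip0 ha h
    rw [abs_of_nonneg h1.1, abs_of_nonpos (by linarith)]
    linarith [h1.2]
  · have h1 := p_lip0 hb h
    rw [abs_of_nonpos (by linarith [h1.1]), abs_of_nonneg (by linarith)]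
    linarith [h1.2]

lemma p_lip {x x' z : E N} {R : ℝ} (hR : 0 < R) :
    |p (sc x R z) ^ 2 - p (sc x' R z) ^ 2| ≤ 4 * (‖x - x'‖ / R) := by
  have e1 : sc x R z = (‖z - x‖ / R) ^ 2 := by
    unfold sc
    rw [div_pow]
  have e2 : sc x' R z = (‖z - x'‖ / R) ^ 2 := by
    unfold sc
    rw [div_pow]
  have h1 : |p (sc x R z) - p (sc x' R z)| ≤ 2 * (‖x - x'‖ / R) := by
    rw [e1, e2]
    refine (p_lip1 (by positivity) (by positivity)).trans ?_
    have h2 : |‖z - x‖ - ‖z - x'‖| ≤ ‖x - x'‖ := by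
      refine (abs_norm_sub_norm_le _ _).trans (le_of_eq ?_)
      rw [show z - x - (z - x') = -(x - x') by abel, norm_neg]
    rw [← sub_div, abs_div, abs_of_pos hR]
    gcongr
  have h3 := p_nonneg (sc x R z)
  have h4 := p_nonneg (sc x' R z)
  have h5 := p_le_one (sc_nonneg x R z)
  have h6 := p_le_one (sc_nonneg x' R z)
  have h7 : p (sc x R z) ^ 2 - p (sc x' R z) ^ 2 =
      (p (sc x R z) - p (sc x' R z)) * (p (sc x R z) + p (sc x' R z)) := by ring
  rw [h7, abs_mul, abs_of_nonneg (show 0 ≤ p (sc x R z) + p (sc x' R z) by linarith)]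
  have h8 : 0 ≤ ‖x - x'‖ / R := by positivity
  calc |p (sc x R z) - p (sc x' R z)| * (p (sc x R z) + p (sc x' R z))
      ≤ (2 * (‖x - x'‖ / R)) * 2 := by gcongr; linarith
    _ = _ := by ring

lemma ratio_near (hS : Stat m U μ P) (hU : IsOpen U) {x₀ : E N} (hx₀ : x₀ ∈ U) {ε : ℝ}
    (hε : 0 < ε) :
    ∃ r₀ : ℝ, 0 < r₀ ∧ closedBall x₀ (2 * r₀) ⊆ U ∧ ∀ x ∈ ball x₀ r₀, ∀ s, 0 < s → s ≤ r₀ →
      (W μ x s).toReal ≤ (w0 m μ x₀ + ε) * s ^ m := by
  obtain ⟨ρ, hρ, hρU, h1⟩ := ratio_small hS hU hx₀ (show 0 < ε / 2 by linarith)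
  have hρ2 : 0 < ρ / 2 := by linarith
  have h2U : closedBall x₀ (2 * (ρ / 2)) ⊆ U := by
    rw [show 2 * (ρ / 2) = ρ by ring]
    exact hρU
  obtain ⟨δ₁, hδ₁, hδρ, h2⟩ := w_cont hS hρ2 h2U (ε := ε / 2 * (ρ / 2) ^ m) (by positivity)
  refine ⟨δ₁, hδ₁, (closedBall_subset_closedBall (by linarith)).trans h2U, ?_⟩
  intro x hx s hs hsδ
  have hxU : closedBall x (ρ / 2) ⊆ U := by
    refine Subset.trans ?_ h2U
    apply closedBall_subset_closedBall'
    have : dist x x₀ < δ₁ := hx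
    linarith
  have h3 := h2 x hx
  have h4 := h1 (ρ / 2) hρ2 (by linarith)
  have h5 := mono_I hS wt2 hxU hs (hsδ.trans hδρ)
  rw [I_eq_W hs (hsδ.trans hδρ), I_eq_W hρ2 le_rfl] at h5
  have h6 : (W μ x (ρ / 2)).toReal / (ρ / 2) ^ m ≤ w0 m μ x₀ + ε := by
    rw [div_le_iff₀ (by positivity)]
    calc (W μ x (ρ / 2)).toReal ≤ (W μ x₀ (ρ / 2)).toReal + ε / 2 * (ρ / 2) ^ m := h3
      _ ≤ (w0 m μ x₀ + ε / 2) * (ρ / 2) ^ m + ε / 2 * (ρ / 2) ^ m := by linarith
      _ = _ := by ring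
  have h7 := h5.trans h6
  rwa [div_le_iff₀ (by positivity)] at h7

lemma mv (hV : Vf m U μ P) {x v : E N} {R g δ : ℝ} (hR : 0 < R) (hU : closedBall x R ⊆ U)
    (hg : 0 ≤ g) (hℓ : ∀ᵐ z ∂(μ.restrict (closedBall x R)), |⟪v, z - x⟫| ≤ g)
    (hW : (W μ x R).toReal ≤ (w0 m μ x + δ) * R ^ m) :
    |∫ z in closedBall x R, p (sc x R z) ^ 2 * ⟪v, z - x⟫ ∂μ| ≤ g * δ * R ^ m := by
  have h1 := mean_low hV (v := v) (g := g) hR hU (by
    filter_upwards [hℓ] with z hz
    have := neg_abs_le ⟪v, z - x⟫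
    linarith)
  have h2 := mean_low hV (v := -v) (g := g) hR hU (by
    filter_upwards [hℓ] with z hz
    have := le_abs_self ⟪v, z - x⟫
    rw [inner_neg_left]
    linarith)
  have h3 : ∫ z in closedBall x R, p (sc x R z) ^ 2 * ⟪-v, z - x⟫ ∂μ =
      -∫ z in closedBall x R, p (sc x R z) ^ 2 * ⟪v, z - x⟫ ∂μ := by
    rw [← integral_neg]
    congr 1
    funext z
    rw [inner_neg_left]
    ring
  rw [h3] at h2
  have h4 : g * (W μ x R).toReal ≤ g * ((w0 m μ x + δ) * R ^ m) := mul_le_mul_of_nonneg_left hW hg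
  rw [abs_le]
  constructor <;> nlinarith

lemma supp_bound (hS : Stat m U μ P) {x₀ x : E N} {r g : ℝ} (hU : ball x₀ r ⊆ U)
    (hx : x ∈ ball x₀ r) (hd : 1 ≤ density m μ x) {f : E N → ℝ} (hf : Continuous f)
    (hg : ∀ᵐ z ∂(μ.restrict (ball x₀ r)), f z ≤ g) : f x ≤ g := by
  by_contra hc
  push Not at hc
  have ho : IsOpen ({z | g < f z} ∩ ball x₀ r) := (isOpen_lt continuous_const hf).inter isOpen_ball
  obtain ⟨s, hs, hsub⟩ := Metric.nhds_basis_closedBall.mem_iff.1 (ho.mem_nhds ⟨hc, hx⟩)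
  have h1 := density_le hS (hsub.trans (inter_subset_right.trans hU)) hs
  have h2 : μ (ball x s) = 0 := by
    have h3 : μ ({z | ¬ f z ≤ g} ∩ ball x₀ r) = 0 := by
      rwa [ae_iff, Measure.restrict_apply' measurableSet_ball] at hg
    refine measure_mono_null (fun z hz => ?_) h3
    have h4 := hsub (ball_subset_closedBall hz)
    exact ⟨not_le.2 h4.1, h4.2⟩
  rw [h2] at h1
  have h3 : density m μ x * (volume (ball (0 : EuclideanSpace ℝ (Fin m)) 1) *
      ENNReal.ofReal s ^ m) ≠ 0 := by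
    refine mul_ne_zero ?_ (mul_ne_zero (omega_pos m) (pow_ne_zero _ (ENNReal.ofReal_pos.2 hs).ne'))
    exact (lt_of_lt_of_le zero_lt_one hd).ne'
  exact h3 (le_antisymm h1 bot_le)

/-- two points of the same density at small distance -/
lemma compare (hV : Vf m U μ P) {x₀ x x' v : E N} {r g δ M : ℝ} (hr : 0 < r)
    (hU : closedBall x₀ (4 * r) ⊆ U) (hx : x ∈ ball x₀ r) (hx' : x' ∈ ball x₀ (2 * r))
    (hg : 0 ≤ g) (hδ : 0 ≤ δ) (hM : μ.real (closedBall x₀ (4 * r)) ≤ M * r ^ m)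
    (hdx : density m μ x = density m μ x₀) (hdx' : density m μ x' = density m μ x₀)
    (hgae : ∀ᵐ z ∂(μ.restrict (ball x₀ (4 * r))), |⟪v, z - x₀⟫| ≤ g)
    (hgx : |⟪v, x - x₀⟫| ≤ g) (hgx' : |⟪v, x' - x₀⟫| ≤ g)
    (hW : (W μ x r).toReal ≤ (w0 m μ x₀ + δ) * r ^ m)
    (hW' : (W μ x' r).toReal ≤ (w0 m μ x₀ + δ) * r ^ m) :
    |⟪v, x - x'⟫| * w0 m μ x₀ ≤ g * (8 * M * (‖x - x'‖ / r) + 4 * δ) := by
  have hK := isCompact_closedBall x₀ (4 * r)
  have hfin := fin_restrict hV.st hK hU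
  have hpc : Continuous p := p_cont
  have hs1 := sc_cont x r
  have hs2 := sc_cont x' r
  have hdxn : dist x x₀ < r := hx
  have hdxn' : dist x' x₀ < 2 * r := hx'
  have hB : closedBall x r ⊆ ball x₀ (4 * r) := by
    apply closedBall_subset_ball'
    linarith
  have hB' : closedBall x' r ⊆ ball x₀ (4 * r) := by
    apply closedBall_subset_ball'
    linarith
  have hBK : closedBall x r ⊆ closedBall x₀ (4 * r) := hB.trans ball_subset_closedBall
  have hBK' : closedBall x' r ⊆ closedBall x₀ (4 * r) := hB'.trans ball_subset_closedBall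
  have ew : w0 m μ x = w0 m μ x₀ := by
    unfold w0
    rw [hdx]
  have ew' : w0 m μ x' = w0 m μ x₀ := by
    unfold w0
    rw [hdx']
  set K := closedBall x₀ (4 * r) with hKdef
  set a := ⟪v, x - x₀⟫ with ha
  set a' := ⟪v, x' - x₀⟫ with ha'
  have e0 : ∀ z, ⟪v, z - x⟫ = ⟪v, z - x₀⟫ - a := by
    intro z
    rw [ha, ← inner_sub_right]
    congr 1
    abel
  have e0' : ∀ z, ⟪v, z - x'⟫ = ⟪v, z - x₀⟫ - a' := by
    intro z
    rw [ha', ← inner_sub_right]
    congr 1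
    abel
  have i1 : IntegrableOn (fun z => p (sc x r z) ^ 2 * ⟪v, z - x₀⟫) K μ :=
    int_cont' hV.st hK hU (by fun_prop)
  have i1' : IntegrableOn (fun z => p (sc x' r z) ^ 2 * ⟪v, z - x₀⟫) K μ :=
    int_cont' hV.st hK hU (by fun_prop)
  have i2 : IntegrableOn (fun z => p (sc x r z) ^ 2) K μ := int_cont' hV.st hK hU (by fun_prop)
  have i2' : IntegrableOn (fun z => p (sc x' r z) ^ 2) K μ := int_cont' hV.st hK hU (by fun_prop)
  have m1 : |(∫ z in K, p (sc x r z) ^ 2 * ⟪v, z - x₀⟫ ∂μ) - a * (W μ x r).toReal| ≤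
      2 * g * δ * r ^ m := by
    have h1 := mv hV (x := x) (v := v) (g := 2 * g) (δ := δ) hr (hBK.trans hU) (by positivity) (by
      filter_upwards [ae_restrict_of_ae_restrict_of_subset hB hgae] with z hz
      rw [e0]
      calc |⟪v, z - x₀⟫ - a| ≤ |⟪v, z - x₀⟫| + |a| := abs_sub _ _
        _ ≤ 2 * g := by linarith) (by rw [ew]; exact hW)
    have h2 : ∫ z in closedBall x r, p (sc x r z) ^ 2 * ⟪v, z - x⟫ ∂μ =
        (∫ z in K, p (sc x r z) ^ 2 * ⟪v, z - x₀⟫ ∂μ) - a * (W μ x r).toReal := by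
      rw [← setIntegral_eq_of_subset_of_forall_sdiff_eq_zero measurableSet_closedBall hBK
        (f := fun z => p (sc x r z) ^ 2 * ⟪v, z - x⟫) (by
        intro z hz
        rw [p_zero (sc_ge hr hz.2)]
        ring), ← w_eq measurableSet_closedBall hr (ball_subset_closedBall.trans hBK),
        ← integral_const_mul, ← integral_sub i1 (i2.const_mul _)]
      congr 1
      funext z
      rw [e0]
      ring
    rwa [h2] at h1
  have m1' : |(∫ z in K, p (sc x' r z) ^ 2 * ⟪v, z - x₀⟫ ∂μ) - a' * (W μ x' r).toReal| ≤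
      2 * g * δ * r ^ m := by
    have h1 := mv hV (x := x') (v := v) (g := 2 * g) (δ := δ) hr (hBK'.trans hU) (by positivity) (by
      filter_upwards [ae_restrict_of_ae_restrict_of_subset hB' hgae] with z hz
      rw [e0']
      calc |⟪v, z - x₀⟫ - a'| ≤ |⟪v, z - x₀⟫| + |a'| := abs_sub _ _
        _ ≤ 2 * g := by linarith) (by rw [ew']; exact hW')
    have h2 : ∫ z in closedBall x' r, p (sc x' r z) ^ 2 * ⟪v, z - x'⟫ ∂μ =
        (∫ z in K, p (sc x' r z) ^ 2 * ⟪v, z - x₀⟫ ∂μ) - a' * (W μ x' r).toReal := by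
      rw [← setIntegral_eq_of_subset_of_forall_sdiff_eq_zero measurableSet_closedBall hBK'
        (f := fun z => p (sc x' r z) ^ 2 * ⟪v, z - x'⟫) (by
        intro z hz
        rw [p_zero (sc_ge hr hz.2)]
        ring), ← w_eq measurableSet_closedBall hr (ball_subset_closedBall.trans hBK'),
        ← integral_const_mul, ← integral_sub i1' (i2'.const_mul _)]
      congr 1
      funext z
      rw [e0']
      ring
    rwa [h2] at h1
  set d := ‖x - x'‖ / r with hd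
  have hd0 : 0 ≤ d := by positivity
  have m2 : |(∫ z in K, p (sc x r z) ^ 2 * ⟪v, z - x₀⟫ ∂μ) -
      ∫ z in K, p (sc x' r z) ^ 2 * ⟪v, z - x₀⟫ ∂μ| ≤ 4 * d * g * (M * r ^ m) := by
    rw [← integral_sub i1 i1']
    have hgK : ∀ᵐ z ∂(μ.restrict K), p (sc x r z) ^ 2 * ⟪v, z - x₀⟫ -
        p (sc x' r z) ^ 2 * ⟪v, z - x₀⟫ = 0 ∨ |⟪v, z - x₀⟫| ≤ g := by
      have h1 : ∀ᵐ z ∂(μ.restrict K), z ∈ ball x₀ (4 * r) → |⟪v, z - x₀⟫| ≤ g :=
        ae_restrict_of_ae ((ae_restrict_iff' measurableSet_ball).1 hgae)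
      filter_upwards [h1] with z hz
      by_cases hz1 : z ∈ ball x₀ (4 * r)
      · exact Or.inr (hz hz1)
      · left
        rw [p_zero (sc_ge hr fun h => hz1 (hB h)), p_zero (sc_ge hr fun h => hz1 (hB' h))]
        ring
    have h2 : ‖∫ z in K, (p (sc x r z) ^ 2 * ⟪v, z - x₀⟫ - p (sc x' r z) ^ 2 * ⟪v, z - x₀⟫) ∂μ‖ ≤
        4 * d * g * μ.real K := by
      have h3 : ∀ᵐ z ∂(μ.restrict K), ‖p (sc x r z) ^ 2 * ⟪v, z - x₀⟫ -
          p (sc x' r z) ^ 2 * ⟪v, z - x₀⟫‖ ≤ 4 * d * g := by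
        filter_upwards [hgK] with z hz
        rcases hz with hz | hz
        · rw [hz, norm_zero]
          positivity
        · rw [← sub_mul, Real.norm_eq_abs, abs_mul]
          exact mul_le_mul (p_lip hr) hz (abs_nonneg _) (by positivity)
      have h4 := norm_setIntegral_le_of_norm_le_const_ae (hV.st.fin _ hU hK) h3
      exact h4
    rw [Real.norm_eq_abs] at h2
    refine h2.trans ?_
    exact mul_le_mul_of_nonneg_left hM (by positivity)
  have m3 : |(W μ x r).toReal - (W μ x' r).toReal| ≤ 4 * d * (M * r ^ m) := by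
    rw [← w_eq measurableSet_closedBall hr (ball_subset_closedBall.trans hBK),
      ← w_eq measurableSet_closedBall hr (ball_subset_closedBall.trans hBK'), ← integral_sub i2 i2']
    have h2 : ‖∫ z in K, (p (sc x r z) ^ 2 - p (sc x' r z) ^ 2) ∂μ‖ ≤ 4 * d * μ.real K := by
      apply norm_setIntegral_le_of_norm_le_const_ae (hV.st.fin _ hU hK)
      filter_upwards with z
      rw [Real.norm_eq_abs]
      exact p_lip hr
    rw [Real.norm_eq_abs] at h2
    refine h2.trans ?_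
    exact mul_le_mul_of_nonneg_left hM (by positivity)
  have m4 : w0 m μ x₀ * r ^ m ≤ (W μ x r).toReal := by
    have := W_ge_real hV.st (hBK.trans hU) hr
    rwa [ew] at this
  have hw0 := w0_nonneg (m := m) (μ := μ) x₀
  set I1 := ∫ z in K, p (sc x r z) ^ 2 * ⟪v, z - x₀⟫ ∂μ
  set I2 := ∫ z in K, p (sc x' r z) ^ 2 * ⟪v, z - x₀⟫ ∂μ
  set Wx := (W μ x r).toReal
  set Wx' := (W μ x' r).toReal
  have m5 : |(a - a') * Wx| ≤ g * (8 * M * d + 4 * δ) * r ^ m := by
    have h1 : (a - a') * Wx = (I1 - I2) - (I1 - a * Wx) + (I2 - a' * Wx') - a' * (Wx - Wx') := by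
      ring
    have h2 : |a' * (Wx - Wx')| ≤ g * (4 * d * (M * r ^ m)) := by
      rw [abs_mul]
      exact mul_le_mul hgx' m3 (abs_nonneg _) hg
    rw [h1]
    rw [abs_le] at *
    constructor <;> nlinarith [m1.1, m1.2, m1'.1, m1'.2, m2.1, m2.2, h2.1, h2.2]
  have h6 : ⟪v, x - x'⟫ = a - a' := by
    rw [ha, ha', ← inner_sub_right]
    congr 1
    abel
  rw [h6]
  have hrm : 0 < r ^ m := by positivity
  have hW0 : 0 ≤ Wx := ENNReal.toReal_nonneg
  rw [abs_mul, abs_of_nonneg hW0] at m5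
  have h7 : (|a - a'| * w0 m μ x₀) * r ^ m ≤ (g * (8 * M * d + 4 * δ)) * r ^ m := by
    calc (|a - a'| * w0 m μ x₀) * r ^ m = |a - a'| * (w0 m μ x₀ * r ^ m) := by ring
      _ ≤ |a - a'| * Wx := mul_le_mul_of_nonneg_left m4 (abs_nonneg _)
      _ ≤ _ := m5
  exact le_of_mul_le_mul_right h7 hrm

end Pool.Agent.Q261.QS
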