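import Mathlib
import Pool.Agent.Q261.QS.Part

/-!
Infinite order of contact at points with partners.
-/

namespace Pool.Agent.Q261.QS

open MeasureTheory Set Filter Topology Metric
open Pool.Agent.TH337.VF
open scoped RealInnerProductSpace ENNReal

variable {N m : ℕ} {U : Set (E N)} {μ : Measure (E N)} {P : E N → E N →L[ℝ] E N}

lemma κ_pos : 0 < (κ m).toReal := by
  apply ENNReal.toReal_pos _ κ_ne
  unfold κ
  rw [← pos_iff_ne_zero, setLIntegral_pos_iff (by
    have := st_cont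
    fun_prop)]
  have h1 : Function.support (fun t => ENNReal.ofReal (st t) ^ m) ∩ Ioo (0:ℝ) 1 = Ioo 0 1 := by
    apply inter_eq_right.2
    intro t ht
    exact pow_ne_zero _ (ENNReal.ofReal_pos.2 (st_pos ht)).ne'
  rw [h1]
  simp

/-- the square of the height is subharmonic: sub-mean value inequality -/
lemma height_submean (hV : Vf m U μ P) {L : E N →L[ℝ] E N} (Ls : ∀ v w, ⟪L v, w⟫ = ⟪v, L w⟫)
    (Li : ∀ v, L (L v) = L v) {θ : ℝ} (hθ : 0 ≤ θ) {x₀ a : E N} {R : ℝ} (hR0 : 0 < R)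
    (hR : closedBall a R ⊆ U) (ha : ∀ r, 0 < r → r ≤ R → θ * r ^ m ≤ μ.real (ball a r)) :
    9 / 16 * (θ / 2 ^ m) * ‖L (a - x₀)‖ ^ 2 * R ^ m ≤ ∫ x in closedBall a R, ‖L (x - x₀)‖ ^ 2 ∂μ := by
  have hG0 : ContDiff ℝ 1 fun z : E N => L (z - x₀) :=
    L.contDiff.comp (contDiff_id.sub contDiff_const)
  have hf : ContDiff ℝ 1 fun z : E N => ‖L (z - x₀)‖ ^ 2 := hG0.norm_sq ℝ
  have hG : ContDiff ℝ 1 fun z : E N => (2:ℝ) • L (z - x₀) := hG0.const_smul (2:ℝ)
  have hGd : ∀ z, fderiv ℝ (fun z : E N => (2:ℝ) • L (z - x₀)) z = (2:ℝ) • L := by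
    intro z
    have h2 : HasFDerivAt (fun z => L (z - x₀)) (L ∘L ContinuousLinearMap.id ℝ (E N)) z :=
      L.hasFDerivAt.comp z ((hasFDerivAt_id z).sub_const x₀)
    exact (h2.const_smul (2:ℝ)).fderiv
  exact submean hV hf (fun x => by positivity) hG (fun y => height_deriv Ls Li x₀ y) (by
    filter_upwards with z
    rw [hGd, ContinuousLinearMap.comp_smul, trc_smul]
    have := trc_proj_nonneg (hV.sym z) (hV.idem z) Ls Li
    positivity) hθ hR0 hR ha

/-- One scale: a bound on the height on `{Θ = Q}` in a ball gives a bound on a smaller ball. -/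
lemma improve (hV : Vf m U μ P) {L : E N →L[ℝ] E N} (Ls : ∀ v w, ⟪L v, w⟫ = ⟪v, L w⟫)
    (Li : ∀ v, L (L v) = L v) {θ : ℝ} (hθ : 0 < θ)
    (hΘ : ∀ᵐ a ∂(μ.restrict U), ∀ r, 0 < r → closedBall a r ⊆ U → θ * r ^ m ≤ μ.real (ball a r))
    {x₀ : E N} {r g β ψ M : ℝ} (hr : 0 < r) (hU : closedBall x₀ (4 * r) ⊆ U)
    (hψ : 0 ≤ ψ)
    (hM : μ.real (closedBall x₀ (4 * r)) ≤ M * r ^ m) {S : Set (E N)}
    (hgae : ∀ᵐ z ∂(μ.restrict (ball x₀ r)), ‖L (z - x₀)‖ ≤ g)
    (hS : ∀ᵐ z ∂(μ.restrict (ball x₀ r)), z ∈ S → ‖L (z - x₀)‖ ≤ β * g)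
    (hSc : μ (ball x₀ r ∩ Sᶜ) ≤ ENNReal.ofReal (ψ * r ^ m)) :
    ∀ᵐ a ∂(μ.restrict (ball x₀ (r / 2))),
      9 / 16 * (θ / 2 ^ m) / 2 ^ m * ‖L (a - x₀)‖ ^ 2 ≤ (β ^ 2 * M + ψ) * g ^ 2 := by
  have hK := isCompact_closedBall x₀ (4 * r)
  have hbU : ball x₀ r ⊆ closedBall x₀ (4 * r) :=
    ball_subset_closedBall.trans (closedBall_subset_closedBall (by linarith))
  have hb2U : ball x₀ (r / 2) ⊆ U := ((ball_subset_ball (by linarith)).trans hbU).trans hU
  have hbfin : μ (ball x₀ r) ≠ ⊤ := ((measure_mono hbU).trans_lt (hV.st.fin _ hU hK)).ne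
  set Z := toMeasurable μ (ball x₀ r ∩ Sᶜ) with hZ
  have hZm : MeasurableSet Z := measurableSet_toMeasurable _ _
  have hZμ : μ Z ≤ ENNReal.ofReal (ψ * r ^ m) := by
    rw [hZ, measure_toMeasurable]
    exact hSc
  have hZr : (μ.restrict (ball x₀ r)).real Z ≤ ψ * r ^ m := by
    apply ENNReal.toReal_le_of_le_ofReal (by positivity)
    exact (Measure.restrict_apply_le _ _).trans hZμ
  have hrm : 0 < r ^ m := by positivity
  have hB : ∫ x in ball x₀ r, ‖L (x - x₀)‖ ^ 2 ∂μ ≤ (β ^ 2 * M + ψ) * g ^ 2 * r ^ m := by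
    have hfin : IsFiniteMeasure (μ.restrict (ball x₀ r)) := ⟨by
      rw [Measure.restrict_apply_univ]
      exact hbfin.lt_top⟩
    have h1 : ∫ x in ball x₀ r, ‖L (x - x₀)‖ ^ 2 ∂μ ≤
        ∫ x in ball x₀ r, ((β * g) ^ 2 + Z.indicator (fun _ => g ^ 2) x) ∂μ := by
      apply integral_mono_ae
      · exact (int_cont' hV.st hK hU (by fun_prop)).mono_set hbU
      · exact (integrable_const _).add ((integrable_const _).indicator hZm)
      · filter_upwards [hgae, hS, ae_restrict_mem measurableSet_ball] with x hx1 hx2 hx3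
        by_cases hxS : x ∈ S
        · have h3 := hx2 hxS
          have h4 : 0 ≤ Z.indicator (fun _ : E N => g ^ 2) x :=
            indicator_nonneg (fun _ _ => by positivity) _
          have h5 : ‖L (x - x₀)‖ ^ 2 ≤ (β * g) ^ 2 := by gcongr
          show ‖L (x - x₀)‖ ^ 2 ≤ (β * g) ^ 2 + Z.indicator (fun _ => g ^ 2) x
          linarith
        · have h3 : x ∈ Z := subset_toMeasurable _ _ ⟨hx3, hxS⟩
          have h5 : ‖L (x - x₀)‖ ^ 2 ≤ g ^ 2 := by gcongr
          have h6 : 0 ≤ (β * g) ^ 2 := by positivity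
          show ‖L (x - x₀)‖ ^ 2 ≤ (β * g) ^ 2 + Z.indicator (fun _ => g ^ 2) x
          rw [indicator_of_mem h3]
          linarith
    have h2 : ∫ x in ball x₀ r, ((β * g) ^ 2 + Z.indicator (fun _ => g ^ 2) x) ∂μ =
        (μ.restrict (ball x₀ r)).real univ * (β * g) ^ 2 +
          (μ.restrict (ball x₀ r)).real Z * g ^ 2 := by
      rw [integral_add (integrable_const _) ((integrable_const _).indicator hZm),
        integral_const, integral_indicator hZm, integral_const, smul_eq_mul, smul_eq_mul,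
        measureReal_restrict_apply_univ (μ := μ.restrict (ball x₀ r))]
    rw [h2] at h1
    have h3 : (μ.restrict (ball x₀ r)).real univ ≤ M * r ^ m := by
      rw [measureReal_restrict_apply_univ]
      exact (measureReal_mono hbU (hV.st.fin _ hU hK).ne).trans hM
    have h4 : (μ.restrict (ball x₀ r)).real univ * (β * g) ^ 2 ≤ M * r ^ m * (β * g) ^ 2 :=
      mul_le_mul_of_nonneg_right h3 (by positivity)
    have h5 : (μ.restrict (ball x₀ r)).real Z * g ^ 2 ≤ ψ * r ^ m * g ^ 2 :=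
      mul_le_mul_of_nonneg_right hZr (by positivity)
    calc _ ≤ _ := h1
      _ ≤ M * r ^ m * (β * g) ^ 2 + ψ * r ^ m * g ^ 2 := by linarith
      _ = _ := by ring
  filter_upwards [ae_restrict_of_ae_restrict_of_subset hb2U hΘ,
    ae_restrict_mem measurableSet_ball] with a ha1 ha2
  have hsub : closedBall a (r / 2) ⊆ ball x₀ r := by
    apply closedBall_subset_ball'
    have : dist a x₀ < r / 2 := ha2
    linarith
  have haU : closedBall a (r / 2) ⊆ U := (hsub.trans hbU).trans hU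
  have h3 := height_submean hV Ls Li (x₀ := x₀) hθ.le (show 0 < r / 2 by linarith) haU
    (fun s hs hsr => ha1 s hs ((closedBall_subset_closedBall hsr).trans haU))
  have h4 : ∫ x in closedBall a (r / 2), ‖L (x - x₀)‖ ^ 2 ∂μ ≤
      ∫ x in ball x₀ r, ‖L (x - x₀)‖ ^ 2 ∂μ := by
    apply setIntegral_mono_set ((int_cont' hV.st hK hU (by fun_prop)).mono_set hbU)
    · filter_upwards with x
      show 0 ≤ ‖L (x - x₀)‖ ^ 2
      positivity
    · exact hsub.eventuallyLE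
  have h5 : (9 / 16 * (θ / 2 ^ m) / 2 ^ m * ‖L (a - x₀)‖ ^ 2) * r ^ m ≤
      ((β ^ 2 * M + ψ) * g ^ 2) * r ^ m := by
    calc (9 / 16 * (θ / 2 ^ m) / 2 ^ m * ‖L (a - x₀)‖ ^ 2) * r ^ m
        = 9 / 16 * (θ / 2 ^ m) * ‖L (a - x₀)‖ ^ 2 * (r / 2) ^ m := by
          rw [div_pow r]
          ring
      _ ≤ _ := h3.trans (h4.trans hB)
  exact le_of_mul_le_mul_right h5 hrm

/-- from decay at all scales to the final statement -/
lemma finish {f : E N → ℝ} {x₀ : E N} {A ρ : ℝ} (hA0 : 0 ≤ A) (hρ0 : 0 < ρ) (k : ℕ)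
    (hmain : ∀ j : ℕ, ∀ r, 0 < r → 8 ^ j * r ≤ ρ →
      ∀ᵐ x ∂(μ.restrict (ball x₀ r)), f x ≤ A * (1 / 8 ^ (k + 1)) ^ j) :
    ∀ᶠ r in 𝓝[>] (0:ℝ), ∀ᵐ x ∂(μ.restrict (ball x₀ r)), f x ≤ r ^ k := by
  have hsmall : ∀ᶠ r in 𝓝[>] (0:ℝ), A * (8 / ρ) ^ (k + 1) * r ≤ 1 := by
    have h1 : Tendsto (fun r : ℝ => A * (8 / ρ) ^ (k + 1) * r) (𝓝[>] 0)
        (𝓝 (A * (8 / ρ) ^ (k + 1) * 0)) := by
      apply tendsto_nhdsWithin_of_tendsto_nhds
      exact (continuous_const.mul continuous_id).tendsto 0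
    rw [mul_zero] at h1
    filter_upwards [h1.eventually (gt_mem_nhds (show (0:ℝ) < 1 by norm_num))] with r hr
    exact hr.le
  filter_upwards [hsmall, Ioo_mem_nhdsGT hρ0] with r hr1 hr2
  have hr0 : 0 < r := hr2.1
  obtain ⟨j, hj1, hj2⟩ := exists_nat_pow_near (show (1:ℝ) ≤ ρ / r by
    rw [one_le_div hr0]
    exact hr2.2.le) (show (1:ℝ) < 8 by norm_num)
  have h1 : 8 ^ j * r ≤ ρ := by rwa [le_div_iff₀ hr0] at hj1
  filter_upwards [hmain j r hr0 h1] with x hx
  refine hx.trans ?_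
  have h2 : (1 / 8 : ℝ) ^ j ≤ 8 / ρ * r := by
    rw [div_lt_iff₀ hr0] at hj2
    rw [one_div, inv_pow, inv_le_iff_one_le_mul₀ (by positivity)]
    have h3 : ρ < 8 ^ j * (8 * r) := by
      calc ρ < 8 ^ (j + 1) * r := hj2
        _ = 8 ^ j * (8 * r) := by ring
    have h4 : 8 / ρ * r * 8 ^ j = (8 ^ j * (8 * r)) / ρ := by ring
    rw [h4, one_le_div hρ0]
    exact h3.le
  have h3 : (1 / 8 ^ (k + 1) : ℝ) ^ j = ((1 / 8 : ℝ) ^ j) ^ (k + 1) := by
    rw [← pow_mul, ← one_div_pow, ← pow_mul, mul_comm]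
  rw [h3]
  calc A * ((1 / 8 : ℝ) ^ j) ^ (k + 1) ≤ A * (8 / ρ * r) ^ (k + 1) := by gcongr
    _ = (A * (8 / ρ) ^ (k + 1) * r) * r ^ k := by
      rw [mul_pow, pow_succ r]
      ring
    _ ≤ 1 * r ^ k := mul_le_mul_of_nonneg_right hr1 (by positivity)
    _ = r ^ k := one_mul _

/-- Infinite order of contact when the points of density `Θ(x₀)` have partners. -/
theorem partners (hV : Vf m U μ P) (hU : IsOpen U)
    (h1 : ∀ᵐ x ∂(μ.restrict U), 1 ≤ density m μ x) {x₀ : E N} (hx₀ : x₀ ∈ U)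
    {L : E N →L[ℝ] E N} (Ls : ∀ v w, ⟪L v, w⟫ = ⟪v, L w⟫) (Li : ∀ v, L (L v) = L v)
    (hdens : ∀ ε : ℝ, 0 < ε → ∀ᶠ r in 𝓝[>] (0:ℝ),
      μ (ball x₀ r ∩ {x | density m μ x ≠ density m μ x₀}) ≤ ENNReal.ofReal (ε * r ^ m))
    {c : ℝ} (hc : 0 < c)
    (hpart : ∀ η : ℝ, 0 < η → ∀ᶠ r in 𝓝[>] (0:ℝ), ∀ᵐ x ∂(μ.restrict (ball x₀ r)),
      density m μ x = density m μ x₀ → ∃ x', density m μ x' = density m μ x₀ ∧
        ‖x - x'‖ ≤ η * r ∧ c * ‖L (x - x₀)‖ ≤ ‖L (x - x')‖) (k : ℕ) :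
    ∀ᶠ r in 𝓝[>] (0:ℝ), ∀ᵐ x ∂(μ.restrict (ball x₀ r)), ‖L (x - x₀)‖ ≤ r ^ k := by
  set θ := (volume (ball (0 : EuclideanSpace ℝ (Fin m)) 1)).toReal with hθdef
  have hθ : 0 < θ := omega_real_pos m
  have hκ := κ_pos (m := m)
  have hΘ : ∀ᵐ a ∂(μ.restrict U), ∀ r, 0 < r → closedBall a r ⊆ U →
      θ * r ^ m ≤ μ.real (ball a r) := by
    filter_upwards [h1] with a ha r hr haU
    exact lowmass hV.st ha hr haU
  set ww : ℝ := θ * (κ m).toReal with hww
  have hww0 : 0 < ww := by positivity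
  obtain ⟨R₀, hR₀, hR₀U⟩ := Metric.nhds_basis_closedBall.mem_iff.1 (hU.mem_nhds hx₀)
  obtain ⟨C₁, hC₁, hupper⟩ := upper hV.st (show 0 < R₀ / 2 by linarith) (by
    rw [show 2 * (R₀ / 2) = R₀ by ring]
    exact hR₀U)
  set M : ℝ := C₁ + 1 with hM
  have hM0 : 0 < M := by positivity
  set q : ℝ := 1 / 8 ^ (k + 1) with hq
  have hq0 : 0 < q := by positivity
  set c₂ : ℝ := 9 / 16 * (θ / 2 ^ m) / 2 ^ m with hc₂
  have hc₂0 : 0 < c₂ := by positivity
  set β : ℝ := min 1 (c₂ * q ^ 2 / (2 * M)) with hβ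
  have hβ0 : 0 < β := lt_min one_pos (by positivity)
  have hβM : β ^ 2 * M ≤ c₂ * q ^ 2 / 2 := by
    have h2 : β ≤ 1 := min_le_left _ _
    have h3 : β ≤ c₂ * q ^ 2 / (2 * M) := min_le_right _ _
    have h4 : β ^ 2 ≤ β := by nlinarith
    calc β ^ 2 * M ≤ c₂ * q ^ 2 / (2 * M) * M :=
          mul_le_mul_of_nonneg_right (h4.trans h3) hM0.le
      _ = c₂ * q ^ 2 / 2 := by field_simp
  set ψ : ℝ := c₂ * q ^ 2 / 2 with hψ
  have hψ0 : 0 < ψ := by positivity
  set η : ℝ := min 1 (c * ww * β / (16 * M)) with hη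
  have hη0 : 0 < η := lt_min one_pos (by positivity)
  have hη1 : η ≤ 1 := min_le_left _ _
  set δ : ℝ := c * ww * β / 8 with hδ
  have hδ0 : 0 < δ := by positivity
  have hηδ : 8 * M * η + 4 * δ ≤ c * ww * β := by
    have h3 : η ≤ c * ww * β / (16 * M) := min_le_right _ _
    have h4 : 8 * M * η ≤ 8 * M * (c * ww * β / (16 * M)) :=
      mul_le_mul_of_nonneg_left h3 (by positivity)
    have h5 : 8 * M * (c * ww * β / (16 * M)) = c * ww * β / 2 := by
      field_simp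
      ring
    rw [hδ]
    linarith
  obtain ⟨r₀, hr₀, hr₀U, hratio⟩ := ratio_near hV.st hU hx₀ hδ0
  obtain ⟨δ₁, hδ₁, hd⟩ := ev (hdens ψ hψ0)
  obtain ⟨δ₂, hδ₂, hp⟩ := ev (hpart η hη0)
  set ρ : ℝ := min (min (R₀ / 10) (r₀ / 2)) (min (δ₁ / 2) (δ₂ / 2)) with hρ
  have hρ0 : 0 < ρ := lt_min (lt_min (by linarith) (by linarith)) (lt_min (by linarith) (by linarith))
  have hρ1 : ρ ≤ R₀ / 10 := (min_le_left _ _).trans (min_le_left _ _)
  have hρ2 : ρ ≤ r₀ / 2 := (min_le_left _ _).trans (min_le_right _ _)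
  have hρ3 : ρ ≤ δ₁ / 2 := (min_le_right _ _).trans (min_le_left _ _)
  have hρ4 : ρ ≤ δ₂ / 2 := (min_le_right _ _).trans (min_le_right _ _)
  apply finish hρ0.le hρ0 k
  intro j
  induction j with
  | zero =>
    intro r hr hrρ
    filter_upwards [ae_restrict_mem measurableSet_ball] with x hx
    have h2 : ‖x - x₀‖ < r := by rwa [mem_ball, dist_eq_norm] at hx
    have h3 : r ≤ ρ := by simpa using hrρ
    rw [pow_zero, mul_one]
    have := proj_norm_le Ls Li (x - x₀)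
    linarith
  | succ j ih =>
    intro r' hr' hrρ'
    set r := 2 * r' with hrdef
    have hr : 0 < r := by positivity
    have h8rρ : 8 ^ j * (4 * r) ≤ ρ := by
      calc (8:ℝ) ^ j * (4 * r) = 8 ^ (j + 1) * r' := by
            rw [hrdef]
            ring
        _ ≤ ρ := hrρ'
    have hB := ih (4 * r) (by positivity) h8rρ
    have h1j : (1:ℝ) ≤ 8 ^ j := one_le_pow₀ (by norm_num)
    have h4ρ : 4 * r ≤ ρ := by nlinarith
    set g : ℝ := ρ * (1 / 8 ^ (k + 1)) ^ j with hg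
    have hg0 : 0 ≤ g := by positivity
    have h4U : closedBall x₀ (4 * r) ⊆ U :=
      (closedBall_subset_closedBall (by linarith)).trans hR₀U
    have hMr : μ.real (closedBall x₀ (4 * r)) ≤ M * r ^ m := by
      apply ENNReal.toReal_le_of_le_ofReal (by positivity)
      refine (measure_mono (closedBall_subset_closedBall (show 4 * r ≤ 5 * r by linarith))).trans
        ((hupper x₀ (mem_ball_self (by linarith)) r hr (by linarith)).trans ?_)
      apply ENNReal.ofReal_le_ofReal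
      have : 0 < r ^ m := by positivity
      rw [hM]
      nlinarith
    have hSae : ∀ᵐ z ∂(μ.restrict (ball x₀ r)), z ∈ {x | density m μ x = density m μ x₀} →
        ‖L (z - x₀)‖ ≤ β * g := by
      have hbU : ball x₀ r ⊆ U :=
        (ball_subset_closedBall.trans (closedBall_subset_closedBall (by linarith))).trans h4U
      have h4bU : ball x₀ (4 * r) ⊆ U := ball_subset_closedBall.trans h4U
      filter_upwards [hp r hr (by linarith), ae_restrict_of_ae_restrict_of_subset hbU h1,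
        ae_restrict_mem measurableSet_ball] with x hx1 hx2 hx3 hx4
      obtain ⟨x', hx'1, hx'2, hx'3⟩ := hx1 hx4
      have hx4' : density m μ x = density m μ x₀ := hx4
      have hQ1 : 1 ≤ density m μ x₀ := by rw [← hx4']; exact hx2
      have hxn : dist x x₀ < r := hx3
      have hx'n : dist x' x₀ < 2 * r := by
        have h4 : dist x' x₀ ≤ dist x' x + dist x x₀ := dist_triangle _ _ _
        have h5 : dist x' x ≤ η * r := by
          rw [dist_comm, dist_eq_norm]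
          exact hx'2
        nlinarith
      set v := L (x - x') with hv
      have hlin : ∀ z, |⟪v, z⟫| ≤ ‖v‖ * ‖L z‖ := by
        intro z
        have h5 : ⟪v, z⟫ = ⟪v, L z⟫ := by
          rw [← Ls v z, hv, Li]
        rw [h5]
        exact abs_real_inner_le_norm _ _
      have hgv : ∀ᵐ z ∂(μ.restrict (ball x₀ (4 * r))), |⟪v, z - x₀⟫| ≤ ‖v‖ * g := by
        filter_upwards [hB] with z hz
        exact (hlin _).trans (mul_le_mul_of_nonneg_left hz (norm_nonneg _))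
      have hcontL : Continuous fun z : E N => ‖L (z - x₀)‖ := by fun_prop
      have hgx : ‖L (x - x₀)‖ ≤ g := supp_bound hV.st h4bU
        (show x ∈ ball x₀ (4 * r) from lt_of_lt_of_le hxn (by linarith)) hx2 hcontL hB
      have hgx' : ‖L (x' - x₀)‖ ≤ g := supp_bound hV.st h4bU
        (show x' ∈ ball x₀ (4 * r) from lt_of_lt_of_le hx'n (by linarith))
        (by rw [hx'1]; exact hQ1) hcontL hB
      have hcmp := compare hV (v := v) (g := ‖v‖ * g) (δ := δ) (M := M) hr h4U hx3 hx'n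
        (by positivity) hδ0.le hMr hx4' hx'1 hgv
        ((hlin _).trans (mul_le_mul_of_nonneg_left hgx (norm_nonneg _)))
        ((hlin _).trans (mul_le_mul_of_nonneg_left hgx' (norm_nonneg _)))
        (hratio x (lt_of_lt_of_le hxn (by linarith)) r hr (by linarith))
        (hratio x' (lt_of_lt_of_le hx'n (by linarith)) r hr (by linarith))
      have h5 : ⟪v, x - x'⟫ = ‖v‖ ^ 2 := by
        calc ⟪v, x - x'⟫ = ⟪L (L (x - x')), x - x'⟫ := by rw [hv, Li]
          _ = ⟪L (x - x'), L (x - x')⟫ := Ls _ _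
          _ = ‖v‖ ^ 2 := real_inner_self_eq_norm_sq _
      have hw : ww ≤ w0 m μ x₀ := by
        unfold w0
        have h6 : 1 ≤ (density m μ x₀).toReal := by
          rw [← ENNReal.toReal_one]
          exact ENNReal.toReal_mono (density_lt_top hV.st hU hx₀) hQ1
        rw [hww]
        have h7 : 0 < θ * (κ m).toReal := by positivity
        calc θ * (κ m).toReal = 1 * (θ * (κ m).toReal) := by ring
          _ ≤ (density m μ x₀).toReal * (θ * (κ m).toReal) :=
            mul_le_mul_of_nonneg_right h6 h7.le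
          _ = _ := by ring
      rw [h5, abs_of_nonneg (by positivity)] at hcmp
      by_cases hv0 : ‖v‖ = 0
      · have h6 : c * ‖L (x - x₀)‖ ≤ 0 := by
          rw [← hv0]
          exact hx'3
        have h7 : 0 ≤ ‖L (x - x₀)‖ := norm_nonneg _
        have h8 : ‖L (x - x₀)‖ ≤ 0 := by
          by_contra hcon
          push Not at hcon
          have := mul_pos hc hcon
          linarith
        exact h8.trans (by positivity)
      · have hvpos : 0 < ‖v‖ := lt_of_le_of_ne (norm_nonneg _) (Ne.symm hv0)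
        have h6 : ‖x - x'‖ / r ≤ η := by
          rw [div_le_iff₀ hr]
          exact hx'2
        have h7 : ‖v‖ ^ 2 * ww ≤ ‖v‖ * g * (c * ww * β) := by
          calc ‖v‖ ^ 2 * ww ≤ ‖v‖ ^ 2 * w0 m μ x₀ := by gcongr
            _ ≤ ‖v‖ * g * (8 * M * (‖x - x'‖ / r) + 4 * δ) := hcmp
            _ ≤ ‖v‖ * g * (8 * M * η + 4 * δ) := by gcongr
            _ ≤ ‖v‖ * g * (c * ww * β) := by gcongr
        have h8 : ‖v‖ * (‖v‖ * ww) ≤ ‖v‖ * (g * (c * ww * β)) := by nlinarith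
        have h9 : ‖v‖ * ww ≤ g * (c * ww * β) := le_of_mul_le_mul_left h8 hvpos
        have h10 : c * ww * ‖L (x - x₀)‖ ≤ c * ww * (β * g) := by
          calc c * ww * ‖L (x - x₀)‖ = (c * ‖L (x - x₀)‖) * ww := by ring
            _ ≤ ‖v‖ * ww := mul_le_mul_of_nonneg_right hx'3 hww0.le
            _ ≤ g * (c * ww * β) := h9
            _ = _ := by ring
        exact le_of_mul_le_mul_left h10 (by positivity)
    have himp := improve hV Ls Li hθ hΘ (x₀ := x₀) (r := r) (g := g) (β := β) (ψ := ψ) (M := M)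
      (S := {x | density m μ x = density m μ x₀}) hr h4U hψ0.le hMr
      (ae_restrict_of_ae_restrict_of_subset (ball_subset_ball (by linarith)) hB) hSae
      (hd r hr (by linarith))
    rw [show r / 2 = r' by rw [hrdef]; ring] at himp
    filter_upwards [himp] with a ha
    have h5 : c₂ * ‖L (a - x₀)‖ ^ 2 ≤ c₂ * (q * g) ^ 2 := by
      calc c₂ * ‖L (a - x₀)‖ ^ 2 ≤ (β ^ 2 * M + ψ) * g ^ 2 := ha
        _ ≤ (c₂ * q ^ 2 / 2 + c₂ * q ^ 2 / 2) * g ^ 2 := by
          apply mul_le_mul_of_nonneg_right _ (by positivity)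
          linarith
        _ = c₂ * (q * g) ^ 2 := by ring
    have h6 := le_of_mul_le_mul_left h5 hc₂0
    have h7 := (pow_le_pow_iff_left₀ (norm_nonneg _) (by positivity) two_ne_zero).1 h6
    refine h7.trans (le_of_eq ?_)
    rw [hg, pow_succ]
    ring

end Pool.Agent.Q261.QS
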