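import Mathlib
import Pool.Agent.Q261.QS.Partner

/-!
One-sided contact of order `k` with a hyperplane implies two-sided contact of order `k`.
-/

namespace Pool.Agent.Q261.QS

open MeasureTheory Set Filter Topology Metric
open Pool.Agent.TH337.VF
open Pool.Agent.Q261.QV (p sc rf rv wt2 wt3 hasFDerivAt_rf rf_contDiff rf_zero p_nonneg p_le_one p_zero p_pos
  p_quarter p_cont sc_cont sc_nonneg sc_ge sc_ge' sc_lt sc_quarter wp sc_contDiff)
open scoped RealInnerProductSpace ENNReal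

variable {N m : ℕ} {U : Set (E N)} {μ : Measure (E N)} {P : E N → E N →L[ℝ] E N}

/-- from decay at all scales to the final statement -/
lemma finishk {f : E N → ℝ} {x₀ : E N} {A ρ b : ℝ} (hb : 1 < b) (hA0 : 0 ≤ A) (hρ0 : 0 < ρ) (k : ℕ)
    (hmain : ∀ j : ℕ, ∀ r, 0 < r → b ^ j * r ≤ ρ →
      ∀ᵐ x ∂(μ.restrict (ball x₀ r)), f x ≤ A * (1 / b ^ k) ^ j) :
    ∀ r, 0 < r → r ≤ ρ → ∀ᵐ x ∂(μ.restrict (ball x₀ r)), f x ≤ A * (b / ρ) ^ k * r ^ k := by
  intro r hr0 hrρ
  have hb0 : 0 < b := by linarith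
  obtain ⟨j, hj1, hj2⟩ := exists_nat_pow_near (show (1:ℝ) ≤ ρ / r by
    rw [one_le_div hr0]
    exact hrρ) hb
  have h1 : b ^ j * r ≤ ρ := by rwa [le_div_iff₀ hr0] at hj1
  filter_upwards [hmain j r hr0 h1] with x hx
  refine hx.trans ?_
  have h2 : (1 / b : ℝ) ^ j ≤ b / ρ * r := by
    rw [div_lt_iff₀ hr0] at hj2
    rw [one_div, inv_pow, inv_le_iff_one_le_mul₀ (by positivity)]
    have h3 : ρ < b ^ j * (b * r) := by
      calc ρ < b ^ (j + 1) * r := hj2
        _ = b ^ j * (b * r) := by ring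
    have h4 : b / ρ * r * b ^ j = (b ^ j * (b * r)) / ρ := by ring
    rw [h4, one_le_div hρ0]
    exact h3.le
  have h3 : (1 / b ^ k : ℝ) ^ j = ((1 / b : ℝ) ^ j) ^ k := by
    rw [← pow_mul, ← one_div_pow, ← pow_mul, mul_comm]
  rw [h3]
  calc A * ((1 / b : ℝ) ^ j) ^ k ≤ A * (b / ρ * r) ^ k := by gcongr
    _ = A * (b / ρ) ^ k * r ^ k := by
      rw [mul_pow]
      ring

/-- sub-mean value inequality for the cube of the positive part of `⟪v, x - x₀⟫ - s` -/
lemma pos_submean (hV : Vf m U μ P) {θ : ℝ} (hθ : 0 ≤ θ) {x₀ v a : E N} {s R : ℝ} (hR0 : 0 < R)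
    (hR : closedBall a R ⊆ U) (ha : ∀ r, 0 < r → r ≤ R → θ * r ^ m ≤ μ.real (ball a r)) :
    9 / 16 * (θ / 2 ^ m) * p (1 + s - ⟪v, a - x₀⟫) ^ 3 * R ^ m ≤
      ∫ x in closedBall a R, p (1 + s - ⟪v, x - x₀⟫) ^ 3 ∂μ := by
  have hlin : ContDiff ℝ 1 fun x : E N => 1 + s - ⟪v, x - x₀⟫ :=
    contDiff_const.sub ((innerSL ℝ v).contDiff.comp (contDiff_id.sub contDiff_const))
  have hf : ContDiff ℝ 1 fun x : E N => p (1 + s - ⟪v, x - x₀⟫) ^ 3 := wt3.contDiff.comp hlin
  have hG : ContDiff ℝ 1 fun x : E N => (3 * p (1 + s - ⟪v, x - x₀⟫) ^ 2) • v :=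
    (contDiff_const.mul (wt2.contDiff.comp hlin)).smul contDiff_const
  have hd0 : ∀ y, HasFDerivAt (fun x => 1 + s - (innerSL ℝ v) (x - x₀))
      (-((innerSL ℝ v) ∘L ContinuousLinearMap.id ℝ (E N))) y := fun y =>
    ((innerSL ℝ v).hasFDerivAt.comp y ((hasFDerivAt_id y).sub_const x₀)).const_sub (1 + s)
  have hd1 : ∀ y, HasFDerivAt (fun x => p (1 + s - ⟪v, x - x₀⟫) ^ 3)
      (innerSL ℝ ((3 * p (1 + s - ⟪v, y - x₀⟫) ^ 2) • v)) y := by
    intro y
    have h2 := (wt3.der (1 + s - ⟪v, y - x₀⟫)).comp_hasFDerivAt y (hd0 y)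
    refine h2.congr_fderiv ?_
    ext w
    simp
  have hd2 : ∀ y, HasFDerivAt (fun x => (3 * p (1 + s - ⟪v, x - x₀⟫) ^ 2) • v)
      ((6 * p (1 + s - ⟪v, y - x₀⟫)) • (innerSL ℝ v).smulRight v) y := by
    intro y
    have h2 := (wt2.der (1 + s - ⟪v, y - x₀⟫)).comp_hasFDerivAt y (hd0 y)
    have h3 := (h2.const_mul 3).smul_const v
    refine h3.congr_fderiv ?_
    ext w
    simp
    ring
  exact submean hV hf (fun x => by
    have := p_nonneg (1 + s - ⟪v, x - x₀⟫)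
    positivity) hG hd1 (by
    filter_upwards with z
    rw [(hd2 z).fderiv, ContinuousLinearMap.comp_smul, trc_smul, trc_rank, innerSL_apply_apply]
    have h4 : ⟪v, P z v⟫ = ‖P z v‖ ^ 2 := by
      rw [← real_inner_self_eq_norm_sq, hV.sym, hV.idem]
    rw [h4]
    have := p_nonneg (1 + s - ⟪v, z - x₀⟫)
    positivity) hθ hR0 hR ha

/-- the upper bound -/
lemma upper_order (hV : Vf m U μ P) (hU : IsOpen U) {θ : ℝ} (hθ : 0 < θ)
    (hΘ : ∀ᵐ a ∂(μ.restrict U), ∀ r, 0 < r → closedBall a r ⊆ U → θ * r ^ m ≤ μ.real (ball a r))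
    {x₀ : E N} (hx₀ : x₀ ∈ U) {v : E N} {C : ℝ} (hC : 0 ≤ C) (k : ℕ)
    (hd : ∀ ε : ℝ, 0 < ε → ∀ᶠ r in 𝓝[>] (0:ℝ),
      μ (ball x₀ r ∩ {x | C * r ^ k < ⟪v, x - x₀⟫}) ≤ ENNReal.ofReal (ε * r ^ m)) :
    ∃ A₁ ρ : ℝ, 0 ≤ A₁ ∧ 0 < ρ ∧ ∀ r, 0 < r → r ≤ ρ →
      ∀ᵐ x ∂(μ.restrict (ball x₀ r)), ⟪v, x - x₀⟫ ≤ A₁ * r ^ k := by
  obtain ⟨R₀, hR₀, hR₀U⟩ := Metric.nhds_basis_closedBall.mem_iff.1 (hU.mem_nhds hx₀)
  set q : ℝ := 1 / 2 ^ k with hq
  have hq0 : 0 < q := by positivity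
  set c : ℝ := 9 / 16 * (θ / 2 ^ m) with hc
  have hc0 : 0 < c := by positivity
  set ε : ℝ := c * (q / 2) ^ 3 / 2 ^ m with hε
  have hε0 : 0 < ε := by positivity
  obtain ⟨δ, hδ, hde⟩ := ev (hd ε hε0)
  set ρ : ℝ := min R₀ (δ / 2) with hρ
  have hρ0 : 0 < ρ := lt_min hR₀ (by linarith)
  have hρR : ρ ≤ R₀ := min_le_left _ _
  have hρδ : ρ ≤ δ / 2 := min_le_right _ _
  set A : ℝ := max (‖v‖ * ρ) (2 * C * ρ ^ k / q) with hA
  have hA1 : ‖v‖ * ρ ≤ A := le_max_left _ _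
  have hA2 : 2 * C * ρ ^ k / q ≤ A := le_max_right _ _
  have hA0 : 0 ≤ A := le_trans (by positivity) hA1
  rw [div_le_iff₀ hq0] at hA2
  refine ⟨A * (2 / ρ) ^ k, ρ, by positivity, hρ0, ?_⟩
  apply finishk (by norm_num) hA0 hρ0 k
  intro j
  induction j with
  | zero =>
    intro r hr hrρ
    filter_upwards [ae_restrict_mem measurableSet_ball] with x hx
    have h1 : ‖x - x₀‖ < r := by rwa [mem_ball, dist_eq_norm] at hx
    have h3 : r ≤ ρ := by simpa using hrρ
    rw [pow_zero, mul_one]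
    refine (real_inner_le_norm v (x - x₀)).trans (le_trans ?_ hA1)
    exact mul_le_mul_of_nonneg_left (by linarith) (norm_nonneg _)
  | succ j ih =>
    intro r hr hrρ
    have h2r : 0 < 2 * r := by linarith
    have h2rρ : 2 ^ j * (2 * r) ≤ ρ := by
      calc (2:ℝ) ^ j * (2 * r) = 2 ^ (j + 1) * r := by ring
        _ ≤ ρ := hrρ
    have hB := ih (2 * r) h2r h2rρ
    have h1j : (1:ℝ) ≤ 2 ^ j := one_le_pow₀ (by norm_num)
    have h2ρ : 2 * r ≤ ρ := by nlinarith
    have hKU : closedBall x₀ (2 * r) ⊆ U :=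
      (closedBall_subset_closedBall (h2ρ.trans hρR)).trans hR₀U
    have hK := isCompact_closedBall x₀ (2 * r)
    have hballU : ball x₀ (2 * r) ⊆ U := ball_subset_closedBall.trans hKU
    have hmass := hde (2 * r) h2r (by linarith)
    set s : ℝ := C * ρ ^ k * q ^ j with hs
    have hs0 : 0 ≤ s := by positivity
    have hs1 : C * (2 * r) ^ k ≤ s := by
      have h1 : 2 * r ≤ ρ / 2 ^ j := by
        rw [le_div_iff₀ (by positivity)]
        linarith
      calc C * (2 * r) ^ k ≤ C * (ρ / 2 ^ j) ^ k := by gcongr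
        _ = s := by
          rw [hs, hq, div_pow, ← pow_mul, one_div_pow, ← pow_mul, mul_comm k j]
          ring
    set B : ℝ := A * q ^ j with hBdef
    have hB0 : 0 ≤ B := by positivity
    set S : Set (E N) := {x | s < ⟪v, x - x₀⟫} with hSdef
    have hSm : MeasurableSet S := by
      apply measurableSet_lt measurable_const
      have : Continuous fun x : E N => ⟪v, x - x₀⟫ := by fun_prop
      exact this.measurable
    have hSμ : μ (ball x₀ (2 * r) ∩ S) ≤ ENNReal.ofReal (ε * (2 * r) ^ m) := by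
      refine (measure_mono ?_).trans hmass
      rintro x ⟨hx1, hx2⟩
      have hx2' : s < ⟪v, x - x₀⟫ := hx2
      exact ⟨hx1, lt_of_le_of_lt hs1 hx2'⟩
    have hSr : μ.real (ball x₀ (2 * r) ∩ S) ≤ ε * (2 * r) ^ m :=
      ENNReal.toReal_le_of_le_ofReal (by positivity) hSμ
    have hpc : Continuous p := p_cont
    filter_upwards [ae_restrict_of_ae_restrict_of_subset
      ((ball_subset_ball (show r ≤ 2 * r by linarith)).trans hballU) hΘ,
      ae_restrict_mem measurableSet_ball] with a ha1 ha2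
    have hsub2 : closedBall a r ⊆ ball x₀ (2 * r) := by
      apply closedBall_subset_ball'
      have : dist a x₀ < r := ha2
      linarith
    have haU : closedBall a r ⊆ U := hsub2.trans hballU
    have h3 := pos_submean hV (x₀ := x₀) (v := v) (s := s) hθ.le hr haU
      (fun t ht htr => ha1 t ht ((closedBall_subset_closedBall htr).trans haU))
    have hfin := fin_restrict hV.st hK hKU
    have i1 : IntegrableOn (fun x => p (1 + s - ⟪v, x - x₀⟫) ^ 3) (closedBall x₀ (2 * r)) μ :=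
      int_cont' hV.st hK hKU (by fun_prop)
    have hfinb : IsFiniteMeasure (μ.restrict (ball x₀ (2 * r))) := ⟨by
      rw [Measure.restrict_apply_univ]
      exact (measure_mono ball_subset_closedBall).trans_lt (hV.st.fin _ hKU hK)⟩
    have h4 : ∫ x in closedBall a r, p (1 + s - ⟪v, x - x₀⟫) ^ 3 ∂μ ≤
        B ^ 3 * (ε * (2 * r) ^ m) := by
      calc ∫ x in closedBall a r, p (1 + s - ⟪v, x - x₀⟫) ^ 3 ∂μ
          ≤ ∫ x in ball x₀ (2 * r), p (1 + s - ⟪v, x - x₀⟫) ^ 3 ∂μ := by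
            apply setIntegral_mono_set (i1.mono_set ball_subset_closedBall)
            · filter_upwards with x
              have := p_nonneg (1 + s - ⟪v, x - x₀⟫)
              show 0 ≤ p (1 + s - ⟪v, x - x₀⟫) ^ 3
              positivity
            · exact hsub2.eventuallyLE
        _ ≤ ∫ x in ball x₀ (2 * r), S.indicator (fun _ => B ^ 3) x ∂μ := by
            apply integral_mono_ae (i1.mono_set ball_subset_closedBall)
              ((integrable_const _).indicator hSm)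
            filter_upwards [hB] with x hx
            by_cases hxS : x ∈ S
            · rw [indicator_of_mem hxS]
              have h5 : p (1 + s - ⟪v, x - x₀⟫) ≤ B := by
                unfold p
                apply max_le hB0
                linarith
              have h6 := p_nonneg (1 + s - ⟪v, x - x₀⟫)
              show p (1 + s - ⟪v, x - x₀⟫) ^ 3 ≤ B ^ 3
              gcongr
            · rw [indicator_of_notMem hxS]
              have h5 : ⟪v, x - x₀⟫ ≤ s := not_lt.1 hxS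
              rw [p_zero (by linarith)]
              norm_num
        _ = B ^ 3 * μ.real (ball x₀ (2 * r) ∩ S) := by
            rw [integral_indicator hSm, Measure.restrict_restrict hSm, setIntegral_const,
              smul_eq_mul, mul_comm, inter_comm]
        _ ≤ B ^ 3 * (ε * (2 * r) ^ m) := mul_le_mul_of_nonneg_left hSr (by positivity)
    have h5 : (c * p (1 + s - ⟪v, a - x₀⟫) ^ 3) * r ^ m ≤ (c * (q / 2 * B) ^ 3) * r ^ m := by
      calc (c * p (1 + s - ⟪v, a - x₀⟫) ^ 3) * r ^ m ≤ B ^ 3 * (ε * (2 * r) ^ m) := h3.trans h4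
        _ = _ := by
          rw [hε, mul_pow 2 r]
          field_simp
    have h6 := le_of_mul_le_mul_left (le_of_mul_le_mul_right h5 (by positivity)) hc0
    have h7 := (pow_le_pow_iff_left₀ (p_nonneg _) (by positivity) three_ne_zero).1 h6
    have h8 : ⟪v, a - x₀⟫ - s ≤ p (1 + s - ⟪v, a - x₀⟫) := by
      unfold p
      refine le_trans (le_of_eq ?_) (le_max_right _ _)
      ring
    have h9 : ⟪v, a - x₀⟫ ≤ s + q / 2 * B := by linarith
    refine h9.trans ?_
    rw [hs, hBdef, pow_succ]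
    have hqj : 0 < q ^ j := by positivity
    have h10 : C * ρ ^ k * q ^ j + q / 2 * (A * q ^ j) = (C * ρ ^ k + q / 2 * A) * q ^ j := by ring
    have h11 : A * (q ^ j * q) = (A * q) * q ^ j := by ring
    rw [h10, h11]
    apply mul_le_mul_of_nonneg_right _ hqj.le
    linarith

/-- One-sided contact of order `k` (up to a set of density zero) implies contact of order `k`. -/
theorem order (hV : Vf m U μ P) (hU : IsOpen U)
    (hΘ1 : ∀ᵐ x ∂(μ.restrict U), 1 ≤ density m μ x) {x₀ : E N} (hx₀ : x₀ ∈ U) {v : E N} {C : ℝ}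
    (hC : 0 ≤ C) (k : ℕ)
    (hd : ∀ ε : ℝ, 0 < ε → ∀ᶠ r in 𝓝[>] (0:ℝ),
      μ (ball x₀ r ∩ {x | C * r ^ k < ⟪v, x - x₀⟫}) ≤ ENNReal.ofReal (ε * r ^ m)) :
    ∃ C' ρ : ℝ, 0 < ρ ∧ ∀ r, 0 < r → r ≤ ρ →
      ∀ᵐ x ∂(μ.restrict (ball x₀ r)), |⟪v, x - x₀⟫| ≤ C' * r ^ k := by
  set θ := (volume (ball (0 : EuclideanSpace ℝ (Fin m)) 1)).toReal with hθdef
  have hθ : 0 < θ := omega_real_pos m
  have hΘ : ∀ᵐ a ∂(μ.restrict U), ∀ r, 0 < r → closedBall a r ⊆ U →
      θ * r ^ m ≤ μ.real (ball a r) := by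
    filter_upwards [hΘ1] with a ha r hr haU
    exact lowmass hV.st ha hr haU
  obtain ⟨A₁, ρ₁, hA₁, hρ₁, hup⟩ := upper_order hV hU hθ hΘ hx₀ hC k hd
  set q : ℝ := 1 / 8 ^ k with hq
  have hq0 : 0 < q := by positivity
  set Ca : ℝ := 16 / 9 / (9 / 16 * (θ / 2 ^ m) / 4 ^ m) with hCa
  have hCa0 : 0 < Ca := by positivity
  set e : ℝ := q ^ 2 / (2 * Ca) with he
  have he0 : 0 < e := by positivity
  have hCe : Ca * e = q ^ 2 / 2 := by
    rw [he]
    field_simp
  obtain ⟨ρ₀, hρ₀, hρ₀U, hratio⟩ := ratio_small hV.st hU hx₀ he0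
  set M : ℝ := w0 m μ x₀ + e with hM
  have hM0 : 0 < M := by
    have := w0_nonneg (m := m) (μ := μ) x₀
    linarith
  set ρ : ℝ := min ρ₀ ρ₁ with hρ
  have hρ0 : 0 < ρ := lt_min hρ₀ hρ₁
  have hρρ₀ : ρ ≤ ρ₀ := min_le_left _ _
  have hρρ₁ : ρ ≤ ρ₁ := min_le_right _ _
  set A : ℝ := max (‖v‖ * ρ) (4 * M * Ca * (A₁ * ρ ^ k) / q ^ 2) with hA
  have hA1 : ‖v‖ * ρ ≤ A := le_max_left _ _
  have hA2 : 4 * M * Ca * (A₁ * ρ ^ k) / q ^ 2 ≤ A := le_max_right _ _
  have hA0 : 0 ≤ A := le_trans (by positivity) hA1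
  rw [div_le_iff₀ (by positivity)] at hA2
  refine ⟨A * (8 / ρ) ^ k, ρ, hρ0, ?_⟩
  apply finishk (by norm_num) hA0 hρ0 k
  intro j
  induction j with
  | zero =>
    intro r hr hrρ
    filter_upwards [ae_restrict_mem measurableSet_ball] with x hx
    have h1 : ‖x - x₀‖ < r := by rwa [mem_ball, dist_eq_norm] at hx
    have h3 : r ≤ ρ := by simpa using hrρ
    rw [pow_zero, mul_one]
    refine (abs_real_inner_le_norm v (x - x₀)).trans (le_trans ?_ hA1)
    exact mul_le_mul_of_nonneg_left (by linarith) (norm_nonneg _)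
  | succ j ih =>
    intro r hr hrρ
    have h8r : 0 < 8 * r := by linarith
    have h8rρ : 8 ^ j * (8 * r) ≤ ρ := by
      calc (8:ℝ) ^ j * (8 * r) = 8 ^ (j + 1) * r := by ring
        _ ≤ ρ := hrρ
    have hB := ih (8 * r) h8r h8rρ
    have h1j : (1:ℝ) ≤ 8 ^ j := one_le_pow₀ (by norm_num)
    have h8ρ : 8 * r ≤ ρ := by nlinarith
    have hsub : closedBall x₀ (4 * r) ⊆ ball x₀ (8 * r) := closedBall_subset_ball (by linarith)
    have hU4 : closedBall x₀ (4 * r) ⊆ U :=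
      (closedBall_subset_closedBall (by linarith)).trans hρ₀U
    have hp := hup (8 * r) h8r (by linarith)
    have hs1 : A₁ * (8 * r) ^ k ≤ A₁ * ρ ^ k * q ^ j := by
      have h1 : 8 * r ≤ ρ / 8 ^ j := by
        rw [le_div_iff₀ (by positivity)]
        linarith
      calc A₁ * (8 * r) ^ k ≤ A₁ * (ρ / 8 ^ j) ^ k := by gcongr
        _ = A₁ * ρ ^ k * q ^ j := by
          rw [hq, div_pow, ← pow_mul, one_div_pow, ← pow_mul, mul_comm k j]
          ring
    have hstep := step hV hθ hΘ (v := v) (R := 4 * r) (g := A * q ^ j)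
      (s := A₁ * ρ ^ k * q ^ j) (e := e) (by positivity) hU4 (by positivity) (by positivity)
      (ae_restrict_of_ae_restrict_of_subset hsub hB)
      (by
        filter_upwards [ae_restrict_of_ae_restrict_of_subset hsub hp] with x hx
        exact hx.trans hs1)
      (hratio (4 * r) (by positivity) (by linarith))
    rw [show 4 * r / 4 = r by ring] at hstep
    filter_upwards [hstep] with a ha
    have hrm : 0 < r ^ m := by positivity
    have h2 : 9 / 16 * (θ / 2 ^ m) * ⟪v, a - x₀⟫ ^ 2 * r ^ m =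
        (9 / 16 * (θ / 2 ^ m) / 4 ^ m * ⟪v, a - x₀⟫ ^ 2) * (4 * r) ^ m := by
      rw [mul_pow]
      field_simp
    rw [h2] at ha
    have h3 : A * q ^ j * (16 / 9 * ((2 * (A₁ * ρ ^ k * q ^ j) * (w0 m μ x₀ + e) +
        A * q ^ j * e) * (4 * r) ^ m)) = (A * q ^ j * (16 / 9 * (2 * (A₁ * ρ ^ k * q ^ j) * M +
        A * q ^ j * e))) * (4 * r) ^ m := by ring
    rw [h3] at ha
    have h4 := le_of_mul_le_mul_right ha (by positivity)
    have h5 : ⟪v, a - x₀⟫ ^ 2 ≤ (A * q ^ (j + 1)) ^ 2 := by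
      have h6 : ⟪v, a - x₀⟫ ^ 2 ≤ Ca * (A * q ^ j * (2 * (A₁ * ρ ^ k * q ^ j) * M +
          A * q ^ j * e)) := by
        have h7 : Ca * (A * q ^ j * (2 * (A₁ * ρ ^ k * q ^ j) * M + A * q ^ j * e)) =
            (A * q ^ j * (16 / 9 * (2 * (A₁ * ρ ^ k * q ^ j) * M + A * q ^ j * e))) /
            (9 / 16 * (θ / 2 ^ m) / 4 ^ m) := by
          rw [hCa]
          ring
        rw [h7, le_div_iff₀ (by positivity)]
        linarith
      refine h6.trans ?_
      have h8 : Ca * (A * q ^ j * (2 * (A₁ * ρ ^ k * q ^ j) * M + A * q ^ j * e)) =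
          A * (q ^ j) ^ 2 * (2 * M * Ca * (A₁ * ρ ^ k) + (Ca * e) * A) := by ring
      have h9 : (A * q ^ (j + 1)) ^ 2 = A * (q ^ j) ^ 2 * (A * q ^ 2) := by
        rw [pow_succ]
        ring
      rw [h8, h9, hCe]
      apply mul_le_mul_of_nonneg_left _ (by positivity)
      nlinarith
    rw [← sq_abs] at h5
    exact (pow_le_pow_iff_left₀ (abs_nonneg _) (by positivity) two_ne_zero).1 h5

end Pool.Agent.Q261.QS
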