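import Mathlib
import Pool.Agent.Q261.QS.Partner

/-!
Symmetric varifolds.
-/

namespace Pool.Agent.Q261.QS

open MeasureTheory Set Filter Topology Metric
open Pool.Agent.TH337.VF
open scoped RealInnerProductSpace ENNReal

variable {N m : ℕ} {U : Set (E N)} {μ : Measure (E N)} {P : E N → E N →L[ℝ] E N}

/-- from flatness in `L¹` to flatness in the supremum norm -/
lemma flat_sup (hV : Vf m U μ P) (hU : IsOpen U) {L : E N →L[ℝ] E N}
    (Ls : ∀ v w, ⟪L v, w⟫ = ⟪v, L w⟫) (Li : ∀ v, L (L v) = L v) {θ : ℝ} (hθ : 0 < θ)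
    (hΘ : ∀ᵐ a ∂(μ.restrict U), ∀ r, 0 < r → closedBall a r ⊆ U → θ * r ^ m ≤ μ.real (ball a r))
    {x₀ : E N} (hx₀ : x₀ ∈ U)
    (hflat : ∀ ε : ℝ, 0 < ε → ∀ᶠ r in 𝓝[>] (0:ℝ),
      ∫ z in ball x₀ r, ‖L (z - x₀)‖ ∂μ ≤ ε * r ^ (m + 1)) :
    ∀ η : ℝ, 0 < η → ∀ᶠ r in 𝓝[>] (0:ℝ), ∀ᵐ x ∂(μ.restrict (ball x₀ r)),
      ‖L (x - x₀)‖ ≤ η * r := by
  intro η hη
  obtain ⟨R₀, hR₀, hR₀U⟩ := Metric.nhds_basis_closedBall.mem_iff.1 (hU.mem_nhds hx₀)
  set c₂ : ℝ := 9 / 16 * (θ / 2 ^ m) with hc₂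
  have hc₂0 : 0 < c₂ := by positivity
  set ε : ℝ := c₂ * η ^ 2 / (2 * 2 ^ (m + 1)) with hε
  have hε0 : 0 < ε := by positivity
  obtain ⟨δ, hδ, hf⟩ := ev (hflat ε hε0)
  filter_upwards [Ioo_mem_nhdsGT (show 0 < min (R₀ / 2) (δ / 2) by
    exact lt_min (by linarith) (by linarith))] with r hr
  have hr0 : 0 < r := hr.1
  have hr1 : r < R₀ / 2 := hr.2.trans_le (min_le_left _ _)
  have hr2 : r < δ / 2 := hr.2.trans_le (min_le_right _ _)
  have h2 := hf (2 * r) (by linarith) (by linarith)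
  have hKU : closedBall x₀ (2 * r) ⊆ U := (closedBall_subset_closedBall (by linarith)).trans hR₀U
  have hK := isCompact_closedBall x₀ (2 * r)
  have hbK : ball x₀ (2 * r) ⊆ closedBall x₀ (2 * r) := ball_subset_closedBall
  have hbU : ball x₀ r ⊆ U := ((ball_subset_ball (by linarith)).trans hbK).trans hKU
  have i1 : IntegrableOn (fun z => ‖L (z - x₀)‖ ^ 2) (ball x₀ (2 * r)) μ :=
    (int_cont' hV.st hK hKU (by fun_prop)).mono_set hbK
  have i2 : IntegrableOn (fun z => ‖L (z - x₀)‖) (ball x₀ (2 * r)) μ :=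
    (int_cont' hV.st hK hKU (by fun_prop)).mono_set hbK
  filter_upwards [ae_restrict_of_ae_restrict_of_subset hbU hΘ,
    ae_restrict_mem measurableSet_ball] with a ha1 ha2
  have hsub : closedBall a r ⊆ ball x₀ (2 * r) := by
    apply closedBall_subset_ball'
    have : dist a x₀ < r := ha2
    linarith
  have haU : closedBall a r ⊆ U := (hsub.trans hbK).trans hKU
  have h3 := height_submean hV Ls Li (x₀ := x₀) hθ.le hr0 haU
    (fun s hs hsr => ha1 s hs ((closedBall_subset_closedBall hsr).trans haU))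
  have h4 : ∫ x in closedBall a r, ‖L (x - x₀)‖ ^ 2 ∂μ ≤ 2 * r * (ε * (2 * r) ^ (m + 1)) := by
    calc ∫ x in closedBall a r, ‖L (x - x₀)‖ ^ 2 ∂μ
        ≤ ∫ x in ball x₀ (2 * r), ‖L (x - x₀)‖ ^ 2 ∂μ := by
          apply setIntegral_mono_set i1
          · filter_upwards with x
            show 0 ≤ ‖L (x - x₀)‖ ^ 2
            positivity
          · exact hsub.eventuallyLE
      _ ≤ ∫ x in ball x₀ (2 * r), 2 * r * ‖L (x - x₀)‖ ∂μ := by
          apply setIntegral_mono_on i1 (i2.const_mul _) measurableSet_ball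
          intro x hx
          have h5 : ‖x - x₀‖ < 2 * r := by rwa [mem_ball, dist_eq_norm] at hx
          have h6 := proj_norm_le Ls Li (x - x₀)
          rw [sq]
          exact mul_le_mul_of_nonneg_right (by linarith) (norm_nonneg _)
      _ = 2 * r * ∫ x in ball x₀ (2 * r), ‖L (x - x₀)‖ ∂μ := by rw [integral_const_mul]
      _ ≤ _ := mul_le_mul_of_nonneg_left h2 (by positivity)
  have h5 : (c₂ * ‖L (a - x₀)‖ ^ 2) * r ^ m ≤ (c₂ * (η * r) ^ 2) * r ^ m := by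
    calc (c₂ * ‖L (a - x₀)‖ ^ 2) * r ^ m ≤ 2 * r * (ε * (2 * r) ^ (m + 1)) := h3.trans h4
      _ = (c₂ * (η * r) ^ 2) * r ^ m := by
        rw [hε, mul_pow 2 r, pow_succ r m]
        field_simp
  have h6 := le_of_mul_le_mul_left (le_of_mul_le_mul_right h5 (by positivity)) hc₂0
  exact (pow_le_pow_iff_left₀ (norm_nonneg _) (by positivity) two_ne_zero).1 h6

/-- a uniform displacement -/
lemma displacement (π : Submodule ℝ (E N)) (Γ : Set (E N ≃ₗᵢ[ℝ] E N))
    (hmove : ∀ y ∈ πᗮ, y ≠ 0 → ∃ g ∈ Γ, g y ≠ y) :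
    ∃ c : ℝ, 0 < c ∧ ∀ y ∈ πᗮ, y ≠ 0 → ∃ g ∈ Γ, c * ‖y‖ ≤ ‖y - g y‖ := by
  by_contra hcon
  push Not at hcon
  have h1 : ∀ n : ℕ, ∃ u : E N, u ∈ πᗮ ∧ ‖u‖ = 1 ∧ ∀ g ∈ Γ, ‖u - g u‖ ≤ 1 / ((n:ℝ) + 1) := by
    intro n
    obtain ⟨y, hy, hy0, h⟩ := hcon (1 / ((n:ℝ) + 1)) (by positivity)
    have hyn : 0 < ‖y‖ := norm_pos_iff.2 hy0
    refine ⟨‖y‖⁻¹ • y, Submodule.smul_mem _ _ hy, ?_, ?_⟩
    · rw [norm_smul, norm_inv, norm_norm, inv_mul_cancel₀ hyn.ne']
    · intro g hg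
      rw [map_smul, ← smul_sub, norm_smul, norm_inv, norm_norm]
      have h2 := (h g hg).le
      calc ‖y‖⁻¹ * ‖y - g y‖ ≤ ‖y‖⁻¹ * (1 / ((n:ℝ) + 1) * ‖y‖) :=
            mul_le_mul_of_nonneg_left h2 (by positivity)
        _ = 1 / ((n:ℝ) + 1) := by
          field_simp
  choose u hu1 hu2 hu3 using h1
  obtain ⟨w, -, φ, hφ, hlim⟩ := (isCompact_closedBall (0 : E N) 1).tendsto_subseq (x := u)
    (fun n => by
      rw [mem_closedBall, dist_zero_right]
      exact (hu2 n).le)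
  have hw1 : w ∈ πᗮ := by
    have hclosed : IsClosed (πᗮ : Set (E N)) := Submodule.isClosed_orthogonal π
    exact hclosed.mem_of_tendsto hlim (Eventually.of_forall fun n => hu1 (φ n))
  have hw2 : ‖w‖ = 1 := by
    have h2 := hlim.norm
    have h3 : (fun n => ‖(u ∘ φ) n‖) = fun _ => (1:ℝ) := by
      funext n
      exact hu2 (φ n)
    rw [h3] at h2
    exact (tendsto_nhds_unique h2 tendsto_const_nhds)
  have hw0 : w ≠ 0 := by
    intro h
    rw [h, norm_zero] at hw2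
    norm_num at hw2
  obtain ⟨g, hg, hgw⟩ := hmove w hw1 hw0
  apply hgw
  have h2 : Tendsto (fun n => ‖u (φ n) - g (u (φ n))‖) atTop (𝓝 ‖w - g w‖) := by
    have h3 : Continuous fun x : E N => ‖x - g x‖ := by
      have := g.continuous
      fun_prop
    exact (h3.tendsto w).comp hlim
  have h3 : Tendsto (fun n : ℕ => 1 / ((φ n : ℝ) + 1)) atTop (𝓝 0) :=
    tendsto_one_div_add_atTop_nhds_zero_nat.comp hφ.tendsto_atTop
  have h4 : ‖w - g w‖ ≤ 0 := le_of_tendsto_of_tendsto' h2 h3 fun n => hu3 (φ n) g hg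
  have h5 : w - g w = 0 := norm_le_zero_iff.1 h4
  exact (sub_eq_zero.1 h5).symm

/-- the density is invariant -/
lemma dens_sym {R : ℝ} {x₀ : E N} {g : E N ≃ₗᵢ[ℝ] E N}
    (hinv : (μ.restrict (ball x₀ R)).map (fun x => x₀ + g (x - x₀)) = μ.restrict (ball x₀ R))
    {x : E N} (hx : x ∈ ball x₀ R) : density m μ (x₀ + g (x - x₀)) = density m μ x := by
  have hφ : Continuous fun x : E N => x₀ + g (x - x₀) := by
    have := g.continuous
    fun_prop
  have hx' : x₀ + g (x - x₀) ∈ ball x₀ R := by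
    rw [mem_ball, dist_eq_norm, add_sub_cancel_left, g.norm_map, ← dist_eq_norm]
    exact hx
  rw [← density_restrict isOpen_ball hx', ← density_restrict isOpen_ball hx]
  unfold density
  congr 1
  funext s
  congr 1
  conv_lhs => rw [← hinv]
  rw [Measure.map_apply hφ.measurable measurableSet_ball]
  congr 1
  ext z
  simp only [mem_preimage, mem_ball, dist_eq_norm]
  have h1 : x₀ + g (z - x₀) - (x₀ + g (x - x₀)) = g (z - x) := by
    rw [add_sub_add_left_eq_sub, ← map_sub]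
    congr 1
    abel
  rw [h1, g.norm_map]

theorem symmetric (hV : Vf m U μ P) (hU : IsOpen U)
    (h1 : ∀ᵐ x ∂(μ.restrict U), 1 ≤ density m μ x) {x₀ : E N} (hx₀ : x₀ ∈ U)
    (π : Submodule ℝ (E N))
    (hdens : ∀ ε : ℝ, 0 < ε → ∀ᶠ r in 𝓝[>] (0:ℝ),
      μ (ball x₀ r ∩ {x | density m μ x ≠ density m μ x₀}) ≤ ENNReal.ofReal (ε * r ^ m))
    (hflat : ∀ ε : ℝ, 0 < ε → ∀ᶠ r in 𝓝[>] (0:ℝ),
      ∫ z in ball x₀ r, ‖πᗮ.starProjection (z - x₀)‖ ∂μ ≤ ε * r ^ (m + 1))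
    (Γ : Set (E N ≃ₗᵢ[ℝ] E N)) (hfix : ∀ g ∈ Γ, ∀ u ∈ π, g u = u)
    (hmove : ∀ y ∈ πᗮ, y ≠ 0 → ∃ g ∈ Γ, g y ≠ y) {R : ℝ} (hR : 0 < R)
    (hinv : ∀ g ∈ Γ, (μ.restrict (ball x₀ R)).map (fun x => x₀ + g (x - x₀)) =
      μ.restrict (ball x₀ R)) (k : ℕ) :
    ∀ᶠ r in 𝓝[>] (0:ℝ), ∀ᵐ x ∂(μ.restrict (ball x₀ r)),
      ‖πᗮ.starProjection (x - x₀)‖ ≤ r ^ k := by
  set L := πᗮ.starProjection with hL
  have Ls : ∀ v w, ⟪L v, w⟫ = ⟪v, L w⟫ := fun v w => Submodule.inner_starProjection_left_eq_right _ _ _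
  have Li : ∀ v, L (L v) = L v := fun v =>
    Submodule.starProjection_eq_self_iff.2 (Submodule.starProjection_apply_mem _ _)
  set θ := (volume (ball (0 : EuclideanSpace ℝ (Fin m)) 1)).toReal with hθdef
  have hθ : 0 < θ := omega_real_pos m
  have hΘ : ∀ᵐ a ∂(μ.restrict U), ∀ r, 0 < r → closedBall a r ⊆ U →
      θ * r ^ m ≤ μ.real (ball a r) := by
    filter_upwards [h1] with a ha r hr haU
    exact lowmass hV.st ha hr haU
  have hsup := flat_sup hV hU Ls Li hθ hΘ hx₀ hflat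
  obtain ⟨c, hc, hdisp⟩ := displacement π Γ hmove
  apply partners hV hU h1 hx₀ Ls Li hdens hc _ k
  intro η hη
  filter_upwards [hsup (η / 2) (by linarith), Ioo_mem_nhdsGT hR] with r hr1 hr2
  have hr0 : 0 < r := hr2.1
  filter_upwards [hr1, ae_restrict_mem measurableSet_ball] with x hx1 hx2 hx3
  set y := L (x - x₀) with hy
  have hyπ : y ∈ πᗮ := Submodule.starProjection_apply_mem _ _
  by_cases hy0 : y = 0
  · refine ⟨x, hx3, ?_, ?_⟩
    · rw [sub_self, norm_zero]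
      positivity
    · rw [hy0, norm_zero, mul_zero]
      exact norm_nonneg _
  · obtain ⟨g, hg, hgc⟩ := hdisp y hyπ hy0
    have hxR : x ∈ ball x₀ R := ball_subset_ball hr2.2.le hx2
    have hgy : g y ∈ πᗮ := by
      rw [Submodule.mem_orthogonal]
      intro u hu
      rw [← hfix g hg u hu, g.inner_map_map]
      exact (Submodule.mem_orthogonal π y).1 hyπ u hu
    have hdec : x - x₀ = π.starProjection (x - x₀) + y := by
      rw [hy, hL]
      exact (Submodule.starProjection_add_starProjection_orthogonal (K := π) (x - x₀)).symm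
    have hu : g (π.starProjection (x - x₀)) = π.starProjection (x - x₀) :=
      hfix g hg _ (Submodule.starProjection_apply_mem _ _)
    have hxx' : x - (x₀ + g (x - x₀)) = y - g y := by
      have h2 : g (x - x₀) = π.starProjection (x - x₀) + g y := by
        conv_lhs => rw [hdec]
        rw [map_add, hu]
      rw [h2]
      calc x - (x₀ + (π.starProjection (x - x₀) + g y))
          = (x - x₀) - π.starProjection (x - x₀) - g y := by abel
        _ = (π.starProjection (x - x₀) + y) - π.starProjection (x - x₀) - g y := by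
          rw [← hdec]
        _ = y - g y := by abel
    refine ⟨x₀ + g (x - x₀), ?_, ?_, ?_⟩
    · rw [dens_sym (hinv g hg) hxR]
      exact hx3
    · rw [hxx']
      calc ‖y - g y‖ ≤ ‖y‖ + ‖g y‖ := norm_sub_le _ _
        _ = 2 * ‖y‖ := by
          rw [g.norm_map]
          ring
        _ ≤ η * r := by linarith
    · rw [hxx']
      have h3 : L (y - g y) = y - g y :=
        Submodule.starProjection_eq_self_iff.2 (Submodule.sub_mem _ hyπ hgy)
      rw [h3]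
      exact hgc

end Pool.Agent.Q261.QS
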